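import Pool.Agent.Helper715.Cone

set_option autoImplicit false
set_option linter.unusedSectionVars false

namespace Pool.Agent.Helper715

open Finset

theorem eventually_lin (a b : ℝ) (hb : 0 < b) : ∀ᶠ t in Filter.atTop, 0 < a + t * b :=
  (Filter.tendsto_atTop_add_const_left _ a
    (Filter.tendsto_id.atTop_mul_const hb)).eventually_gt_atTop 0

theorem exists_large {ι : Type*} (s : Finset ι) (a b : ι → ℝ)
    (h : ∀ i ∈ s, 0 < b i ∨ (b i = 0 ∧ 0 ≤ a i)) :
    ∃ N : ℝ, 0 < N ∧ ∀ i ∈ s, 0 ≤ a i + N * b i ∧ (0 < b i → 0 < a i + N * b i) := by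
  have h1 : ∀ᶠ N in Filter.atTop, ∀ i ∈ s, 0 ≤ a i + N * b i ∧ (0 < b i → 0 < a i + N * b i) := by
    rw [Filter.eventually_all_finset]
    intro i hi
    rcases h i hi with hb | ⟨hb, ha⟩
    · filter_upwards [eventually_lin (a i) (b i) hb] with N hN
      exact ⟨hN.le, fun _ => hN⟩
    · filter_upwards with N
      rw [hb]
      exact ⟨by simpa using ha, fun h => absurd h (lt_irrefl _)⟩
  obtain ⟨N, hN, h0⟩ := (h1.and (Filter.eventually_gt_atTop (0 : ℝ))).exists
  exact ⟨N, h0, hN⟩

variable {W : Type*} [NormedAddCommGroup W] [InnerProductSpace ℝ W] [FiniteDimensional ℝ W]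

/-- A pair of mutually dual, pointed and full dimensional finitely generated cones. -/
structure CP (W : Type*) [NormedAddCommGroup W] [InnerProductSpace ℝ W] [FiniteDimensional ℝ W] where
  V : Finset W
  G : Finset W
  hV : ∀ x : W, x ∈ cone (V : Set W) ↔ ∀ g ∈ G, 0 ≤ inner ℝ g x
  hG : ∀ y : W, y ∈ cone (G : Set W) ↔ ∀ v ∈ V, 0 ≤ inner ℝ v y
  sV : Submodule.span ℝ (V : Set W) = ⊤
  sG : Submodule.span ℝ (G : Set W) = ⊤

/-- elements of `G` orthogonal to `A` -/
noncomputable def perp (G A : Finset W) : Finset W := by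
  classical exact G.filter (fun g => ∀ a ∈ A, inner ℝ g a = 0)

theorem mem_perp {G A : Finset W} {g : W} : g ∈ perp G A ↔ g ∈ G ∧ ∀ a ∈ A, inner ℝ g a = 0 := by
  classical
  rw [perp, Finset.mem_filter]

theorem perp_sub (G A : Finset W) : perp G A ⊆ G := fun _ h => (mem_perp.1 h).1

theorem perp_anti {G A B : Finset W} (h : A ⊆ B) : perp G B ⊆ perp G A := by
  intro g hg
  rw [mem_perp] at hg ⊢
  exact ⟨hg.1, fun a ha => hg.2 a (h ha)⟩

/-- dimension of the span -/
noncomputable def dm (A : Finset W) : ℕ := Module.finrank ℝ (Submodule.span ℝ (A : Set W))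

theorem dm_mono {A B : Finset W} (h : A ⊆ B) : dm A ≤ dm B :=
  Submodule.finrank_mono (Submodule.span_mono (by exact_mod_cast h))

/-- a point in the relative interior of the face `A` -/
noncomputable def vs (A : Finset W) : W := ∑ a ∈ A, a

namespace CP

variable (P : CP W)

/-- the dual pair -/
def swap : CP W := ⟨P.G, P.V, P.hG, P.hV, P.sG, P.sV⟩

@[simp] theorem swap_V : P.swap.V = P.G := rfl
@[simp] theorem swap_G : P.swap.G = P.V := rfl
@[simp] theorem swap_swap : P.swap.swap = P := rfl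

theorem nn {v g : W} (hv : v ∈ P.V) (hg : g ∈ P.G) : 0 ≤ inner ℝ g v :=
  (P.hV v).1 (Submodule.subset_span hv) g hg

theorem nn' {v g : W} (hv : v ∈ P.V) (hg : g ∈ P.G) : 0 ≤ inner ℝ v g := by
  rw [real_inner_comm]; exact P.nn hv hg

/-- closed sets: vertex sets of faces -/
def Cl (A : Finset W) : Prop := perp P.V (perp P.G A) = A

variable {P}

theorem Cl.sub {A : Finset W} (h : P.Cl A) : A ⊆ P.V := by
  rw [Cl] at h
  rw [← h]
  exact perp_sub _ _

theorem le_perp_perp {A : Finset W} (h : A ⊆ P.V) : A ⊆ perp P.V (perp P.G A) := by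
  intro a ha
  rw [mem_perp]
  refine ⟨h ha, fun g hg => ?_⟩
  rw [real_inner_comm]
  exact (mem_perp.1 hg).2 a ha

theorem perp_perp_perp {A : Finset W} (h : A ⊆ P.V) :
    perp P.G (perp P.V (perp P.G A)) = perp P.G A := by
  apply Finset.Subset.antisymm
  · exact perp_anti (le_perp_perp h)
  · exact le_perp_perp (P := P.swap) (perp_sub _ _)

theorem Cl_perp {A : Finset W} (h : A ⊆ P.V) : P.swap.Cl (perp P.G A) := perp_perp_perp h

theorem Cl_perpV {B : Finset W} (h : B ⊆ P.G) : P.Cl (perp P.V B) :=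
  perp_perp_perp (P := P.swap) h

theorem mem_Cl {A : Finset W} (hA : P.Cl A) {v : W} :
    v ∈ A ↔ v ∈ P.V ∧ ∀ g ∈ perp P.G A, inner ℝ v g = 0 := by
  conv_lhs => rw [← (show perp P.V (perp P.G A) = A from hA)]
  rw [mem_perp]

theorem exists_pos {A : Finset W} (hA : P.Cl A) {v : W} (hv : v ∈ P.V) (hvA : v ∉ A) :
    ∃ g ∈ perp P.G A, 0 < inner ℝ g v := by
  rw [mem_Cl hA] at hvA
  push Not at hvA
  obtain ⟨g, hg, hne⟩ := hvA hv
  refine ⟨g, hg, lt_of_le_of_ne (P.nn hv (perp_sub _ _ hg)) ?_⟩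
  rw [real_inner_comm]
  exact fun h => hne h.symm

variable (P) in
/-- a functional which cuts out the face `A` -/
noncomputable def gs (A : Finset W) : W := ∑ g ∈ perp P.G A, g


theorem gs_nonneg (A : Finset W) {v : W} (hv : v ∈ P.V) : 0 ≤ inner ℝ (P.gs A) v := by
  rw [gs, sum_inner]
  exact Finset.sum_nonneg fun g hg => P.nn hv (perp_sub _ _ hg)

theorem gs_zero {A : Finset W} {a : W} (ha : a ∈ A) : inner ℝ (P.gs A) a = 0 := by
  rw [gs, sum_inner]
  exact Finset.sum_eq_zero fun g hg => (mem_perp.1 hg).2 a ha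

theorem gs_pos {A : Finset W} (hA : P.Cl A) {v : W} (hv : v ∈ P.V) (hvA : v ∉ A) :
    0 < inner ℝ (P.gs A) v := by
  obtain ⟨g, hg, hpos⟩ := exists_pos hA hv hvA
  rw [gs, sum_inner]
  exact Finset.sum_pos' (fun g hg => P.nn hv (perp_sub _ _ hg)) ⟨g, hg, hpos⟩

theorem gs_mem_cone (A : Finset W) : P.gs A ∈ cone (P.G : Set W) := by
  apply Submodule.sum_mem
  intro g hg
  exact Submodule.subset_span (perp_sub _ _ hg)

theorem vs_pos {A : Finset W} (hA : A ⊆ P.V) {g : W} (hg : g ∈ P.G) (hgA : g ∉ perp P.G A) :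
    0 < inner ℝ g (vs A) := by
  rw [mem_perp] at hgA
  push Not at hgA
  obtain ⟨a, ha, hne⟩ := hgA hg
  rw [vs, inner_sum]
  exact Finset.sum_pos' (fun a ha => P.nn (hA ha) hg)
    ⟨a, ha, lt_of_le_of_ne (P.nn (hA ha) hg) (Ne.symm hne)⟩

theorem vs_zero {A : Finset W} {g : W} (hg : g ∈ perp P.G A) : inner ℝ g (vs A) = 0 := by
  rw [vs, inner_sum]
  exact Finset.sum_eq_zero fun a ha => (mem_perp.1 hg).2 a ha

theorem vs_mem_span (A : Finset W) : vs A ∈ Submodule.span ℝ (A : Set W) :=
  Submodule.sum_mem _ fun _ ha => Submodule.subset_span ha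

theorem face_cone {A : Finset W} (hA : A ⊆ P.V) {y : W} (hy : y ∈ cone (P.G : Set W))
    (h : ∀ a ∈ A, inner ℝ y a = 0) : y ∈ cone (perp P.G A : Set W) := by
  revert h
  refine Submodule.span_induction
    (p := fun y _ => (∀ a ∈ A, inner ℝ y a = 0) → y ∈ cone (perp P.G A : Set W)) ?_ ?_ ?_ ?_ hy
  · intro g hg h
    exact Submodule.subset_span (mem_perp.2 ⟨hg, h⟩)
  · intro _
    exact Submodule.zero_mem _
  · intro y1 y2 h1 h2 ih1 ih2 h
    have n1 : ∀ a ∈ A, 0 ≤ inner ℝ y1 a := fun a ha => by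
      rw [real_inner_comm]; exact (P.hG y1).1 h1 a (hA ha)
    have n2 : ∀ a ∈ A, 0 ≤ inner ℝ y2 a := fun a ha => by
      rw [real_inner_comm]; exact (P.hG y2).1 h2 a (hA ha)
    have e : ∀ a ∈ A, inner ℝ y1 a + inner ℝ y2 a = 0 := fun a ha => by
      rw [← inner_add_left]; exact h a ha
    exact Submodule.add_mem _ (ih1 fun a ha => by linarith [n1 a ha, n2 a ha, e a ha])
      (ih2 fun a ha => by linarith [n1 a ha, n2 a ha, e a ha])
  · intro c y1 h1 ih h
    by_cases hc : c = 0
    · rw [hc, zero_smul]; exact Submodule.zero_mem _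
    · apply Submodule.smul_mem
      apply ih
      intro a ha
      have := h a ha
      rw [NNReal.smul_def, real_inner_smul_left] at this
      rcases mul_eq_zero.1 this with h0 | h0
      · exact absurd (NNReal.coe_eq_zero.1 h0) hc
      · exact h0

theorem perp_span {A : Finset W} {g z : W} (hg : g ∈ perp P.G A)
    (hz : z ∈ Submodule.span ℝ (A : Set W)) : inner ℝ g z = 0 := by
  refine Submodule.span_induction (p := fun z _ => inner ℝ g z = 0) ?_ ?_ ?_ ?_ hz
  · intro a ha; exact (mem_perp.1 hg).2 a ha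
  · simp
  · intro a b _ _ ha hb; rw [inner_add_right, ha, hb, add_zero]
  · intro c a _ ha; rw [real_inner_smul_right, ha, mul_zero]

theorem mem_orth {A : Finset W} {z : W} :
    z ∈ (Submodule.span ℝ (A : Set W))ᗮ ↔ ∀ a ∈ A, inner ℝ z a = 0 := by
  rw [Submodule.mem_orthogonal]
  constructor
  · intro h a ha
    rw [real_inner_comm]
    exact h a (Submodule.subset_span ha)
  · intro h u hu
    rw [real_inner_comm]
    refine Submodule.span_induction (p := fun u _ => inner ℝ z u = 0) ?_ ?_ ?_ ?_ hu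
    · intro a ha; exact h a ha
    · simp
    · intro a b _ _ ha hb; rw [inner_add_right, ha, hb, add_zero]
    · intro c a _ ha; rw [real_inner_smul_right, ha, mul_zero]

theorem span_perp {A : Finset W} (hA : P.Cl A) :
    Submodule.span ℝ (perp P.G A : Set W) = (Submodule.span ℝ (A : Set W))ᗮ := by
  classical
  apply le_antisymm
  · rw [Submodule.span_le]
    intro g hg
    exact mem_orth.2 (mem_perp.1 hg).2
  · intro z hz
    rw [mem_orth] at hz
    obtain ⟨N, hN0, hN⟩ := exists_large P.V (fun v => inner ℝ z v) (fun v => inner ℝ (P.gs A) v) (by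
      intro v hv
      by_cases hvA : v ∈ A
      · right; exact ⟨gs_zero hvA, (hz v hvA).ge⟩
      · left; exact gs_pos hA hv hvA)
    have h1 : z + N • P.gs A ∈ cone (P.G : Set W) := by
      rw [P.hG]
      intro v hv
      rw [real_inner_comm, inner_add_left, real_inner_smul_left]
      exact (hN v hv).1
    have h2 : z + N • P.gs A ∈ cone (perp P.G A : Set W) := by
      apply face_cone hA.sub h1
      intro a ha
      rw [inner_add_left, real_inner_smul_left, hz a ha, gs_zero ha]
      simp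
    have h3 := cone_le_span h2
    have h4 : P.gs A ∈ Submodule.span ℝ (perp P.G A : Set W) :=
      Submodule.sum_mem _ fun g hg => Submodule.subset_span hg
    have h5 := Submodule.sub_mem _ h3 (Submodule.smul_mem _ N h4)
    simpa using h5

theorem dm_add {A : Finset W} (hA : P.Cl A) : dm A + dm (perp P.G A) = Module.finrank ℝ W := by
  rw [dm, dm, span_perp hA]
  exact Submodule.finrank_add_finrank_orthogonal _

theorem mem_of_mem_span {B : Finset W} (hB : P.Cl B) {v : W} (hv : v ∈ P.V)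
    (hvs : v ∈ Submodule.span ℝ (B : Set W)) : v ∈ B := by
  rw [mem_Cl hB]
  refine ⟨hv, fun g hg => ?_⟩
  rw [real_inner_comm]
  exact perp_span hg hvs

theorem sub_of_span_le {A B : Finset W} (hA : A ⊆ P.V) (hB : P.Cl B)
    (h : Submodule.span ℝ (A : Set W) ≤ Submodule.span ℝ (B : Set W)) : A ⊆ B := fun a ha =>
  mem_of_mem_span hB (hA ha) (h (Submodule.subset_span ha))

theorem eq_of_dm_le {A B : Finset W} (hA : P.Cl A) (hB : P.Cl B) (h : A ⊆ B) (hd : dm B ≤ dm A) :
    A = B := by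
  apply Finset.Subset.antisymm h
  apply sub_of_span_le hB.sub hA
  rw [Submodule.eq_of_le_of_finrank_le (Submodule.span_mono (by exact_mod_cast h)) hd]

theorem dm_lt {A B : Finset W} (hA : P.Cl A) (hB : P.Cl B) (h : A ⊆ B) (hne : A ≠ B) :
    dm A < dm B := by
  by_contra hcon
  exact hne (eq_of_dm_le hA hB h (not_lt.1 hcon))

/-- faces of a face cut out by a functional -/
theorem Cl_filter {B : Finset W} (hB : P.Cl B) {z : W} (hz : ∀ v ∈ B, 0 ≤ inner ℝ z v)
    {A : Finset W} (hA : ∀ v, v ∈ A ↔ v ∈ B ∧ inner ℝ z v = 0) : P.Cl A := by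
  classical
  obtain ⟨N, hN0, hN⟩ := exists_large P.V (fun v => inner ℝ z v) (fun v => inner ℝ (P.gs B) v) (by
    intro v hv
    by_cases hvB : v ∈ B
    · right; exact ⟨gs_zero hvB, hz v hvB⟩
    · left; exact gs_pos hB hv hvB)
  have hAV : A ⊆ P.V := fun a ha => hB.sub ((hA a).1 ha).1
  have h1 : z + N • P.gs B ∈ cone (P.G : Set W) := by
    rw [P.hG]
    intro v hv
    rw [real_inner_comm, inner_add_left, real_inner_smul_left]
    exact (hN v hv).1
  have h2 : z + N • P.gs B ∈ cone (perp P.G A : Set W) := by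
    apply face_cone hAV h1
    intro a ha
    obtain ⟨haB, ha0⟩ := (hA a).1 ha
    rw [inner_add_left, real_inner_smul_left, ha0, gs_zero haB]
    simp
  rw [Cl]
  apply Finset.Subset.antisymm _ (le_perp_perp hAV)
  intro v hv
  rw [mem_perp] at hv
  have h3 : inner ℝ v (z + N • P.gs B) = 0 := by
    have h4 := cone_le_span h2
    refine Submodule.span_induction (p := fun y _ => inner ℝ v y = 0) ?_ ?_ ?_ ?_ h4
    · intro g hg; exact hv.2 g hg
    · simp
    · intro a b _ _ ha hb; rw [inner_add_right, ha, hb, add_zero]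
    · intro c a _ ha; rw [real_inner_smul_right, ha, mul_zero]
  rw [real_inner_comm, inner_add_left, real_inner_smul_left] at h3
  have hvB : v ∈ B := by
    by_contra hcon
    have := (hN v hv.1).2 (gs_pos hB hv.1 hcon)
    linarith
  rw [hA]
  refine ⟨hvB, ?_⟩
  rw [gs_zero hvB] at h3
  simpa using h3

end CP
end Pool.Agent.Helper715
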