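import Pool.Agent.Helper715.CP

set_option autoImplicit false
set_option linter.unusedSectionVars false

namespace Pool.Agent.Helper715

open Finset

variable {W : Type*} [NormedAddCommGroup W] [InnerProductSpace ℝ W] [FiniteDimensional ℝ W]

namespace CP

variable {P : CP W}

theorem exists_u {A B : Finset W} (y : W) (hd : dm A + 2 ≤ dm B) :
    ∃ u ∈ Submodule.span ℝ (B : Set W), inner ℝ y u = 0 ∧ u ∉ Submodule.span ℝ (A : Set W) := by
  set SB := Submodule.span ℝ (B : Set W)
  set SA := Submodule.span ℝ (A : Set W)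
  set K : Submodule ℝ W := (ℝ ∙ y)ᗮ
  have h1 := Submodule.finrank_sup_add_finrank_inf_eq SB K
  have h2 : Module.finrank ℝ (ℝ ∙ y) + Module.finrank ℝ K = Module.finrank ℝ W :=
    Submodule.finrank_add_finrank_orthogonal _
  have h3 : Module.finrank ℝ (ℝ ∙ y) ≤ 1 := by
    have := finrank_span_le_card (R := ℝ) ({y} : Set W)
    simpa using this
  have h4 : Module.finrank ℝ ↥(SB ⊔ K) ≤ Module.finrank ℝ W := Submodule.finrank_le _
  have h5 : Module.finrank ℝ SB = dm B := rfl
  have h6 : Module.finrank ℝ SA = dm A := rfl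
  have h7 : ¬ (SB ⊓ K ≤ SA) := by
    intro h
    have := Submodule.finrank_mono h
    omega
  rw [SetLike.not_le_iff_exists] at h7
  obtain ⟨u, hu, huA⟩ := h7
  refine ⟨u, hu.1, ?_, huA⟩
  exact Submodule.mem_orthogonal_singleton_iff_inner_right.1 hu.2

theorem shrink {A B : Finset W} (hA : P.Cl A) (hB : P.Cl B) (hAB : A ⊆ B) {y : W}
    (hy : ∀ a ∈ A, inner ℝ y a = 0) (hpos : ∃ b ∈ B, 0 < inner ℝ y b) (hd : dm A + 2 ≤ dm B) :
    ∃ B', P.Cl B' ∧ A ⊆ B' ∧ B' ⊆ B ∧ B' ≠ B ∧ ∃ b ∈ B', 0 < inner ℝ y b := by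
  classical
  obtain ⟨z0, hz0, hz0pos⟩ := hpos
  obtain ⟨u0, hu0B, hu0y, hu0A⟩ := exists_u (A := A) y hd
  -- fix the sign of u
  obtain ⟨u, huB, huy, g1, hg1, hg1u⟩ : ∃ u ∈ Submodule.span ℝ (B : Set W), inner ℝ y u = 0 ∧
      ∃ g ∈ perp P.G A, inner ℝ g u < 0 := by
    have : ∃ g ∈ perp P.G A, inner ℝ g u0 ≠ 0 := by
      by_contra hcon
      push Not at hcon
      apply hu0A
      have h1 : u0 ∈ (Submodule.span ℝ (perp P.G A : Set W))ᗮ := by
        rw [mem_orth]
        intro g hg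
        rw [real_inner_comm]
        exact hcon g hg
      rw [span_perp hA, Submodule.orthogonal_orthogonal] at h1
      exact h1
    obtain ⟨g, hg, hne⟩ := this
    rcases lt_or_gt_of_ne hne with h | h
    · exact ⟨u0, hu0B, hu0y, g, hg, h⟩
    · refine ⟨-u0, Submodule.neg_mem _ hu0B, by rw [inner_neg_right, hu0y, neg_zero], g, hg, ?_⟩
      rw [inner_neg_right]; linarith
  -- the exit point
  obtain ⟨g0, hg0, hmin⟩ := ((perp P.G A).filter (fun g => inner ℝ g u < 0)).exists_min_image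
    (fun g => (inner ℝ g z0) / (-(inner ℝ g u))) ⟨g1, by simp [hg1, hg1u]⟩
  rw [Finset.mem_filter] at hg0
  obtain ⟨hg0A, hg0u⟩ := hg0
  set t : ℝ := (inner ℝ g0 z0) / (-(inner ℝ g0 u)) with ht
  have hz0V := hB.sub hz0
  have ht0 : 0 ≤ t := div_nonneg (P.nn hz0V (perp_sub _ _ hg0A)) (by linarith)
  set p : W := z0 + t • u with hp
  have hpB : p ∈ Submodule.span ℝ (B : Set W) :=
    Submodule.add_mem _ (Submodule.subset_span hz0) (Submodule.smul_mem _ _ huB)
  have hgp : ∀ g ∈ perp P.G A, 0 ≤ inner ℝ g p := by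
    intro g hg
    rw [hp, inner_add_right, real_inner_smul_right]
    have h0 := P.nn hz0V (perp_sub _ _ hg)
    rcases le_or_gt 0 (inner ℝ g u) with h | h
    · have := mul_nonneg ht0 h
      linarith
    · have h1 := hmin g (by rw [Finset.mem_filter]; exact ⟨hg, h⟩)
      rw [le_div_iff₀ (by linarith)] at h1
      linarith
  have hg0p : inner ℝ g0 p = 0 := by
    rw [hp, inner_add_right, real_inner_smul_right, ht]
    have : inner ℝ g0 u ≠ 0 := hg0u.ne
    field_simp
    ring
  have hyp : 0 < inner ℝ y p := by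
    rw [hp, inner_add_right, real_inner_smul_right, huy]
    linarith
  obtain ⟨N, hN0, hN⟩ := exists_large P.G (fun g => inner ℝ g p) (fun g => inner ℝ g (vs A)) (by
    intro g hg
    by_cases hgA : g ∈ perp P.G A
    · right; exact ⟨vs_zero hgA, hgp g hgA⟩
    · left; exact vs_pos hA.sub hg hgA)
  set p' : W := p + N • vs A with hp'
  have hp'V : p' ∈ cone (P.V : Set W) := by
    rw [P.hV]
    intro g hg
    rw [hp', inner_add_right, real_inner_smul_right]
    exact (hN g hg).1
  have hyp' : 0 < inner ℝ y p' := by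
    rw [hp', inner_add_right, real_inner_smul_right, vs, inner_sum,
      Finset.sum_eq_zero (fun a ha => hy a ha)]
    linarith
  set D : Finset W := insert g0 (perp P.G B) with hD
  have hDG : D ⊆ P.G := by
    intro g hg
    rw [hD, Finset.mem_insert] at hg
    rcases hg with rfl | hg
    · exact perp_sub _ _ hg0A
    · exact perp_sub _ _ hg
  have hp'D : ∀ g ∈ D, inner ℝ p' g = 0 := by
    intro g hg
    rw [hD, Finset.mem_insert] at hg
    rw [real_inner_comm, hp', inner_add_right, real_inner_smul_right]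
    rcases hg with rfl | hg
    · rw [hg0p, vs_zero hg0A]; simp
    · rw [perp_span hg hpB, vs_zero (perp_anti hAB hg)]; simp
  have hp'c : p' ∈ cone (perp P.V D : Set W) := face_cone (P := P.swap) hDG hp'V hp'D
  refine ⟨perp P.V D, Cl_perpV hDG, ?_, ?_, ?_, ?_⟩
  · intro a ha
    rw [mem_perp]
    refine ⟨hA.sub ha, fun g hg => ?_⟩
    rw [hD, Finset.mem_insert] at hg
    rw [real_inner_comm]
    rcases hg with rfl | hg
    · exact (mem_perp.1 hg0A).2 a ha
    · exact (mem_perp.1 hg).2 a (hAB ha)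
  · intro b hb
    rw [mem_Cl hB]
    rw [mem_perp] at hb
    exact ⟨hb.1, fun g hg => hb.2 g (by rw [hD]; exact Finset.mem_insert_of_mem hg)⟩
  · intro h
    have hg0B : g0 ∈ perp P.G B := by
      rw [mem_perp]
      refine ⟨perp_sub _ _ hg0A, fun b hb => ?_⟩
      rw [← h, mem_perp] at hb
      rw [real_inner_comm]
      exact hb.2 g0 (by rw [hD]; exact Finset.mem_insert_self _ _)
    have := perp_span hg0B huB
    linarith
  · by_contra hcon
    push Not at hcon
    have : 0 ≤ inner ℝ (-y) p' := by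
      refine cone_inner_nonneg ?_ hp'c
      intro b hb
      rw [inner_neg_left]
      linarith [hcon b hb]
    rw [inner_neg_left] at this
    linarith

/-- L3: cover-up lemma. -/
theorem cover_up {A B : Finset W} (hA : P.Cl A) (hB : P.Cl B) (hAB : A ⊆ B) {y : W}
    (hy : ∀ a ∈ A, inner ℝ y a = 0) (hpos : ∃ b ∈ B, 0 < inner ℝ y b) :
    ∃ C, P.Cl C ∧ A ⊆ C ∧ C ⊆ B ∧ dm C = dm A + 1 ∧ ∃ c ∈ C, 0 < inner ℝ y c := by
  induction hn : B.card using Nat.strong_induction_on generalizing B with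
  | _ n ih =>
    have hne : A ≠ B := by
      rintro rfl
      obtain ⟨b, hb, hb'⟩ := hpos
      rw [hy b hb] at hb'
      exact lt_irrefl _ hb'
    have hlt := dm_lt hA hB hAB hne
    by_cases hd : dm A + 2 ≤ dm B
    · obtain ⟨B', hB', hAB', hB'B, hB'ne, hpos'⟩ := shrink hA hB hAB hy hpos hd
      have hcard : B'.card < n := by
        rw [← hn]
        exact Finset.card_lt_card (Finset.ssubset_iff_subset_ne.2 ⟨hB'B, hB'ne⟩)
      obtain ⟨C, hC, h1, h2, h3⟩ := ih B'.card hcard hB' hAB' hpos' rfl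
      exact ⟨C, hC, h1, h2.trans hB'B, h3⟩
    · exact ⟨B, hB, hAB, Finset.Subset.refl _, by omega, hpos⟩

/-- existence of an intermediate closed set -/
theorem exists_cover {A B : Finset W} (hA : P.Cl A) (hB : P.Cl B) (hAB : A ⊆ B) (hne : A ≠ B) :
    ∃ C, P.Cl C ∧ A ⊆ C ∧ C ⊆ B ∧ dm C = dm A + 1 := by
  have : ∃ b ∈ B, b ∉ A := by
    by_contra hcon
    push Not at hcon
    exact hne (Finset.Subset.antisymm hAB hcon)
  obtain ⟨b, hb, hbA⟩ := this
  obtain ⟨C, h1, h2, h3, h4, _⟩ := cover_up hA hB hAB (y := P.gs A) (fun a ha => gs_zero ha)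
    ⟨b, hb, gs_pos hA (hB.sub hb) hbA⟩
  exact ⟨C, h1, h2, h3, h4⟩

theorem exists_not_mem {A B : Finset W} (hA : P.Cl A) (hB : P.Cl B) (hAB : A ⊆ B)
    (hd : dm A < dm B) : ∃ b ∈ B, b ∉ A := by
  by_contra hcon
  push Not at hcon
  rw [Finset.Subset.antisymm hAB hcon] at hd
  exact lt_irrefl _ hd

/-- A cover of `A` is generated by any of its elements outside of `A`. -/
theorem span_cover {A C : Finset W} (hA : P.Cl A) (hC : P.Cl C) (hAC : A ⊆ C)
    (hd : dm C = dm A + 1) {c : W} (hc : c ∈ C) (hcA : c ∉ A) :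
    Submodule.span ℝ (insert c (A : Set W)) = Submodule.span ℝ (C : Set W) := by
  classical
  have h1 : Submodule.span ℝ (insert c (A : Set W)) ≤ Submodule.span ℝ (C : Set W) := by
    apply Submodule.span_mono
    intro x hx
    rcases hx with rfl | hx
    · exact hc
    · exact hAC hx
  have h2 : Submodule.span ℝ (A : Set W) < Submodule.span ℝ (insert c (A : Set W)) := by
    apply lt_of_le_of_ne
    · exact Submodule.span_mono (Set.subset_insert _ _)
    · intro h
      apply hcA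
      apply mem_of_mem_span hA (hC.sub hc)
      rw [h]
      exact Submodule.subset_span (Set.mem_insert _ _)
  have h3 := Submodule.finrank_lt_finrank_of_lt h2
  apply Submodule.eq_of_le_of_finrank_le h1
  change dm C ≤ _
  rw [hd]
  exact h3

theorem cover_sub {A C D : Finset W} (hA : P.Cl A) (hC : P.Cl C) (hD : P.Cl D) (hAC : A ⊆ C)
    (hAD : A ⊆ D) (hd : dm C = dm A + 1) {c : W} (hc : c ∈ C) (hcA : c ∉ A) (hcD : c ∈ D) :
    C ⊆ D := by
  apply sub_of_span_le hC.sub hD
  rw [← span_cover hA hC hAC hd hc hcA]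
  apply Submodule.span_mono
  intro x hx
  rcases hx with rfl | hx
  · exact hcD
  · exact hAD hx

theorem cover_eq {A C D : Finset W} (hA : P.Cl A) (hC : P.Cl C) (hD : P.Cl D) (hAC : A ⊆ C)
    (hAD : A ⊆ D) (hd : dm C = dm A + 1) (hd' : dm D = dm A + 1) {c : W} (hc : c ∈ C)
    (hcA : c ∉ A) (hcD : c ∈ D) : C = D :=
  eq_of_dm_le hC hD (cover_sub hA hC hD hAC hAD hd hc hcA hcD) (by rw [hd, hd'])

/-- L4: the diamond property. -/
theorem diamond {A B : Finset W} (hA : P.Cl A) (hB : P.Cl B) (hAB : A ⊆ B)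
    (hd : dm B = dm A + 2) :
    ∃ C1 C2, C1 ≠ C2 ∧ (P.Cl C1 ∧ A ⊆ C1 ∧ C1 ⊆ B ∧ dm C1 = dm A + 1) ∧
      (P.Cl C2 ∧ A ⊆ C2 ∧ C2 ⊆ B ∧ dm C2 = dm A + 1) ∧
      ∀ C, P.Cl C → A ⊆ C → C ⊆ B → dm C = dm A + 1 → C = C1 ∨ C = C2 := by
  classical
  have hne : A ≠ B := by rintro rfl; omega
  obtain ⟨C1, h1, hAC1, hC1B, hd1⟩ := exists_cover hA hB hAB hne
  obtain ⟨c1, hc1, hc1A⟩ := exists_not_mem hA h1 hAC1 (by omega)
  obtain ⟨b, hb, hbC1⟩ := exists_not_mem h1 hB hC1B (by omega)
  obtain ⟨g, hg, hgb⟩ := exists_pos h1 (hB.sub hb) hbC1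
  obtain ⟨N, hN0, hN⟩ := exists_large {b} (fun b => inner ℝ (-(P.gs A)) b)
    (fun b => inner ℝ g b) (by
      intro v hv
      rw [Finset.mem_singleton] at hv
      rw [hv]
      left; exact hgb)
  set y : W := -(P.gs A) + N • g with hy
  have hyb : 0 < inner ℝ y b := by
    rw [hy, inner_add_left, real_inner_smul_left]
    exact (hN b (Finset.mem_singleton_self _)).2 hgb
  have hyA : ∀ a ∈ A, inner ℝ y a = 0 := by
    intro a ha
    rw [hy, inner_add_left, real_inner_smul_left, inner_neg_left, gs_zero ha,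
      (mem_perp.1 hg).2 a (hAC1 ha)]
    simp
  have hyC1 : ∀ c ∈ C1, inner ℝ y c ≤ 0 := by
    intro c hc
    rw [hy, inner_add_left, real_inner_smul_left, inner_neg_left, (mem_perp.1 hg).2 c hc]
    have := gs_nonneg (P := P) A (h1.sub hc)
    linarith
  obtain ⟨C2, h2, hAC2, hC2B, hd2, c2, hc2, hc2pos⟩ := cover_up hA hB hAB hyA ⟨b, hb, hyb⟩
  have hc2A : c2 ∉ A := by
    intro h
    rw [hyA c2 h] at hc2pos
    exact lt_irrefl _ hc2pos
  have hne12 : C1 ≠ C2 := by
    rintro rfl
    linarith [hyC1 c2 hc2]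
  have hc2C1 : c2 ∉ C1 := fun h => by linarith [hyC1 c2 h]
  refine ⟨C1, C2, hne12, ⟨h1, hAC1, hC1B, hd1⟩, ⟨h2, hAC2, hC2B, hd2⟩, ?_⟩
  intro C3 h3 hAC3 hC3B hd3
  by_contra hcon
  push Not at hcon
  obtain ⟨hne31, hne32⟩ := hcon
  obtain ⟨c3, hc3, hc3A⟩ := exists_not_mem hA h3 hAC3 (by omega)
  -- facts of non membership
  have n31 : c3 ∉ C1 := fun h => hne31 (cover_eq hA h3 h1 hAC3 hAC1 hd3 hd1 hc3 hc3A h)
  have n32 : c3 ∉ C2 := fun h => hne32 (cover_eq hA h3 h2 hAC3 hAC2 hd3 hd2 hc3 hc3A h)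
  have n13 : c1 ∉ C3 := fun h => hne31 (cover_eq hA h1 h3 hAC1 hAC3 hd1 hd3 hc1 hc1A h).symm
  -- span B = span A + c1 + c2
  have hspan : Submodule.span ℝ (B : Set W) ≤
      Submodule.span ℝ (insert c2 (insert c1 (A : Set W))) := by
    have e1 : Submodule.span ℝ (A : Set W) < Submodule.span ℝ (insert c1 (A : Set W)) := by
      apply lt_of_le_of_ne
      · exact Submodule.span_mono (Set.subset_insert _ _)
      · intro h
        apply hc1A
        apply mem_of_mem_span hA (h1.sub hc1)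
        rw [h]
        exact Submodule.subset_span (Set.mem_insert _ _)
    have e2 : Submodule.span ℝ (insert c1 (A : Set W)) <
        Submodule.span ℝ (insert c2 (insert c1 (A : Set W))) := by
      apply lt_of_le_of_ne
      · exact Submodule.span_mono (Set.subset_insert _ _)
      · intro h
        apply hc2C1
        apply mem_of_mem_span h1 (h2.sub hc2)
        have : c2 ∈ Submodule.span ℝ (insert c1 (A : Set W)) := by
          rw [h]
          exact Submodule.subset_span (Set.mem_insert _ _)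
        refine Submodule.span_mono ?_ this
        intro x hx
        rcases hx with rfl | hx
        · exact hc1
        · exact hAC1 hx
    have e3 := Submodule.finrank_lt_finrank_of_lt e1
    have e4 := Submodule.finrank_lt_finrank_of_lt e2
    have e5 : Submodule.span ℝ (insert c2 (insert c1 (A : Set W))) ≤
        Submodule.span ℝ (B : Set W) := by
      apply Submodule.span_mono
      intro x hx
      rcases hx with rfl | rfl | hx
      · exact hC2B hc2
      · exact hC1B hc1
      · exact hAB hx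
    have e6 := Submodule.eq_of_le_of_finrank_le e5 (by
      change dm B ≤ _
      have : dm A = Module.finrank ℝ (Submodule.span ℝ (A : Set W)) := rfl
      omega)
    rw [e6]
  have hc3s : c3 ∈ Submodule.span ℝ (insert c2 (insert c1 (A : Set W))) :=
    hspan (Submodule.subset_span (hC3B hc3))
  rw [Submodule.mem_span_insert] at hc3s
  obtain ⟨β, z, hz, hc3e⟩ := hc3s
  rw [Submodule.mem_span_insert] at hz
  obtain ⟨α, a, ha, rfl⟩ := hz
  -- evaluation on functionals vanishing on A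
  have hev : ∀ g ∈ perp P.G A, inner ℝ g c3 = α * inner ℝ g c1 + β * inner ℝ g c2 := by
    intro g hg
    rw [hc3e, inner_add_right, inner_add_right, real_inner_smul_right, real_inner_smul_right,
      perp_span hg ha]
    ring
  obtain ⟨g1, hg1, hg1c3⟩ := exists_pos h1 (h3.sub hc3) n31
  obtain ⟨g2, hg2, hg2c3⟩ := exists_pos h2 (h3.sub hc3) n32
  obtain ⟨g3, hg3, hg3c1⟩ := exists_pos h3 (h1.sub hc1) n13
  -- g1 : vanishes on C1, positive on c3
  have E1 := hev g1 (perp_anti hAC1 hg1)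
  rw [(mem_perp.1 hg1).2 c1 hc1, mul_zero, zero_add] at E1
  have E2 := hev g2 (perp_anti hAC2 hg2)
  rw [(mem_perp.1 hg2).2 c2 hc2, mul_zero, add_zero] at E2
  have E3 := hev g3 (perp_anti hAC3 hg3)
  rw [(mem_perp.1 hg3).2 c3 hc3] at E3
  have n1 := P.nn (h2.sub hc2) (perp_sub _ _ hg1)
  have n2 := P.nn (h1.sub hc1) (perp_sub _ _ hg2)
  have n3 := P.nn (h2.sub hc2) (perp_sub _ _ hg3)
  have hβ : 0 < β := by
    by_contra h
    push Not at h
    have := mul_nonneg (neg_nonneg.2 h) n1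
    linarith
  have hα : 0 < α := by
    by_contra h
    push Not at h
    have := mul_nonneg (neg_nonneg.2 h) n2
    linarith
  have := mul_pos hα hg3c1
  have := mul_nonneg hβ.le n3
  linarith

end CP
end Pool.Agent.Helper715
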