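import Pool.Agent.Helper715.CP2

set_option autoImplicit false
set_option linter.unusedSectionVars false
set_option linter.unusedVariables false

namespace Pool.Agent.Helper715

open Finset

theorem rtg_mono {α : Type*} {r p : α → α → Prop} {a b : α} (h : ∀ a b, r a b → p a b)
    (hab : Relation.ReflTransGen r a b) : Relation.ReflTransGen p a b := by
  induction hab with
  | refl => exact Relation.ReflTransGen.refl
  | tail _ h1 ih => exact ih.tail (h _ _ h1)

theorem rtg_symm {α : Type*} {r : α → α → Prop} {a b : α} (h : ∀ a b, r a b → r b a)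
    (hab : Relation.ReflTransGen r a b) : Relation.ReflTransGen r b a := by
  induction hab with
  | refl => exact Relation.ReflTransGen.refl
  | tail _ h1 ih => exact ih.head (h _ _ h1)

variable {W : Type*} [NormedAddCommGroup W] [InnerProductSpace ℝ W] [FiniteDimensional ℝ W]

namespace CP

variable (P : CP W)

/-- `X` covers `A` inside of `B` -/
def Cov (A B X : Finset W) : Prop := P.Cl X ∧ A ⊆ X ∧ X ⊆ B ∧ dm X = dm A + 1

/-- two covers of `A` inside of `B` that lie in a common closed set two dimensions above `A` -/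
def Adj (A B X Y : Finset W) : Prop := P.Cov A B X ∧ P.Cov A B Y ∧
  ∃ D, P.Cl D ∧ X ⊆ D ∧ Y ⊆ D ∧ D ⊆ B ∧ dm D = dm A + 2

variable {P}

theorem Cov.cl {A B X : Finset W} (h : P.Cov A B X) : P.Cl X := h.1
theorem Cov.le {A B X : Finset W} (h : P.Cov A B X) : A ⊆ X := h.2.1
theorem Cov.ge {A B X : Finset W} (h : P.Cov A B X) : X ⊆ B := h.2.2.1
theorem Cov.dim {A B X : Finset W} (h : P.Cov A B X) : dm X = dm A + 1 := h.2.2.2

theorem Adj.symm {A B X Y : Finset W} (h : P.Adj A B X Y) : P.Adj A B Y X := by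
  obtain ⟨h1, h2, D, hD, h3, h4, h5⟩ := h
  exact ⟨h2, h1, D, hD, h4, h3, h5⟩

theorem Cov.mono {A B B' X : Finset W} (h : P.Cov A B X) (hB : B ⊆ B') : P.Cov A B' X :=
  ⟨h.1, h.2.1, h.2.2.1.trans hB, h.2.2.2⟩

theorem Adj.mono {A B B' X Y : Finset W} (h : P.Adj A B X Y) (hB : B ⊆ B') : P.Adj A B' X Y := by
  obtain ⟨h1, h2, D, hD, h3, h4, h5, h6⟩ := h
  exact ⟨h1.mono hB, h2.mono hB, D, hD, h3, h4, h5.trans hB, h6⟩

theorem Cov.exists_nm {A B X : Finset W} (hA : P.Cl A) (h : P.Cov A B X) : ∃ x ∈ X, x ∉ A :=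
  exists_not_mem hA h.cl h.le (by rw [h.dim]; omega)

theorem up {A B X : Finset W} (hA : P.Cl A) (hB : P.Cl B) (hX : P.Cov A B X) {z : W}
    (hz : ∀ x ∈ X, inner ℝ z x = 0) (hpos : ∃ b ∈ B, 0 < inner ℝ z b) :
    ∃ Y, P.Adj A B X Y ∧ ∃ y ∈ Y, 0 < inner ℝ z y := by
  obtain ⟨D, hD, hXD, hDB, hdD, hposD⟩ := cover_up hX.cl hB hX.ge hz hpos
  obtain ⟨Y, hY, hAY, hYD, hdY, hposY⟩ := cover_up hA hD (hX.le.trans hXD)
    (fun a ha => hz a (hX.le ha)) hposD
  exact ⟨Y, ⟨hX, ⟨hY, hAY, hYD.trans hDB, hdY⟩, D, hD, hXD, hYD, hDB, by rw [hdD, hX.dim]⟩, hposY⟩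

theorem exists_ratio {A B X : Finset W} (hA : P.Cl A) (hX : P.Cov A B X) {y : W}
    (hy : ∀ a ∈ A, inner ℝ y a = 0) : ∃ c : ℝ, ∀ x ∈ X, inner ℝ y x = c * inner ℝ (P.gs A) x := by
  obtain ⟨x0, hx0, hx0A⟩ := hX.exists_nm hA
  have hpos := gs_pos hA (hX.cl.sub hx0) hx0A
  refine ⟨inner ℝ y x0 / inner ℝ (P.gs A) x0, fun x hx => ?_⟩
  set c := inner ℝ y x0 / inner ℝ (P.gs A) x0 with hc
  have h1 : x ∈ Submodule.span ℝ (insert x0 (A : Set W)) := by
    rw [span_cover hA hX.cl hX.le hX.dim hx0 hx0A]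
    exact Submodule.subset_span hx
  have h2 : inner ℝ (y - c • P.gs A) x = 0 := by
    refine Submodule.span_induction (p := fun x _ => inner ℝ (y - c • P.gs A) x = 0) ?_ ?_ ?_ ?_ h1
    · rintro w (rfl | hw)
      · rw [inner_sub_left, real_inner_smul_left, hc, div_mul_cancel₀ _ hpos.ne', sub_self]
      · rw [inner_sub_left, real_inner_smul_left, hy w hw, gs_zero hw]; simp
    · simp
    · intro a b _ _ ha hb; rw [inner_add_right, ha, hb, add_zero]
    · intro c a _ ha; rw [real_inner_smul_right, ha, mul_zero]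
  rw [inner_sub_left, real_inner_smul_left] at h2
  linarith

theorem exists_maxr {A B : Finset W} (hA : P.Cl A) (hB : P.Cl B) (hAB : A ⊆ B) (hne : dm A < dm B)
    {y : W} (hy : ∀ a ∈ A, inner ℝ y a = 0) :
    ∃ M : ℝ, (∃ b ∈ B, b ∉ A ∧ inner ℝ y b = M * inner ℝ (P.gs A) b) ∧
      ∀ b ∈ B, inner ℝ y b ≤ M * inner ℝ (P.gs A) b := by
  classical
  obtain ⟨b, hb, hbA⟩ := exists_not_mem hA hB hAB hne
  obtain ⟨m, hm, hmax⟩ := (B.filter (fun b => b ∉ A)).exists_max_image
    (fun b => inner ℝ y b / inner ℝ (P.gs A) b) ⟨b, by simp [hb, hbA]⟩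
  rw [Finset.mem_filter] at hm
  refine ⟨inner ℝ y m / inner ℝ (P.gs A) m, ⟨m, hm.1, hm.2, ?_⟩, fun c hc => ?_⟩
  · rw [div_mul_cancel₀ _ (gs_pos hA (hB.sub hm.1) hm.2).ne']
  · by_cases hcA : c ∈ A
    · rw [hy c hcA, gs_zero hcA, mul_zero]
    · have h1 := hmax c (by rw [Finset.mem_filter]; exact ⟨hc, hcA⟩)
      rwa [div_le_iff₀ (gs_pos hA (hB.sub hc) hcA)] at h1

theorem reach {A B : Finset W} (hA : P.Cl A) (hB : P.Cl B) {y : W}
    (hy : ∀ a ∈ A, inner ℝ y a = 0) {M : ℝ}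
    (hM0 : ∃ b ∈ B, b ∉ A ∧ inner ℝ y b = M * inner ℝ (P.gs A) b)
    (hM : ∀ b ∈ B, inner ℝ y b ≤ M * inner ℝ (P.gs A) b) {X : Finset W} (hX : P.Cov A B X) {c : ℝ}
    (hc : ∀ x ∈ X, inner ℝ y x = c * inner ℝ (P.gs A) x) :
    ∃ X', P.Cov A B X' ∧ (∀ x ∈ X', inner ℝ y x = M * inner ℝ (P.gs A) x) ∧
      Relation.ReflTransGen (fun Z Z' => P.Adj A B Z Z' ∧
        (∀ z ∈ Z, c * inner ℝ (P.gs A) z ≤ inner ℝ y z) ∧
        (∀ z ∈ Z', c * inner ℝ (P.gs A) z ≤ inner ℝ y z)) X X' := by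
  classical
  induction hn : (B.filter (fun b => c * inner ℝ (P.gs A) b < inner ℝ y b)).card
    using Nat.strong_induction_on generalizing X c with
  | _ n ih =>
    by_cases hex : ∃ b ∈ B, c * inner ℝ (P.gs A) b < inner ℝ y b
    · obtain ⟨b, hb, hlt⟩ := hex
      obtain ⟨Y, hXY, w, hw, hwpos⟩ := up hA hB hX (z := y - c • P.gs A) (by
        intro x hx
        rw [inner_sub_left, real_inner_smul_left, hc x hx, sub_self])
        ⟨b, hb, by rw [inner_sub_left, real_inner_smul_left]; linarith⟩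
      rw [inner_sub_left, real_inner_smul_left] at hwpos
      have hY := hXY.2.1
      obtain ⟨c', hc'⟩ := exists_ratio hA hY hy
      have hwA : w ∉ A := by
        intro h
        rw [hy w h, gs_zero h] at hwpos
        simp at hwpos
      have hwη := gs_pos hA (hY.cl.sub hw) hwA
      have hcc' : c < c' := by
        rw [hc' w hw] at hwpos
        by_contra hcon
        push Not at hcon
        nlinarith
      have hmono : ∀ v ∈ P.V, c * inner ℝ (P.gs A) v ≤ c' * inner ℝ (P.gs A) v := fun v hv =>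
        mul_le_mul_of_nonneg_right hcc'.le (gs_nonneg A hv)
      have hcard : (B.filter (fun b => c' * inner ℝ (P.gs A) b < inner ℝ y b)).card < n := by
        rw [← hn]
        apply Finset.card_lt_card
        rw [Finset.ssubset_iff_of_subset]
        · refine ⟨w, ?_, ?_⟩
          · rw [Finset.mem_filter]; exact ⟨hY.ge hw, by linarith⟩
          · rw [Finset.mem_filter, hc' w hw]; simp
        · intro v hv
          rw [Finset.mem_filter] at hv ⊢
          exact ⟨hv.1, lt_of_le_of_lt (hmono v (hB.sub hv.1)) hv.2⟩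
      obtain ⟨X', hX', hX'M, hpath⟩ := ih _ hcard hY hc' rfl
      refine ⟨X', hX', hX'M, ?_⟩
      refine Relation.ReflTransGen.head ⟨hXY, fun z hz => (hc z hz).ge, fun z hz => ?_⟩ ?_
      · rw [hc' z hz]
        exact hmono z (hY.cl.sub hz)
      · refine rtg_mono ?_ hpath
        rintro Z Z' ⟨h1, h2, h3⟩
        exact ⟨h1, fun z hz => (hmono z (h1.1.cl.sub hz)).trans (h2 z hz),
          fun z hz => (hmono z (h1.2.1.cl.sub hz)).trans (h3 z hz)⟩
    · push Not at hex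
      refine ⟨X, hX, ?_, Relation.ReflTransGen.refl⟩
      obtain ⟨b0, hb0, hb0A, hb0e⟩ := hM0
      obtain ⟨x0, hx0, hx0A⟩ := hX.exists_nm hA
      have h1 := hex b0 hb0
      rw [hb0e] at h1
      have h2 := le_of_mul_le_mul_right h1 (gs_pos hA (hB.sub hb0) hb0A)
      have h3 := hM x0 (hX.ge hx0)
      rw [hc x0 hx0] at h3
      have h4 := le_of_mul_le_mul_right h3 (gs_pos hA (hX.cl.sub hx0) hx0A)
      have : c = M := le_antisymm h4 h2
      rw [← this]
      exact hc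

/-- L5, first form: the covers of `A` in `B` are connected. -/
theorem conn {A B : Finset W} (hA : P.Cl A) (hB : P.Cl B) {X Y : Finset W}
    (hX : P.Cov A B X) (hY : P.Cov A B Y) : Relation.ReflTransGen (P.Adj A B) X Y := by
  classical
  induction hn : B.card using Nat.strong_induction_on generalizing B X Y with
  | _ n ih =>
    have hAB : A ⊆ B := hX.le.trans hX.ge
    by_cases hd : dm B ≤ dm A + 1
    · have h1 := eq_of_dm_le hX.cl hB hX.ge (by rw [hX.dim]; exact hd)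
      have h2 := eq_of_dm_le hY.cl hB hY.ge (by rw [hY.dim]; exact hd)
      rw [h1, h2]
    · push Not at hd
      obtain ⟨b, hb, hbX⟩ := exists_not_mem hX.cl hB hX.ge (by rw [hX.dim]; exact hd)
      obtain ⟨g, hg, hgb⟩ := exists_pos hX.cl (hB.sub hb) hbX
      have hgX : ∀ x ∈ X, inner ℝ g x = 0 := (mem_perp.1 hg).2
      have hgA : ∀ a ∈ A, inner ℝ g a = 0 := fun a ha => hgX a (hX.le ha)
      obtain ⟨M, hM0, hM⟩ := exists_maxr hA hB hAB (by omega) hgA
      have hMpos : 0 < M := by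
        by_contra hcon
        push Not at hcon
        have h1 := hM b hb
        have h2 := gs_nonneg (P := P) A (hB.sub hb)
        have := mul_nonneg (neg_nonneg.2 hcon) h2
        linarith
      set T := B.filter (fun v => inner ℝ (M • P.gs A - g) v = 0) with hT
      have hTcl : P.Cl T := by
        refine Cl_filter hB (z := M • P.gs A - g) (fun v hv => ?_) (fun v => by
          rw [hT, Finset.mem_filter])
        rw [inner_sub_left, real_inner_smul_left]
        linarith [hM v hv]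
      have hTB : T ⊆ B := Finset.filter_subset _ _
      obtain ⟨x0, hx0, hx0A⟩ := hX.exists_nm hA
      have hcard : T.card < n := by
        rw [← hn]
        apply Finset.card_lt_card
        rw [Finset.ssubset_iff_of_subset hTB]
        refine ⟨x0, hX.ge hx0, ?_⟩
        rw [hT, Finset.mem_filter, inner_sub_left, real_inner_smul_left, hgX x0 hx0]
        rintro ⟨_, h⟩
        have := mul_pos hMpos (gs_pos hA (hX.cl.sub hx0) hx0A)
        linarith
      have key : ∀ Z, P.Cov A B Z → ∃ Z', P.Cov A T Z' ∧ Relation.ReflTransGen (P.Adj A B) Z Z' := by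
        intro Z hZ
        obtain ⟨c, hc⟩ := exists_ratio hA hZ hgA
        obtain ⟨Z', hZ', hZ'M, hpath⟩ := reach hA hB hgA hM0 hM hZ hc
        refine ⟨Z', ⟨hZ'.cl, hZ'.le, ?_, hZ'.dim⟩, rtg_mono (fun _ _ h => h.1) hpath⟩
        intro z hz
        rw [hT, Finset.mem_filter, inner_sub_left, real_inner_smul_left, hZ'M z hz, sub_self]
        exact ⟨hZ'.ge hz, rfl⟩
      obtain ⟨X', hX', hXX'⟩ := key X hX
      obtain ⟨Y', hY', hYY'⟩ := key Y hY
      have h1 := ih T.card hcard hTcl hX' hY' rfl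
      have h2 : Relation.ReflTransGen (P.Adj A B) X' Y' :=
        rtg_mono (fun _ _ h => h.mono hTB) h1
      have h3 : Relation.ReflTransGen (P.Adj A B) Y' Y :=
        rtg_symm (fun _ _ h => h.symm) hYY'
      exact (hXX'.trans h2).trans h3

/-- L5, second form: the covers of `A` in `B` on which `y` is positive are connected. -/
theorem conn_pos {A B : Finset W} (hA : P.Cl A) (hB : P.Cl B) {y : W}
    (hy : ∀ a ∈ A, inner ℝ y a = 0) {X Y : Finset W}
    (hX : P.Cov A B X) (hY : P.Cov A B Y) (hXp : ∃ x ∈ X, 0 < inner ℝ y x)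
    (hYp : ∃ x ∈ Y, 0 < inner ℝ y x) :
    Relation.ReflTransGen (fun Z Z' => P.Adj A B Z Z' ∧ (∃ x ∈ Z, 0 < inner ℝ y x) ∧
      (∃ x ∈ Z', 0 < inner ℝ y x)) X Y := by
  classical
  have hAB : A ⊆ B := hX.le.trans hX.ge
  have hlt : dm A < dm B := by
    have := dm_mono hX.ge
    rw [hX.dim] at this
    omega
  obtain ⟨M, hM0, hM⟩ := exists_maxr hA hB hAB hlt hy
  set T := B.filter (fun v => inner ℝ (M • P.gs A - y) v = 0) with hT
  have hTcl : P.Cl T := by
    refine Cl_filter hB (z := M • P.gs A - y) (fun v hv => ?_) (fun v => by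
      rw [hT, Finset.mem_filter])
    rw [inner_sub_left, real_inner_smul_left]
    linarith [hM v hv]
  have hTB : T ⊆ B := Finset.filter_subset _ _
  have hMpos : 0 < M := by
    obtain ⟨x, hx, hxp⟩ := hXp
    by_contra hcon
    push Not at hcon
    have h1 := hM x (hX.ge hx)
    have h2 := gs_nonneg (P := P) A (hX.cl.sub hx)
    have := mul_nonneg (neg_nonneg.2 hcon) h2
    linarith
  have key : ∀ Z, P.Cov A B Z → (∃ x ∈ Z, 0 < inner ℝ y x) → ∃ Z', P.Cov A T Z' ∧
      Relation.ReflTransGen (fun Z Z' => P.Adj A B Z Z' ∧ (∃ x ∈ Z, 0 < inner ℝ y x) ∧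
      (∃ x ∈ Z', 0 < inner ℝ y x)) Z Z' := by
    intro Z hZ hZp
    obtain ⟨c, hc⟩ := exists_ratio hA hZ hy
    have hcpos : 0 < c := by
      obtain ⟨x, hx, hxp⟩ := hZp
      by_contra hcon
      push Not at hcon
      have h2 := gs_nonneg (P := P) A (hZ.cl.sub hx)
      have := mul_nonneg (neg_nonneg.2 hcon) h2
      rw [hc x hx] at hxp
      linarith
    obtain ⟨Z', hZ', hZ'M, hpath⟩ := reach hA hB hy hM0 hM hZ hc
    refine ⟨Z', ⟨hZ'.cl, hZ'.le, ?_, hZ'.dim⟩, ?_⟩
    · intro z hz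
      rw [hT, Finset.mem_filter, inner_sub_left, real_inner_smul_left, hZ'M z hz, sub_self]
      exact ⟨hZ'.ge hz, rfl⟩
    · refine rtg_mono ?_ hpath
      rintro U U' ⟨h1, h2, h3⟩
      refine ⟨h1, ?_, ?_⟩
      · obtain ⟨u, hu, huA⟩ := h1.1.exists_nm hA
        have := mul_pos hcpos (gs_pos hA (h1.1.cl.sub hu) huA)
        exact ⟨u, hu, by linarith [h2 u hu]⟩
      · obtain ⟨u, hu, huA⟩ := h1.2.1.exists_nm hA
        have := mul_pos hcpos (gs_pos hA (h1.2.1.cl.sub hu) huA)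
        exact ⟨u, hu, by linarith [h3 u hu]⟩
  have posT : ∀ Z, P.Cov A T Z → ∃ x ∈ Z, 0 < inner ℝ y x := by
    intro Z hZ
    obtain ⟨u, hu, huA⟩ := hZ.exists_nm hA
    have h1 := hZ.ge hu
    rw [hT, Finset.mem_filter, inner_sub_left, real_inner_smul_left] at h1
    have := mul_pos hMpos (gs_pos hA (hZ.cl.sub hu) huA)
    exact ⟨u, hu, by linarith [h1.2]⟩
  obtain ⟨X', hX', hXX'⟩ := key X hX hXp
  obtain ⟨Y', hY', hYY'⟩ := key Y hY hYp
  have h2 : Relation.ReflTransGen (fun Z Z' => P.Adj A B Z Z' ∧ (∃ x ∈ Z, 0 < inner ℝ y x) ∧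
      (∃ x ∈ Z', 0 < inner ℝ y x)) X' Y' :=
    rtg_mono (fun U U' h => ⟨h.mono hTB, posT U h.1, posT U' h.2.1⟩)
      (conn hA hTcl hX' hY')
  have h3 : Relation.ReflTransGen (fun Z Z' => P.Adj A B Z Z' ∧ (∃ x ∈ Z, 0 < inner ℝ y x) ∧
      (∃ x ∈ Z', 0 < inner ℝ y x)) Y' Y :=
    rtg_symm (fun _ _ h => ⟨h.1.symm, h.2.2, h.2.1⟩) hYY'
  exact (hXX'.trans h2).trans h3

end CP
end Pool.Agent.Helper715
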