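import Mathlib

set_option autoImplicit false
set_option linter.unusedSectionVars false

namespace Pool.Agent.Helper715

open Finset

/-- The finitely generated cone spanned by a set. -/
noncomputable abbrev cone {W : Type*} [AddCommGroup W] [Module ℝ W] (V : Set W) : Submodule NNReal W :=
  Submodule.span NNReal V

theorem cone_smul_mem {W : Type*} [AddCommGroup W] [Module ℝ W] {R : Set W} {x : W}
    (hx : x ∈ cone R) {t : ℝ} (ht : 0 ≤ t) : t • x ∈ cone R := by
  have := Submodule.smul_mem (cone R) (Real.toNNReal t) hx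
  rwa [NNReal.smul_def, Real.coe_toNNReal t ht] at this

theorem cone_le_span {W : Type*} [AddCommGroup W] [Module ℝ W] {R : Set W} {x : W}
    (hx : x ∈ cone R) : x ∈ Submodule.span ℝ R := by
  refine Submodule.span_induction (p := fun x _ => x ∈ Submodule.span ℝ R) ?_ ?_ ?_ ?_ hx
  · intro x hx; exact Submodule.subset_span hx
  · exact Submodule.zero_mem _
  · intro a b _ _ ha hb; exact Submodule.add_mem _ ha hb
  · intro a b _ hb
    rw [NNReal.smul_def]
    exact Submodule.smul_mem _ _ hb

section inner
variable {W : Type*} [NormedAddCommGroup W] [InnerProductSpace ℝ W] [FiniteDimensional ℝ W]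

theorem cone_inner_nonneg {R : Set W} {r : W} (h : ∀ s ∈ R, 0 ≤ inner ℝ r s) {x : W}
    (hx : x ∈ cone R) : 0 ≤ inner ℝ r x := by
  refine Submodule.span_induction (p := fun x _ => 0 ≤ inner ℝ r x) ?_ ?_ ?_ ?_ hx
  · exact h
  · simp
  · intro a b _ _ ha hb
    rw [inner_add_right]
    exact add_nonneg ha hb
  · intro a b _ hb
    rw [NNReal.smul_def, real_inner_smul_right]
    exact mul_nonneg a.2 hb

/-- Weyl: a finitely generated cone is a finite intersection of half spaces. -/
theorem weyl (V : Finset W) :
    ∃ G : Finset W, ∀ x : W, x ∈ cone (V : Set W) ↔ ∀ g ∈ G, 0 ≤ inner ℝ g x := by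
  classical
  induction V using Finset.induction_on with
  | empty =>
    refine ⟨(Finset.univ.image fun i => stdOrthonormalBasis ℝ W i) ∪
      (Finset.univ.image fun i => -stdOrthonormalBasis ℝ W i), fun x => ?_⟩
    simp only [coe_empty, Submodule.span_empty, Submodule.mem_bot, mem_union, mem_image, mem_univ,
      true_and]
    constructor
    · rintro rfl g _
      simp
    · intro h
      apply InnerProductSpace.ext_inner_left_basis (𝕜 := ℝ) (stdOrthonormalBasis ℝ W).toBasis
      intro i
      have h1 := h _ (Or.inl ⟨i, rfl⟩)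
      have h2 := h _ (Or.inr ⟨i, rfl⟩)
      rw [inner_neg_left] at h2
      simp only [OrthonormalBasis.coe_toBasis, inner_zero_right]
      linarith
  | insert w V hw ih =>
    obtain ⟨G, hG⟩ := ih
    refine ⟨(G.filter fun g => 0 ≤ inner ℝ g w) ∪
      ((G ×ˢ G).filter (fun p => 0 < inner ℝ p.1 w ∧ inner ℝ p.2 w < 0)).image
        (fun p => (inner ℝ p.1 w : ℝ) • p.2 - (inner ℝ p.2 w : ℝ) • p.1), fun x => ?_⟩
    have key : x ∈ cone (↑(insert w V) : Set W) ↔
        ∃ t : ℝ, 0 ≤ t ∧ ∀ g ∈ G, 0 ≤ inner ℝ g x - t * (inner ℝ g w) := by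
      rw [Finset.coe_insert, Submodule.mem_span_insert]
      constructor
      · rintro ⟨a, z, hz, rfl⟩
        refine ⟨a, a.2, fun g hg => ?_⟩
        have := (hG z).1 hz g hg
        rw [NNReal.smul_def, inner_add_right, real_inner_smul_right]
        linarith
      · rintro ⟨t, ht, h⟩
        refine ⟨Real.toNNReal t, x - t • w, (hG _).2 fun g hg => ?_, ?_⟩
        · rw [inner_sub_right, real_inner_smul_right]
          exact h g hg
        · rw [NNReal.smul_def, Real.coe_toNNReal t ht]
          simp
    rw [key]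
    simp only [mem_union, mem_filter, mem_image, mem_product, Prod.exists]
    constructor
    · rintro ⟨t, ht, h⟩ g hg
      rcases hg with ⟨hg, hgw⟩ | ⟨a, b, ⟨⟨ha, hb⟩, haw, hbw⟩, rfl⟩
      · have := h g hg
        nlinarith [mul_nonneg ht hgw]
      · have h1 := h a ha
        have h2 := h b hb
        rw [inner_sub_left, real_inner_smul_left, real_inner_smul_left]
        nlinarith [mul_nonneg haw.le h2, mul_nonneg (neg_pos.2 hbw).le h1]
    · intro h
      set L : Finset ℝ := insert 0 ((G.filter fun g => inner ℝ g w < 0).image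
        fun g => (inner ℝ g x) / (inner ℝ g w)) with hL
      have hLne : L.Nonempty := ⟨0, by simp [hL]⟩
      refine ⟨L.max' hLne, Finset.le_max' _ _ (by simp [hL]), fun g hg => ?_⟩
      rcases lt_trichotomy (inner ℝ g w) 0 with hgw | hgw | hgw
      · have : (inner ℝ g x) / (inner ℝ g w) ≤ L.max' hLne :=
          Finset.le_max' _ _ (by
            rw [hL, Finset.mem_insert, Finset.mem_image]
            exact Or.inr ⟨g, by simp [hg, hgw], rfl⟩)
        rw [div_le_iff_of_neg hgw] at this
        linarith
      · rw [hgw, mul_zero, sub_zero]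
        exact h g (Or.inl ⟨hg, hgw.ge⟩)
      · have h0 : 0 ≤ inner ℝ g x := h g (Or.inl ⟨hg, hgw.le⟩)
        have : L.max' hLne ≤ (inner ℝ g x) / (inner ℝ g w) := by
          apply Finset.max'_le
          intro y hy
          rw [hL, Finset.mem_insert, Finset.mem_image] at hy
          rcases hy with rfl | ⟨b, hb, rfl⟩
          · positivity
          · rw [Finset.mem_filter] at hb
            have h1 := h _ (Or.inr ⟨g, b, ⟨⟨hg, hb.1⟩, hgw, hb.2⟩, rfl⟩)
            rw [inner_sub_left, real_inner_smul_left, real_inner_smul_left] at h1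
            rw [div_le_iff_of_neg hb.2, div_mul_eq_mul_div, div_le_iff₀ hgw]
            nlinarith
        rw [le_div_iff₀ hgw] at this
        linarith

theorem dual_fg (V : Finset W) :
    ∃ G : Finset W, (∀ x : W, x ∈ cone (V : Set W) ↔ ∀ g ∈ G, 0 ≤ inner ℝ g x) ∧
      (∀ y : W, y ∈ cone (G : Set W) ↔ ∀ v ∈ V, 0 ≤ inner ℝ v y) := by
  obtain ⟨G, hG⟩ := weyl V
  obtain ⟨U, hU⟩ := weyl G
  refine ⟨G, hG, fun y => ⟨fun hy => ?_, fun hy => ?_⟩⟩
  · intro v hv
    refine cone_inner_nonneg ?_ hy
    intro g hg
    rw [real_inner_comm]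
    exact (hG v).1 (Submodule.subset_span hv) g hg
  · rw [hU]
    intro u hu
    have hu' : u ∈ cone (V : Set W) := by
      rw [hG]
      intro g hg
      rw [real_inner_comm]
      exact (hU g).1 (Submodule.subset_span hg) u hu
    rw [real_inner_comm]
    refine cone_inner_nonneg ?_ hu'
    intro v hv
    rw [real_inner_comm]
    exact hy v hv

end inner
end Pool.Agent.Helper715
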