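import Pool.Agent.Helper715.Poly2

set_option autoImplicit false
set_option linter.unusedSectionVars false
set_option linter.unusedVariables false

namespace Pool.Agent.Helper715

open Finset

variable {E : Type*} [NormedAddCommGroup E] [InnerProductSpace ℝ E] [FiniteDimensional ℝ E]

/-- affine dimension of a set -/
noncomputable def adim (F : Set E) : ℕ := Module.finrank ℝ (affineSpan ℝ F).direction

/-- nonempty exposed faces -/
def AF (S : Finset E) : Type _ :=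
  {F : Set E // IsExposed ℝ (convexHull ℝ (S : Set E)) F ∧ F.Nonempty}

/-- edges and 2-faces -/
def EF (S : Finset E) : Type _ :=
  {F : Set E // IsExposed ℝ (convexHull ℝ (S : Set E)) F ∧ F.Nonempty ∧
    (Module.finrank ℝ (affineSpan ℝ F).direction = 1 ∨
      Module.finrank ℝ (affineSpan ℝ F).direction = 2)}

instance (S : Finset E) : PartialOrder (AF S) := inferInstanceAs (PartialOrder (Subtype _))
instance (S : Finset E) : PartialOrder (EF S) := inferInstanceAs (PartialOrder (Subtype _))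

/-- faces of a fixed dimension -/
def KF (S : Finset E) (k : ℕ) : Type _ :=
  {F : Set E // IsExposed ℝ (convexHull ℝ (S : Set E)) F ∧ F.Nonempty ∧
    Module.finrank ℝ (affineSpan ℝ F).direction = k}

section one

variable {P : CP (WithLp 2 (E × ℝ))} {S : Finset E}
variable (hP : (P.V : Set (WithLp 2 (E × ℝ))) = hm '' (S : Set E))

/-- faces of dimension `k` are the closed sets of dimension `k + 1` -/
noncomputable def levEquiv (k : ℕ) : KF S k ≃ P.Lev (k + 1) where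
  toFun F := ⟨toA P F.1, toA_cl hP F.2.1 F.2.2.1, by rw [dm_toA hP F.2.1 F.2.2.1, F.2.2.2]⟩
  invFun a := ⟨toF P S a.1, toF_exposed hP _, toF_nonempty hP a.cl (by rw [a.dim]; omega), by
    have h := dm_toA hP (toF_exposed hP a.1) (toF_nonempty hP a.cl (by rw [a.dim]; omega))
    rw [toA_toF hP a.cl, a.dim] at h
    omega⟩
  left_inv F := Subtype.ext (toF_toA hP F.2.1 F.2.2.1)
  right_inv a := Subtype.ext (toA_toF hP a.cl)

include hP

theorem dim_lt {F G : Set E} (hF : IsExposed ℝ (convexHull ℝ (S : Set E)) F) (hne : F.Nonempty)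
    (hG : IsExposed ℝ (convexHull ℝ (S : Set E)) G) (hne' : G.Nonempty) (h : F ⊆ G) (hn : F ≠ G) :
    Module.finrank ℝ (affineSpan ℝ F).direction < Module.finrank ℝ (affineSpan ℝ G).direction := by
  have h1 := CP.dm_lt (toA_cl hP hF hne) (toA_cl hP hG hne') (toA_mono hP h) (by
    intro heq
    apply hn
    rw [← toF_toA hP hF hne, ← toF_toA hP hG hne', heq])
  rw [dm_toA hP hF hne, dm_toA hP hG hne'] at h1
  omega

theorem above (hn : 4 ≤ Module.finrank ℝ E) (F : KF S 1) : ∃ G : KF S 2, F.1 ⊆ G.1 := by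
  have hn' := finrank_hm (E := E)
  have hd : dm (toA P F.1) = 2 := ((levEquiv hP 1) F).dim
  obtain ⟨C, hC, h1, h2, h3⟩ := CP.exists_cover (toA_cl hP F.2.1 F.2.2.1) CP.top_cl
    (toA_cl hP F.2.1 F.2.2.1).sub (by
      intro h
      rw [h, CP.dm_top] at hd
      omega)
  rw [hd] at h3
  refine ⟨(levEquiv hP 2).symm ⟨C, hC, h3⟩, ?_⟩
  change F.1 ⊆ toF P S C
  rw [← toF_toA hP F.2.1 F.2.2.1]
  exact toF_mono hP h1

theorem below (G : KF S 2) : ∃ F : KF S 1, F.1 ⊆ G.1 := by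
  have hd : dm (toA P G.1) = 3 := ((levEquiv hP 2) G).dim
  have hG := toA_cl hP G.2.1 G.2.2.1
  obtain ⟨C, hC, h1, h2, h3⟩ := CP.exists_cover CP.bot_cl hG (CP.bot_le hG) (by
      intro h
      rw [← h, CP.dm_bot] at hd
      omega)
  rw [CP.dm_bot] at h3
  obtain ⟨D, hD, h4, h5, h6⟩ := CP.exists_cover hC hG h2 (by
      intro h
      rw [← h] at hd
      omega)
  refine ⟨(levEquiv hP 1).symm ⟨D, hD, by omega⟩, ?_⟩
  change toF P S D ⊆ G.1
  rw [← toF_toA hP G.2.1 G.2.2.1]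
  exact toF_mono hP h5

end one

section two

variable {P P' : CP (WithLp 2 (E × ℝ))} {S T : Finset E}
variable (hP : (P.V : Set (WithLp 2 (E × ℝ))) = hm '' (S : Set E))
variable (hP' : (P'.V : Set (WithLp 2 (E × ℝ))) = hm '' (T : Set E))

/-- an edge as an edge or 2-face -/
def KF.e {S : Finset E} (F : KF S 1) : EF S := ⟨F.1, F.2.1, F.2.2.1, Or.inl F.2.2.2⟩
/-- a 2-face as an edge or 2-face -/
def KF.t {S : Finset E} (F : KF S 2) : EF S := ⟨F.1, F.2.1, F.2.2.1, Or.inr F.2.2.2⟩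

include hP hP'

theorem lt_dim (φ : EF S ≃o EF T) (F : KF S 1) (G : KF S 2) (h : F.1 ⊆ G.1) :
    Module.finrank ℝ (affineSpan ℝ (φ F.e).1).direction <
      Module.finrank ℝ (affineSpan ℝ (φ G.t).1).direction := by
  have h1 : (φ F.e) ≤ (φ G.t) := φ.monotone h
  apply dim_lt hP' (φ F.e).2.1 (φ F.e).2.2.1 (φ G.t).2.1 (φ G.t).2.2.1 h1
  intro heq
  have h2 : φ F.e = φ G.t := Subtype.ext heq
  have h3 := congrArg Subtype.val (φ.injective h2)
  change F.1 = G.1 at h3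
  have h4 := F.2.2.2
  rw [h3, G.2.2.2] at h4
  omega

theorem dim_e (hn : 4 ≤ Module.finrank ℝ E) (φ : EF S ≃o EF T) (F : KF S 1) :
    Module.finrank ℝ (affineSpan ℝ (φ F.e).1).direction = 1 := by
  obtain ⟨G, hG⟩ := above hP hn F
  have h := lt_dim hP hP' φ F G hG
  rcases (φ F.e).2.2.2 with h1 | h1
  · exact h1
  · rcases (φ G.t).2.2.2 with h2 | h2 <;> omega

theorem dim_t (φ : EF S ≃o EF T) (G : KF S 2) :
    Module.finrank ℝ (affineSpan ℝ (φ G.t).1).direction = 2 := by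
  obtain ⟨F, hF⟩ := below hP G
  have h := lt_dim hP hP' φ F G hF
  rcases (φ G.t).2.2.2 with h1 | h1
  · rcases (φ F.e).2.2.2 with h2 | h2 <;> omega
  · exact h1

omit hP hP' in
/-- restriction of `φ` to edges -/
def phiE (φ : EF S ≃o EF T)
    (h1 : ∀ F : KF S 1, Module.finrank ℝ (affineSpan ℝ (φ F.e).1).direction = 1)
    (h2 : ∀ F : KF T 1, Module.finrank ℝ (affineSpan ℝ (φ.symm F.e).1).direction = 1) :
    KF S 1 ≃ KF T 1 where
  toFun F := ⟨(φ F.e).1, (φ F.e).2.1, (φ F.e).2.2.1, h1 F⟩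
  invFun F := ⟨(φ.symm F.e).1, (φ.symm F.e).2.1, (φ.symm F.e).2.2.1, h2 F⟩
  left_inv F := Subtype.ext (by
    change (φ.symm (φ F.e)).1 = F.1
    rw [φ.symm_apply_apply]; rfl)
  right_inv F := Subtype.ext (by
    change (φ (φ.symm F.e)).1 = F.1
    rw [φ.apply_symm_apply]; rfl)

omit hP hP' in
/-- restriction of `φ` to 2-faces -/
def phiT (φ : EF S ≃o EF T)
    (h1 : ∀ F : KF S 2, Module.finrank ℝ (affineSpan ℝ (φ F.t).1).direction = 2)
    (h2 : ∀ F : KF T 2, Module.finrank ℝ (affineSpan ℝ (φ.symm F.t).1).direction = 2) :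
    KF S 2 ≃ KF T 2 where
  toFun F := ⟨(φ F.t).1, (φ F.t).2.1, (φ F.t).2.2.1, h1 F⟩
  invFun F := ⟨(φ.symm F.t).1, (φ.symm F.t).2.1, (φ.symm F.t).2.2.1, h2 F⟩
  left_inv F := Subtype.ext (by
    change (φ.symm (φ F.t)).1 = F.1
    rw [φ.symm_apply_apply]; rfl)
  right_inv F := Subtype.ext (by
    change (φ (φ.symm F.t)).1 = F.1
    rw [φ.apply_symm_apply]; rfl)

omit hP hP' in
theorem psi_eq (ψ : ∀ k, P.Lev k ≃ P'.Lev k) {A : Finset (WithLp 2 (E × ℝ))} (hA : P.Cl A)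
    (k : ℕ) (a : P.Lev k) (h : A = a.1) : (ψ (dm A) ⟨A, hA, rfl⟩).1 = (ψ k a).1 := by
  obtain ⟨B, hB, hk⟩ := a
  subst hk
  change A = B at h
  subst h
  rfl

theorem assemble (φ : EF S ≃o EF T)
    (h1 : ∀ F : KF S 1, Module.finrank ℝ (affineSpan ℝ (φ F.e).1).direction = 1)
    (h2 : ∀ F : KF T 1, Module.finrank ℝ (affineSpan ℝ (φ.symm F.e).1).direction = 1)
    (h3 : ∀ F : KF S 2, Module.finrank ℝ (affineSpan ℝ (φ F.t).1).direction = 2)
    (h4 : ∀ F : KF T 2, Module.finrank ℝ (affineSpan ℝ (φ.symm F.t).1).direction = 2)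
    (ψ : ∀ k, P.Lev k ≃ P'.Lev k)
    (hψ2 : ψ 2 = ((levEquiv hP 1).symm.trans (phiE φ h1 h2)).trans (levEquiv hP' 1))
    (hψ3 : ψ 3 = ((levEquiv hP 2).symm.trans (phiT φ h3 h4)).trans (levEquiv hP' 2))
    (hψ : ∀ (k l : ℕ) (a : P.Lev k) (b : P.Lev l), P.inc k l a b ↔ P'.inc k l (ψ k a) (ψ l b)) :
    ∃ Ψ : AF S ≃o AF T, ∀ F : EF S, (Ψ ⟨F.1, F.2.1, F.2.2.1⟩).1 = (φ F).1 := by
  -- the image of a face
  let a : ∀ F : AF S, P.Lev (dm (toA P F.1)) := fun F => ⟨toA P F.1, toA_cl hP F.2.1 F.2.2, rfl⟩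
  have hd : ∀ F : AF S, 1 ≤ dm (ψ _ (a F)).1 := by
    intro F
    rw [(ψ _ (a F)).dim, dm_toA hP F.2.1 F.2.2]
    omega
  let f : AF S → AF T := fun F =>
    ⟨toF P' T (ψ _ (a F)).1, toF_exposed hP' _, toF_nonempty hP' (ψ _ (a F)).cl (hd F)⟩
  have hle : ∀ F G : AF S, f F ≤ f G ↔ F ≤ G := by
    intro F G
    change (f F).1 ⊆ (f G).1 ↔ F.1 ⊆ G.1
    rw [← sub_iff hP' (f F).2.1 (f F).2.2 (f G).2.1 (f G).2.2]
    change toA P' (toF P' T (ψ _ (a F)).1) ⊆ toA P' (toF P' T (ψ _ (a G)).1) ↔ F.1 ⊆ G.1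
    rw [toA_toF hP' (ψ _ (a F)).cl, toA_toF hP' (ψ _ (a G)).cl]
    rw [← sub_iff hP F.2.1 F.2.2 G.2.1 G.2.2]
    exact (hψ _ _ (a F) (a G)).symm
  have hsurj : Function.Surjective f := by
    intro G
    let b : P'.Lev (dm (toA P' G.1)) := ⟨toA P' G.1, toA_cl hP' G.2.1 G.2.2, rfl⟩
    let c : P.Lev (dm (toA P' G.1)) := (ψ _).symm b
    have hdc : 1 ≤ dm c.1 := by
      rw [c.dim, dm_toA hP' G.2.1 G.2.2]
      omega
    refine ⟨⟨toF P S c.1, toF_exposed hP _, toF_nonempty hP c.cl hdc⟩, ?_⟩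
    apply Subtype.ext
    have hcl : P.Cl (toA P (toF P S c.1)) := by
      rw [toA_toF hP c.cl]; exact c.cl
    change toF P' T (ψ (dm (toA P (toF P S c.1))) ⟨toA P (toF P S c.1), hcl, rfl⟩).1 = G.1
    rw [psi_eq ψ hcl _ c (toA_toF hP c.cl)]
    change toF P' T (ψ _ ((ψ _).symm b)).1 = G.1
    rw [(ψ _).apply_symm_apply]
    exact toF_toA hP' G.2.1 G.2.2
  refine ⟨RelIso.ofSurjective (OrderEmbedding.ofMapLEIff f hle) hsurj, ?_⟩
  intro F
  have hcl : P.Cl (toA P F.1) := toA_cl hP F.2.1 F.2.2.1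
  change toF P' T (ψ (dm (toA P F.1)) ⟨toA P F.1, hcl, rfl⟩).1 = (φ F).1
  rcases F.2.2.2 with hF | hF
  · let F' : KF S 1 := ⟨F.1, F.2.1, F.2.2.1, hF⟩
    rw [psi_eq ψ hcl 2 (levEquiv hP 1 F') rfl, hψ2]
    simp only [Equiv.trans_apply, Equiv.symm_apply_apply]
    change toF P' T (toA P' (φ F).1) = (φ F).1
    exact toF_toA hP' (φ F).2.1 (φ F).2.2.1
  · let F' : KF S 2 := ⟨F.1, F.2.1, F.2.2.1, hF⟩
    rw [psi_eq ψ hcl 3 (levEquiv hP 2 F') rfl, hψ3]
    simp only [Equiv.trans_apply, Equiv.symm_apply_apply]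
    change toF P' T (toA P' (φ F).1) = (φ F).1
    exact toF_toA hP' (φ F).2.1 (φ F).2.2.1

end two

theorem final (hn : Module.finrank ℝ E = 4) (S T : Finset E)
    (hS : affineSpan ℝ (convexHull ℝ (S : Set E)) = ⊤)
    (hT : affineSpan ℝ (convexHull ℝ (T : Set E)) = ⊤) (φ : EF S ≃o EF T) :
    ∃ Ψ : AF S ≃o AF T, ∀ F : EF S, (Ψ ⟨F.1, F.2.1, F.2.2.1⟩).1 = (φ F).1 := by
  rw [affineSpan_convexHull] at hS hT
  obtain ⟨P, hP⟩ := exists_CP S hS
  obtain ⟨P', hP'⟩ := exists_CP T hT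
  have hf : Module.finrank ℝ (WithLp 2 (E × ℝ)) = 5 := by rw [finrank_hm, hn]
  have h1 := fun F => dim_e hP hP' hn.ge φ F
  have h2 := fun F => dim_e hP' hP hn.ge φ.symm F
  have h3 := fun F => dim_t hP hP' φ F
  have h4 := fun F => dim_t hP' hP φ.symm F
  obtain ⟨ψ, hψ2, hψ3, hψ⟩ := CP.extend hf hf
    (((levEquiv hP 1).symm.trans (phiE φ h1 h2)).trans (levEquiv hP' 1))
    (((levEquiv hP 2).symm.trans (phiT φ h3 h4)).trans (levEquiv hP' 2)) (by
      intro e f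
      obtain ⟨F, rfl⟩ := (levEquiv hP 1).surjective e
      obtain ⟨G, rfl⟩ := (levEquiv hP 2).surjective f
      simp only [Equiv.trans_apply, Equiv.symm_apply_apply]
      change toA P F.1 ⊆ toA P G.1 ↔ toA P' (φ F.e).1 ⊆ toA P' (φ G.t).1
      rw [sub_iff hP F.2.1 F.2.2.1 G.2.1 G.2.2.1,
        sub_iff hP' (φ F.e).2.1 (φ F.e).2.2.1 (φ G.t).2.1 (φ G.t).2.2.1]
      exact (φ.le_iff_le (x := F.e) (y := G.t)).symm)
  exact assemble hP hP' φ h1 h2 h3 h4 ψ hψ2 hψ3 hψ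

end Pool.Agent.Helper715
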