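import Mathlib

set_option autoImplicit false
set_option linter.unusedSectionVars false
set_option linter.unusedVariables false

namespace Pool.Agent.Helper715

open Finset

open scoped Classical in
/-- even edge functions -/
noncomputable def Ev {E F : Type*} [Fintype E] (ef : E → F → Prop) (X : E → ZMod 2) : Prop :=
  ∀ f, ∑ e ∈ Finset.univ.filter (fun e => ef e f), X e = 0

open scoped Classical in
/-- the cut defined by a node function -/
noncomputable def cut {N E : Type*} [Fintype N] (ne : N → E → Prop) (σ : N → ZMod 2) (e : E) : ZMod 2 :=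
  ∑ v ∈ Finset.univ.filter (fun v => ne v e), σ v

/-- abstract incidence structure of nodes, edges and 2-faces -/
structure Inc {N E F : Type*} [Fintype N] [Fintype E] (ne : N → E → Prop) (ef : E → F → Prop) :
    Prop where
  two : ∀ e, ∃ a b, a ≠ b ∧ ∀ c, ne c e ↔ c = a ∨ c = b
  cut_even : ∀ σ : N → ZMod 2, Ev ef (cut ne σ)
  even_cut : ∀ X : E → ZMod 2, Ev ef X → ∃ σ : N → ZMod 2, X = cut ne σ
  conn : ∀ u v a b, a ≠ u → a ≠ v → b ≠ u → b ≠ v →
    Relation.ReflTransGen (fun a b => (∃ e, ne a e ∧ ne b e) ∧ (a ≠ u ∧ a ≠ v) ∧ b ≠ u ∧ b ≠ v) a b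
  third : ∀ u v : N, ∃ x, x ≠ u ∧ x ≠ v

section defs
variable {N E F : Type*} [Fintype N] [Fintype E] {ne : N → E → Prop} {ef : E → F → Prop}

theorem cut_two {σ : N → ZMod 2} {e : E} {a b : N} (hab : a ≠ b) (h : ∀ c, ne c e ↔ c = a ∨ c = b) :
    cut ne σ e = σ a + σ b := by
  classical
  have : Finset.univ.filter (fun v => ne v e) = {a, b} := by
    ext c
    simp [h]
  rw [cut]
  have h2 : (∑ v ∈ Finset.univ.filter (fun v => ne v e), σ v) = ∑ v ∈ {a, b}, σ v := by
    rw [this]
  convert h2 using 2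
  exact (Finset.sum_pair hab).symm

theorem zmod2_cases (x : ZMod 2) : x = 0 ∨ x = 1 := by
  revert x; decide

theorem zmod2_add_self (x : ZMod 2) : x + x = 0 := by
  revert x; decide

theorem zmod2_eq_of_add {x y : ZMod 2} (h : x + y = 0) : x = y := by
  revert x y; decide

open scoped Classical in
/-- the star of a node -/
noncomputable def star (ne : N → E → Prop) (v : N) (e : E) : ZMod 2 := if ne v e then 1 else 0

/-- intrinsic characterisation of stars -/
def Good (ef : E → F → Prop) (X : E → ZMod 2) : Prop :=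
  Ev ef X ∧ (∃ e, X e ≠ 0) ∧
  (∀ Z, Ev ef Z → (∃ e, Z e ≠ 0) → (∀ e, X e = 0 → Z e = 0) → Z = X) ∧
  (∀ A : Set E, (∃ e ∈ A, X e = 0) → (∃ e, e ∉ A ∧ X e = 0) →
    ∃ Z, Ev ef Z ∧ ∀ Z', Ev ef Z' →
      ¬ (∀ e, X e = 0 → ((e ∈ A → Z' e = Z e) ∧ (e ∉ A → Z' e = 0))))

end defs

namespace Inc

variable {N E F : Type*} [Fintype N] [Fintype E] {ne : N → E → Prop} {ef : E → F → Prop}
variable (I : Inc ne ef)
include I

theorem other {v : N} {e : E} (h : ne v e) : ∃ w, w ≠ v ∧ ne w e ∧ ∀ c, ne c e ↔ c = v ∨ c = w := by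
  obtain ⟨a, b, hab, hc⟩ := I.two e
  rcases (hc v).1 h with rfl | rfl
  · exact ⟨b, hab.symm, (hc b).2 (Or.inr rfl), hc⟩
  · exact ⟨a, hab, (hc a).2 (Or.inl rfl), fun c => by rw [hc, or_comm]⟩

theorem cut_eq {σ : N → ZMod 2} {e : E} {a b : N} (hab : a ≠ b) (ha : ne a e) (hb : ne b e) :
    cut ne σ e = σ a + σ b := by
  obtain ⟨w, hw, hwe, hc⟩ := I.other ha
  have : b = w := by
    rcases (hc b).1 hb with h | h
    · exact absurd h.symm hab
    · exact h
  subst this
  exact cut_two hab hc

open scoped Classical in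
theorem star_eq_cut (v : N) : star ne v = cut ne (fun w => if w = v then 1 else 0) := by
  funext e
  obtain ⟨a, b, hab, hc⟩ := I.two e
  rw [cut_two hab hc, star]
  by_cases h : ne v e
  · rw [if_pos h]
    rcases (hc v).1 h with rfl | rfl
    · simp [hab.symm]
    · simp [hab]
  · rw [if_neg h]
    have h1 : a ≠ v := by rintro rfl; exact h ((hc a).2 (Or.inl rfl))
    have h2 : b ≠ v := by rintro rfl; exact h ((hc b).2 (Or.inr rfl))
    simp [h1, h2]

theorem star_one {v : N} {e : E} (h : ne v e) : star ne v e = 1 := by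
  rw [star, if_pos h]

theorem star_zero {v : N} {e : E} (h : ¬ ne v e) : star ne v e = 0 := by
  rw [star, if_neg h]

theorem star_ne {v : N} {e : E} (h : star ne v e ≠ 0) : ne v e := by
  by_contra hcon
  exact h (I.star_zero hcon)

theorem not_star {v : N} {e : E} (h : star ne v e = 0) : ¬ ne v e := by
  intro hcon
  rw [I.star_one hcon] at h
  exact one_ne_zero h

theorem prop_conn {p : N → Prop} {u v : N}
    (h : ∀ e a b, ne a e → ne b e → a ≠ u → a ≠ v → b ≠ u → b ≠ v → p a → p b)
    {a b : N} (ha1 : a ≠ u) (ha2 : a ≠ v) (hb1 : b ≠ u) (hb2 : b ≠ v) (hp : p a) : p b := by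
  have := I.conn u v a b ha1 ha2 hb1 hb2
  clear hb1 hb2
  induction this with
  | refl => exact hp
  | tail _ hstep ih =>
    obtain ⟨⟨e, h1, h2⟩, h3, h4⟩ := hstep
    exact h e _ _ h1 h2 h3.1 h3.2 h4.1 h4.2 ih

theorem const_conn {α : Type*} {τ : N → α} {u v : N}
    (h : ∀ e a b, ne a e → ne b e → a ≠ u → a ≠ v → b ≠ u → b ≠ v → τ a = τ b)
    {a b : N} (ha1 : a ≠ u) (ha2 : a ≠ v) (hb1 : b ≠ u) (hb2 : b ≠ v) : τ a = τ b :=
  I.prop_conn (p := fun x => τ a = τ x)
    (fun e x y hx hy h1 h2 h3 h4 he => he.trans (h e x y hx hy h1 h2 h3 h4)) ha1 ha2 hb1 hb2 rfl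

theorem exists_edge {v u : N} (huv : u ≠ v) : ∃ e w, ne v e ∧ ne w e ∧ w ≠ v ∧ w ≠ u := by
  by_contra hcon
  push Not at hcon
  obtain ⟨x, hxu, hxv⟩ := I.third u v
  have := I.prop_conn (p := fun x => x = v) (u := u) (v := u)
    (fun e a b ha hb h1 h2 h3 h4 he => by
      by_contra hb'
      exact h3 (hcon e b (he ▸ ha) hb hb')) (Ne.symm huv) (Ne.symm huv) hxu hxu rfl
  exact hxv this

theorem exists_ne (v : N) : ∃ u, u ≠ v := by
  obtain ⟨x, hx, _⟩ := I.third v v
  exact ⟨x, hx⟩

theorem cut_add (σ : N → ZMod 2) (c : ZMod 2) : cut ne (fun w => σ w + c) = cut ne σ := by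
  funext e
  obtain ⟨a, b, hab, hc⟩ := I.two e
  rw [cut_two hab hc, cut_two hab hc]
  have := zmod2_add_self c
  linear_combination this

theorem star_inj {v w : N} (h : star ne v = star ne w) : v = w := by
  by_contra hne
  obtain ⟨e, x, h1, h2, h3, h4⟩ := I.exists_edge (v := v) (u := w) (Ne.symm hne)
  have h5 : ne w e := I.star_ne (by rw [← h, I.star_one h1]; exact one_ne_zero)
  obtain ⟨a, b, hab, hc⟩ := I.two e
  have k1 := (hc v).1 h1
  have k2 := (hc x).1 h2
  have k3 := (hc w).1 h5
  rcases k1 with rfl | rfl <;> rcases k2 with rfl | rfl <;> rcases k3 with rfl | rfl <;>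
    simp_all

theorem star_good (v : N) : Good ef (star ne v) := by
  classical
  refine ⟨?_, ?_, ?_, ?_⟩
  · rw [I.star_eq_cut]; exact I.cut_even _
  · obtain ⟨u, hu⟩ := I.exists_ne v
    obtain ⟨e, w, h1, _⟩ := I.exists_edge hu
    exact ⟨e, by rw [I.star_one h1]; exact one_ne_zero⟩
  · intro Z hZ hZne hZ0
    obtain ⟨σ, hσ⟩ := I.even_cut Z hZ
    set τ : N → ZMod 2 := fun w => σ w + σ v with hτ
    have hZτ : Z = cut ne τ := by rw [hσ, hτ, I.cut_add]
    have hτv : τ v = 0 := zmod2_add_self _
    have hconst : ∀ a b, a ≠ v → b ≠ v → τ a = τ b := by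
      intro a b ha hb
      refine I.const_conn (u := v) (v := v) ?_ ha ha hb hb
      intro e x y hx hy h1 _ h2 _
      by_cases hxy : x = y
      · rw [hxy]
      · have hve : ¬ ne v e := by
          intro hve
          obtain ⟨p, q, hpq, hc⟩ := I.two e
          have k1 := (hc v).1 hve
          have k2 := (hc x).1 hx
          have k3 := (hc y).1 hy
          rcases k1 with rfl | rfl <;> rcases k2 with rfl | rfl <;> rcases k3 with rfl | rfl <;>
            simp_all
        have h3 := hZ0 e (I.star_zero hve)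
        rw [hZτ, I.cut_eq hxy hx hy] at h3
        exact zmod2_eq_of_add h3
    obtain ⟨x, hx⟩ := I.exists_ne v
    rcases zmod2_cases (τ x) with h0 | h1
    · exfalso
      obtain ⟨e, he⟩ := hZne
      obtain ⟨a, b, hab, hc⟩ := I.two e
      apply he
      have hz : ∀ a, τ a = 0 := by
        intro a
        by_cases ha : a = v
        · rw [ha, hτv]
        · rw [hconst a x ha hx, h0]
      rw [hZτ, cut_two hab hc, hz, hz, add_zero]
    · have hz : ∀ a, a ≠ v → τ a = 1 := fun a ha => by rw [hconst a x ha hx, h1]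
      rw [hZτ, I.star_eq_cut]
      have : τ = fun w => (if w = v then 1 else 0) + 1 := by
        funext w
        by_cases hw : w = v
        · rw [hw, hτv, if_pos rfl]; decide
        · rw [hz w hw, if_neg hw, zero_add]
      rw [this, I.cut_add]
  · rintro A ⟨eA, heA, hXA⟩ ⟨eB, heB, hXB⟩
    by_contra hcon
    push Not at hcon
    have hvA := I.not_star hXA
    have hvB := I.not_star hXB
    -- at every node different from v all edges avoiding v are on the same side
    have hside : ∀ u, u ≠ v → ∀ e e', ne u e → ¬ ne v e → ne u e' → ¬ ne v e' → e ∈ A → e' ∈ A := by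
      intro u hu e e' hue hve hue' hve' heA'
      obtain ⟨Z', hZ', hprop⟩ := hcon (star ne u) (by rw [I.star_eq_cut]; exact I.cut_even _)
      obtain ⟨σ, hσ⟩ := I.even_cut Z' hZ'
      have hc0 : ∀ a b, a ≠ u → a ≠ v → b ≠ u → b ≠ v → σ a = σ b := by
        intro a b h1 h2 h3 h4
        refine I.const_conn (u := u) (v := v) ?_ h1 h2 h3 h4
        intro e x y hx hy g1 g2 g3 g4
        by_cases hxy : x = y
        · rw [hxy]
        · obtain ⟨p, q, hpq, hc⟩ := I.two e
          have kk : ∀ c, ne c e → c = x ∨ c = y := by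
            intro c hce
            have k1 := (hc c).1 hce
            have k2 := (hc x).1 hx
            have k3 := (hc y).1 hy
            rcases k1 with rfl | rfl <;> rcases k2 with rfl | rfl <;> rcases k3 with rfl | rfl <;>
              simp_all
          have hue : ¬ ne u e := by
            intro h
            rcases kk u h with h | h
            · exact g1 h.symm
            · exact g3 h.symm
          have hve : ¬ ne v e := by
            intro h
            rcases kk v h with h | h
            · exact g2 h.symm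
            · exact g4 h.symm
          have h5 := hprop e (I.star_zero hve)
          have h6 : Z' e = 0 := by
            by_cases heA : e ∈ A
            · rw [h5.1 heA, I.star_zero hue]
            · exact h5.2 heA
          rw [hσ, I.cut_eq hxy hx hy] at h6
          exact zmod2_eq_of_add h6
      obtain ⟨w, hw, hwe, _⟩ := I.other hue
      obtain ⟨w', hw', hwe', _⟩ := I.other hue'
      have hwv : w ≠ v := by rintro rfl; exact hve hwe
      have hwv' : w' ≠ v := by rintro rfl; exact hve' hwe'
      have h1 : Z' e = 1 := by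
        rw [(hprop e (I.star_zero hve)).1 heA', I.star_one hue]
      rw [hσ, I.cut_eq (Ne.symm hw) hue hwe, hc0 w w' hw hwv hw' hwv',
        ← I.cut_eq (Ne.symm hw') hue' hwe', ← hσ] at h1
      by_contra heA''
      rw [(hprop e' (I.star_zero hve')).2 heA''] at h1
      exact zero_ne_one h1
    obtain ⟨a, _, _, hca⟩ := I.two eA
    obtain ⟨b, _, _, hcb⟩ := I.two eB
    have haA : ne a eA := (hca a).2 (Or.inl rfl)
    have hbB : ne b eB := (hcb b).2 (Or.inl rfl)
    have hav : a ≠ v := by rintro rfl; exact hvA haA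
    have hbv : b ≠ v := by rintro rfl; exact hvB hbB
    have key := I.prop_conn (u := v) (v := v) (p := fun x => ∀ e, ne x e → ¬ ne v e → e ∈ A)
      (a := a) (b := b) (by
        intro e x y hx hy g1 _ g2 _ hp e' hye' hve'
        by_cases hxy : x = y
        · subst hxy; exact hp e' hye' hve'
        · have hve : ¬ ne v e := by
            intro hve
            obtain ⟨p, q, hpq, hc⟩ := I.two e
            have k1 := (hc v).1 hve
            have k2 := (hc x).1 hx
            have k3 := (hc y).1 hy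
            rcases k1 with rfl | rfl <;> rcases k2 with rfl | rfl <;> rcases k3 with rfl | rfl <;>
              simp_all
          exact hside y g2 e e' hy hve hye' hve' (hp e hx hve)) hav hav hbv hbv
      (fun e hae hve => hside a hav eA e haA hvA hae hve heA)
    exact heB (key eB hbB hvB)

theorem half {X : E → ZMod 2} (hX : Good ef X) (hns : ¬ ∃ v, X = star ne v) {σ : N → ZMod 2}
    (hσ : X = cut ne σ) : ∃ e, ∀ c, ne c e → σ c = 1 := by
  classical
  by_contra hcon
  push Not at hcon
  -- some node has value one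
  have hex : ∃ u, σ u = 1 := by
    obtain ⟨e, he⟩ := hX.2.1
    obtain ⟨a, b, hab, hc⟩ := I.two e
    by_contra h
    push Not at h
    have hz : ∀ u, σ u = 0 := fun u => by
      rcases zmod2_cases (σ u) with h0 | h1
      · exact h0
      · exact absurd h1 (h u)
    apply he
    rw [hσ, cut_two hab hc, hz, hz, add_zero]
  obtain ⟨u, hu⟩ := hex
  -- an edge at a node of value one has its other end of value zero
  have hother : ∀ x e y, σ x = 1 → ne x e → ne y e → y ≠ x → σ y = 0 := by
    intro x e y hx hxe hye hyx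
    obtain ⟨c, hce, hc1⟩ := hcon e
    obtain ⟨w, hw, hwe, hall⟩ := I.other hxe
    have hy : y = w := by
      rcases (hall y).1 hye with h | h
      · exact absurd h hyx
      · exact h
    rcases (hall c).1 hce with h | h
    · rw [h] at hc1; exact absurd hx hc1
    · rw [hy, ← h]
      rcases zmod2_cases (σ c) with h0 | h1
      · exact h0
      · exact absurd h1 hc1
  have hXu : star ne u = X := by
    apply hX.2.2.1
    · rw [I.star_eq_cut]; exact I.cut_even _
    · obtain ⟨w, hw⟩ := I.exists_ne u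
      obtain ⟨e, _, h1, _⟩ := I.exists_edge hw
      exact ⟨e, by rw [I.star_one h1]; exact one_ne_zero⟩
    · intro e he
      apply I.star_zero
      intro hue
      obtain ⟨w, hw, hwe, _⟩ := I.other hue
      rw [hσ, I.cut_eq (Ne.symm hw) hue hwe, hu, hother u e w hu hue hwe hw] at he
      simp at he
  exact hns ⟨u, hXu.symm⟩

theorem good_star {X : E → ZMod 2} (hX : Good ef X) : ∃ v, X = star ne v := by
  classical
  by_contra hns
  obtain ⟨σ, hσ⟩ := I.even_cut X hX.1
  obtain ⟨eA, heA⟩ := I.half hX hns hσ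
  obtain ⟨eB, heB⟩ := I.half hX hns (σ := fun w => σ w + 1) (by rw [I.cut_add]; exact hσ)
  have heB' : ∀ c, ne c eB → σ c = 0 := by
    intro c hc
    have := heB c hc
    simpa using this
  have hXe : ∀ e t, (∀ c, ne c e → σ c = t) → X e = 0 := by
    intro e t h
    obtain ⟨a, b, hab, hc⟩ := I.two e
    rw [hσ, cut_two hab hc, h a ((hc a).2 (Or.inl rfl)), h b ((hc b).2 (Or.inr rfl)),
      zmod2_add_self]
  obtain ⟨Z, hZ, hno⟩ := hX.2.2.2 {e | ∀ c, ne c e → σ c = 1} ⟨eA, heA, hXe eA 1 heA⟩
    ⟨eB, by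
      intro h
      obtain ⟨a, b, hab, hc⟩ := I.two eB
      have h1 := h a ((hc a).2 (Or.inl rfl))
      rw [heB' a ((hc a).2 (Or.inl rfl))] at h1
      exact zero_ne_one h1, hXe eB 0 heB'⟩
  obtain ⟨τ, hτ⟩ := I.even_cut Z hZ
  apply hno (cut ne (fun w => if σ w = 1 then τ w else 0)) (I.cut_even _)
  intro e he
  obtain ⟨a, b, hab, hc⟩ := I.two e
  rw [hσ, cut_two hab hc] at he
  have hab' := zmod2_eq_of_add he
  rw [cut_two hab hc, hτ, cut_two hab hc]
  constructor
  · intro h
    have h1 : σ a = 1 := h a ((hc a).2 (Or.inl rfl))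
    have h2 : σ b = 1 := h b ((hc b).2 (Or.inr rfl))
    rw [if_pos h1, if_pos h2]
  · intro h
    have h1 : σ a ≠ 1 := by
      intro h1
      apply h
      intro c hce
      rcases (hc c).1 hce with rfl | rfl
      · exact h1
      · rw [← hab', h1]
    rw [if_neg h1, if_neg (by rw [← hab']; exact h1), add_zero]

end Inc

section transfer

variable {E F E' F' : Type*} [Fintype E] [Fintype E'] {ef : E → F → Prop} {ef' : E' → F' → Prop}

theorem Ev.transfer (φe : E ≃ E') (φf : F ≃ F') (h : ∀ e f, ef e f ↔ ef' (φe e) (φf f))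
    {X : E → ZMod 2} (hX : Ev ef X) : Ev ef' (X ∘ φe.symm) := by
  classical
  intro f'
  have := hX (φf.symm f')
  rw [← this]
  symm
  apply Finset.sum_bij (fun e _ => φe e)
  · intro e he
    simp only [Finset.mem_filter, Finset.mem_univ, true_and] at he ⊢
    have := (h e _).1 he
    simpa using this
  · intro a _ b _ hab
    exact φe.injective hab
  · intro e' he'
    simp only [Finset.mem_filter, Finset.mem_univ, true_and] at he'
    refine ⟨φe.symm e', ?_, by simp⟩
    simp only [Finset.mem_filter, Finset.mem_univ, true_and]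
    rw [h]
    simpa using he'
  · intro e _
    simp

theorem Good.transfer (φe : E ≃ E') (φf : F ≃ F') (h : ∀ e f, ef e f ↔ ef' (φe e) (φf f))
    {X : E → ZMod 2} (hX : Good ef X) : Good ef' (X ∘ φe.symm) := by
  have h' : ∀ e' f', ef' e' f' ↔ ef (φe.symm e') (φf.symm f') := by
    intro e' f'
    rw [h]
    simp
  obtain ⟨h1, ⟨e, he⟩, h3, h4⟩ := hX
  refine ⟨h1.transfer φe φf h, ⟨φe e, by simpa using he⟩, ?_, ?_⟩
  · intro Z hZ hZne hZ0
    have hZ' : Ev ef (Z ∘ φe) := hZ.transfer φe.symm φf.symm h'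
    obtain ⟨e', he'⟩ := hZne
    have := h3 (Z ∘ φe) hZ' ⟨φe.symm e', by simpa using he'⟩ (by
      intro e hXe
      apply hZ0
      simpa using hXe)
    rw [← this]
    funext e'
    simp
  · rintro A ⟨eA, heA, hXA⟩ ⟨eB, heB, hXB⟩
    obtain ⟨Z, hZ, hno⟩ := h4 (φe ⁻¹' A) ⟨φe.symm eA, by simpa using heA, hXA⟩
      ⟨φe.symm eB, by simpa using heB, hXB⟩
    refine ⟨Z ∘ φe.symm, hZ.transfer φe φf h, ?_⟩
    intro Z' hZ' hprop
    apply hno (Z' ∘ φe) (hZ'.transfer φe.symm φf.symm h')
    intro e hXe
    have := hprop (φe e) (by simpa using hXe)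
    simpa using this

end transfer

section main

variable {N E F N' E' F' : Type*} [Fintype N] [Fintype E] [Fintype N'] [Fintype E']
  {ne : N → E → Prop} {ef : E → F → Prop} {ne' : N' → E' → Prop} {ef' : E' → F' → Prop}

theorem whitney (I : Inc ne ef) (I' : Inc ne' ef') (φe : E ≃ E') (φf : F ≃ F')
    (h : ∀ e f, ef e f ↔ ef' (φe e) (φf f)) :
    ∃ ν : N ≃ N', ∀ v e, ne v e ↔ ne' (ν v) (φe e) := by
  have h' : ∀ e' f', ef' e' f' ↔ ef (φe.symm e') (φf.symm f') := by
    intro e' f'
    rw [h]
    simp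
  have h1 : ∀ v, ∃ v', star ne v ∘ φe.symm = star ne' v' := fun v =>
    I'.good_star ((I.star_good v).transfer φe φf h)
  choose ν hν using h1
  have hiff : ∀ v e, ne v e ↔ ne' (ν v) (φe e) := by
    intro v e
    have := congrFun (hν v) (φe e)
    simp only [Function.comp_apply, Equiv.symm_apply_apply] at this
    constructor
    · intro hve
      apply I'.star_ne
      rw [← this, I.star_one hve]
      exact one_ne_zero
    · intro hve
      apply I.star_ne
      rw [this, I'.star_one hve]
      exact one_ne_zero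
  have hinj : Function.Injective ν := by
    intro v w hvw
    apply I.star_inj
    have h2 : star ne v ∘ φe.symm = star ne w ∘ φe.symm := by rw [hν, hν, hvw]
    funext e
    have := congrFun h2 (φe e)
    simpa using this
  have hsurj : Function.Surjective ν := by
    intro v'
    obtain ⟨v, hv⟩ := I.good_star ((I'.star_good v').transfer φe.symm φf.symm h')
    refine ⟨v, ?_⟩
    apply I'.star_inj
    rw [← hν, ← hv]
    funext e'
    simp
  exact ⟨Equiv.ofBijective ν ⟨hinj, hsurj⟩, hiff⟩

end main
end Pool.Agent.Helper715
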