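import Pool.Agent.Helper715.CP3
import Pool.Agent.Helper715.Whitney

set_option autoImplicit false
set_option linter.unusedSectionVars false
set_option linter.unusedVariables false

namespace Pool.Agent.Helper715

open Finset

variable {W : Type*} [NormedAddCommGroup W] [InnerProductSpace ℝ W] [FiniteDimensional ℝ W]

namespace CP

variable (P : CP W)

/-- the least closed set (it contains at most the zero vector) -/
noncomputable def bot : Finset W := perp P.V P.G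

variable {P}

theorem bot_cl : P.Cl P.bot := Cl_perpV (Finset.Subset.refl _)

theorem bot_le {A : Finset W} (hA : P.Cl A) : P.bot ⊆ A := by
  rw [← (show perp P.V (perp P.G A) = A from hA)]
  exact perp_anti (perp_sub _ _)

theorem mem_bot {v : W} (h : v ∈ P.bot) : v = 0 := by
  have h1 := (mem_perp.1 h).2
  have h2 : v ∈ (Submodule.span ℝ (P.G : Set W))ᗮ := mem_orth.2 h1
  rw [P.sG, Submodule.top_orthogonal_eq_bot] at h2
  exact h2

theorem dm_bot : dm P.bot = 0 := by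
  have : Submodule.span ℝ (P.bot : Set W) = ⊥ := by
    rw [Submodule.span_eq_bot]
    intro x hx
    exact mem_bot hx
  rw [dm, this, finrank_bot]

theorem inner_bot (y : W) : ∀ a ∈ P.bot, inner ℝ y a = 0 := by
  intro a ha
  rw [mem_bot ha, inner_zero_right]

theorem top_cl : P.Cl P.V := by
  rw [Cl]
  apply Finset.Subset.antisymm (perp_sub _ _)
  exact le_perp_perp (Finset.Subset.refl _)

theorem dm_top : dm P.V = Module.finrank ℝ W := by
  rw [dm, P.sV, finrank_top]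

variable (P) in
/-- faces of cone dimension `k` -/
def Lev (k : ℕ) : Type _ := {A : Finset W // P.Cl A ∧ dm A = k}

instance (k : ℕ) : Finite (P.Lev k) := by
  classical
  exact Finite.of_injective (fun A : P.Lev k =>
    (⟨A.1, Finset.mem_powerset.2 A.2.1.sub⟩ : {x // x ∈ P.V.powerset})) (by
      intro A B h
      exact Subtype.ext (congrArg (fun x => x.1) h))

noncomputable instance (k : ℕ) : Fintype (P.Lev k) := Fintype.ofFinite _

theorem Lev.cl {k : ℕ} (a : P.Lev k) : P.Cl a.1 := a.2.1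
theorem Lev.dim {k : ℕ} (a : P.Lev k) : dm a.1 = k := a.2.2

variable (P) in
/-- inclusion between levels -/
def inc (j k : ℕ) (a : P.Lev j) (b : P.Lev k) : Prop := a.1 ⊆ b.1

theorem Lev.cov (a : P.Lev 1) {B : Finset W} (h : a.1 ⊆ B) : P.Cov P.bot B a.1 :=
  ⟨a.cl, bot_le a.cl, h, by rw [a.dim, dm_bot]⟩

/-- the two faces between `a` and `b` -/
theorem mid {k : ℕ} (a : P.Lev k) (b : P.Lev (k + 2)) (h : a.1 ⊆ b.1) :
    ∃ c1 c2 : P.Lev (k + 1), c1 ≠ c2 ∧ ∀ c : P.Lev (k + 1), (a.1 ⊆ c.1 ∧ c.1 ⊆ b.1) ↔ (c = c1 ∨ c = c2) := by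
  obtain ⟨C1, C2, hne, h1, h2, hall⟩ := diamond a.cl b.cl h (by rw [a.dim, b.dim])
  refine ⟨⟨C1, h1.1, by rw [h1.2.2.2, a.dim]⟩, ⟨C2, h2.1, by rw [h2.2.2.2, a.dim]⟩, ?_, ?_⟩
  · intro h
    exact hne (congrArg Subtype.val h)
  · intro c
    constructor
    · rintro ⟨hac, hcb⟩
      rcases hall c.1 c.cl hac hcb (by rw [c.dim, a.dim]) with h | h
      · left; exact Subtype.ext h
      · right; exact Subtype.ext h
    · rintro (rfl | rfl)
      · exact ⟨h1.2.1, h1.2.2.1⟩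
      · exact ⟨h2.2.1, h2.2.2.1⟩

theorem two_nodes (e : P.Lev 2) : ∃ a b : P.Lev 1, a ≠ b ∧ ∀ c, P.inc 1 2 c e ↔ c = a ∨ c = b := by
  obtain ⟨c1, c2, hne, h⟩ := mid (k := 0) ⟨P.bot, bot_cl, dm_bot⟩ e (bot_le e.cl)
  refine ⟨c1, c2, hne, fun c => ?_⟩
  rw [← h c]
  exact ⟨fun hc => ⟨bot_le c.cl, hc⟩, fun hc => hc.2⟩

theorem exists_orth (K : Submodule ℝ W) (hK : Module.finrank ℝ K < Module.finrank ℝ W) :
    ∃ y : W, y ≠ 0 ∧ ∀ k ∈ K, inner ℝ y k = 0 := by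
  have h1 := Submodule.finrank_add_finrank_orthogonal K
  have h2 : Kᗮ ≠ ⊥ := by
    intro h
    rw [h, finrank_bot] at h1
    omega
  obtain ⟨y, hy, hy0⟩ := Submodule.exists_mem_ne_zero_of_ne_bot h2
  refine ⟨y, hy0, fun k hk => ?_⟩
  rw [Submodule.mem_orthogonal'] at hy
  exact hy k hk

theorem exists_orth3 (hn : 4 ≤ Module.finrank ℝ W) (u v x : P.Lev 1) :
    ∃ y : W, y ≠ 0 ∧ (∀ a ∈ u.1, inner ℝ y a = 0) ∧ (∀ a ∈ v.1, inner ℝ y a = 0) ∧
      (∀ a ∈ x.1, inner ℝ y a = 0) := by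
  set Ku := Submodule.span ℝ (u.1 : Set W) with hKu
  set Kv := Submodule.span ℝ (v.1 : Set W) with hKv
  set Kx := Submodule.span ℝ (x.1 : Set W) with hKx
  have h1 : Module.finrank ℝ Ku = 1 := u.dim
  have h2 : Module.finrank ℝ Kv = 1 := v.dim
  have h3 : Module.finrank ℝ Kx = 1 := x.dim
  have h4 := Submodule.finrank_add_le_finrank_add_finrank Ku Kv
  have h5 := Submodule.finrank_add_le_finrank_add_finrank (Ku ⊔ Kv) Kx
  obtain ⟨y, hy0, hy⟩ := exists_orth (Ku ⊔ Kv ⊔ Kx) (by omega)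
  refine ⟨y, hy0, fun a ha => hy a ?_, fun a ha => hy a ?_, fun a ha => hy a ?_⟩
  · exact Submodule.mem_sup_left (Submodule.mem_sup_left (Submodule.subset_span ha))
  · exact Submodule.mem_sup_left (Submodule.mem_sup_right (Submodule.subset_span ha))
  · exact Submodule.mem_sup_right (Submodule.subset_span ha)

theorem exists_ne_zero {y : W} (hy : y ≠ 0) : ∃ v ∈ P.V, inner ℝ y v ≠ 0 := by
  by_contra hcon
  push Not at hcon
  have : y ∈ (Submodule.span ℝ (P.V : Set W))ᗮ := mem_orth.2 hcon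
  rw [P.sV, Submodule.top_orthogonal_eq_bot] at this
  exact hy this

/-- a node on which `y` is positive -/
theorem exists_node {B : Finset W} (hB : P.Cl B) {y : W} (hpos : ∃ b ∈ B, 0 < inner ℝ y b) :
    ∃ a : P.Lev 1, a.1 ⊆ B ∧ ∃ x ∈ a.1, 0 < inner ℝ y x := by
  obtain ⟨C, h1, h2, h3, h4, h5⟩ := cover_up bot_cl hB (bot_le hB) (inner_bot y) hpos
  exact ⟨⟨C, h1, by rw [h4, dm_bot]⟩, h3, h5⟩

theorem third (hn : 4 ≤ Module.finrank ℝ W) (u v : P.Lev 1) : ∃ x : P.Lev 1, x ≠ u ∧ x ≠ v := by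
  obtain ⟨y, hy0, hu, hv, _⟩ := exists_orth3 hn u v u
  obtain ⟨w, hw, hw0⟩ := exists_ne_zero (P := P) hy0
  have key : ∀ y : W, (∀ a ∈ u.1, inner ℝ y a = 0) → (∀ a ∈ v.1, inner ℝ y a = 0) →
      0 < inner ℝ y w → ∃ x : P.Lev 1, x ≠ u ∧ x ≠ v := by
    intro y hu hv hpos
    obtain ⟨x, _, a, ha, hapos⟩ := exists_node (P := P) top_cl ⟨w, hw, hpos⟩
    refine ⟨x, ?_, ?_⟩
    · rintro rfl; rw [hu a ha] at hapos; exact lt_irrefl _ hapos
    · rintro rfl; rw [hv a ha] at hapos; exact lt_irrefl _ hapos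
  rcases lt_or_gt_of_ne hw0 with h | h
  · apply key (-y)
    · intro a ha; rw [inner_neg_left, hu a ha, neg_zero]
    · intro a ha; rw [inner_neg_left, hv a ha, neg_zero]
    · rw [inner_neg_left]; linarith
  · exact key y hu hv h

/-- adjacency avoiding two nodes -/
def AdjAv (u v a b : P.Lev 1) : Prop :=
  (∃ e : P.Lev 2, P.inc 1 2 a e ∧ P.inc 1 2 b e) ∧ (a ≠ u ∧ a ≠ v) ∧ b ≠ u ∧ b ≠ v

theorem AdjAv.symm {u v a b : P.Lev 1} (h : AdjAv u v a b) : AdjAv u v b a := by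
  obtain ⟨⟨e, h1, h2⟩, h3, h4⟩ := h
  exact ⟨⟨e, h2, h1⟩, h4, h3⟩

theorem conn_half {u v : P.Lev 1} {y : W} (hu : ∀ a ∈ u.1, inner ℝ y a = 0)
    (hv : ∀ a ∈ v.1, inner ℝ y a = 0) (hpos : ∃ w ∈ P.V, 0 < inner ℝ y w) {c c' : P.Lev 1}
    (hcu : c ≠ u) (hcv : c ≠ v) (hcu' : c' ≠ u) (hcv' : c' ≠ v)
    (hc : (∀ a ∈ c.1, inner ℝ y a = 0) ∨ ∃ a ∈ c.1, 0 < inner ℝ y a)
    (hc' : (∀ a ∈ c'.1, inner ℝ y a = 0) ∨ ∃ a ∈ c'.1, 0 < inner ℝ y a) :
    Relation.ReflTransGen (AdjAv u v) c c' := by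
  have hne : ∀ d : P.Lev 1, (∃ a ∈ d.1, 0 < inner ℝ y a) → d ≠ u ∧ d ≠ v := by
    rintro d ⟨a, ha, hpos⟩
    constructor
    · rintro rfl; rw [hu a ha] at hpos; exact lt_irrefl _ hpos
    · rintro rfl; rw [hv a ha] at hpos; exact lt_irrefl _ hpos
  -- go up to a positive node
  have hup : ∀ d : P.Lev 1, d ≠ u → d ≠ v →
      ((∀ a ∈ d.1, inner ℝ y a = 0) ∨ ∃ a ∈ d.1, 0 < inner ℝ y a) →
      ∃ d' : P.Lev 1, (∃ a ∈ d'.1, 0 < inner ℝ y a) ∧ Relation.ReflTransGen (AdjAv u v) d d' := by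
    rintro d hdu hdv (h0 | hp)
    · obtain ⟨D, hD, hdD, hDV, hdim, hDpos⟩ := cover_up d.cl (P := P) top_cl d.cl.sub h0 hpos
      obtain ⟨d', hd'D, hd'pos⟩ := exists_node hD hDpos
      refine ⟨d', hd'pos, Relation.ReflTransGen.single
        ⟨⟨⟨D, hD, by rw [hdim, d.dim]⟩, hdD, hd'D⟩, ⟨hdu, hdv⟩, hne d' hd'pos⟩⟩
    · exact ⟨d, hp, Relation.ReflTransGen.refl⟩
  obtain ⟨d, hd, hpath⟩ := hup c hcu hcv hc
  obtain ⟨d', hd', hpath'⟩ := hup c' hcu' hcv' hc'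
  have h1 := conn_pos (P := P) bot_cl top_cl (inner_bot y) (d.cov d.cl.sub) (d'.cov d'.cl.sub) hd hd'
  -- lift to nodes
  have hlift : ∀ Z, Relation.ReflTransGen (fun Z Z' => P.Adj P.bot P.V Z Z' ∧
      (∃ x ∈ Z, 0 < inner ℝ y x) ∧ (∃ x ∈ Z', 0 < inner ℝ y x)) d.1 Z →
      ∃ z : P.Lev 1, z.1 = Z ∧ Relation.ReflTransGen (AdjAv u v) d z := by
    intro Z hZ
    induction hZ with
    | refl => exact ⟨d, rfl, Relation.ReflTransGen.refl⟩
    | tail _ hstep ih =>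
      obtain ⟨z, rfl, hz⟩ := ih
      obtain ⟨⟨hc1, hc2, D, hD, hzD, hZD, hDV, hdD⟩, hp1, hp2⟩ := hstep
      refine ⟨⟨_, hc2.cl, by rw [hc2.dim, dm_bot]⟩, rfl, hz.tail ?_⟩
      refine ⟨⟨⟨D, hD, by rw [hdD, dm_bot]⟩, hzD, hZD⟩, hne z hp1, ?_⟩
      exact hne ⟨_, hc2.cl, by rw [hc2.dim, dm_bot]⟩ hp2
  obtain ⟨z, hz, hpathz⟩ := hlift _ h1
  have : z = d' := Subtype.ext hz
  subst this
  exact (hpath.trans hpathz).trans (rtg_symm (fun _ _ h => h.symm) hpath')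

theorem node_cases (c : P.Lev 1) (y : W) : (∀ a ∈ c.1, inner ℝ y a = 0) ∨
    (∃ a ∈ c.1, 0 < inner ℝ y a) ∨ (∃ a ∈ c.1, 0 < inner ℝ (-y) a) := by
  by_cases h : ∀ a ∈ c.1, inner ℝ y a = 0
  · left; exact h
  · right
    push Not at h
    obtain ⟨a, ha, hne⟩ := h
    rcases lt_or_gt_of_ne hne with h | h
    · right; exact ⟨a, ha, by rw [inner_neg_left]; linarith⟩
    · left; exact ⟨a, ha, h⟩

theorem conn_av (hn : 4 ≤ Module.finrank ℝ W) (u v a b : P.Lev 1) (hau : a ≠ u) (hav : a ≠ v)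
    (hbu : b ≠ u) (hbv : b ≠ v) : Relation.ReflTransGen (AdjAv u v) a b := by
  obtain ⟨y, hy0, hu, hv, ha⟩ := exists_orth3 hn u v a
  have hu' : ∀ a ∈ u.1, inner ℝ (-y) a = 0 := fun a ha => by rw [inner_neg_left, hu a ha, neg_zero]
  have hv' : ∀ a ∈ v.1, inner ℝ (-y) a = 0 := fun a ha => by rw [inner_neg_left, hv a ha, neg_zero]
  have ha' : ∀ x ∈ a.1, inner ℝ (-y) x = 0 := fun x hx => by rw [inner_neg_left, ha x hx, neg_zero]
  obtain ⟨w, hw, hw0⟩ := exists_ne_zero (P := P) hy0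
  rcases node_cases b y with hb | ⟨x, hx, hxp⟩ | ⟨x, hx, hxp⟩
  · rcases lt_or_gt_of_ne hw0 with h | h
    · exact conn_half hu' hv' ⟨w, hw, by rw [inner_neg_left]; linarith⟩ hau hav hbu hbv
        (Or.inl ha') (Or.inl fun x hx => by rw [inner_neg_left, hb x hx, neg_zero])
    · exact conn_half hu hv ⟨w, hw, h⟩ hau hav hbu hbv (Or.inl ha) (Or.inl hb)
  · exact conn_half hu hv ⟨x, b.cl.sub hx, hxp⟩ hau hav hbu hbv (Or.inl ha) (Or.inr ⟨x, hx, hxp⟩)
  · exact conn_half hu' hv' ⟨x, b.cl.sub hx, hxp⟩ hau hav hbu hbv (Or.inl ha') (Or.inr ⟨x, hx, hxp⟩)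

theorem cut_even' (σ : P.Lev 1 → ZMod 2) : Ev (P.inc 2 3) (cut (P.inc 1 2) σ) := by
  classical
  intro f
  simp only [cut]
  have h1 : ∑ e ∈ Finset.univ.filter (fun e => P.inc 2 3 e f),
      ∑ v ∈ Finset.univ.filter (fun v => P.inc 1 2 v e), σ v =
      ∑ v, ∑ e, if (P.inc 2 3 e f ∧ P.inc 1 2 v e) then σ v else 0 := by
    rw [Finset.sum_comm, Finset.sum_filter]
    apply Finset.sum_congr rfl
    intro e _
    by_cases he : P.inc 2 3 e f
    · simp only [he, true_and, if_true]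
      rw [Finset.sum_filter]
    · simp [he]
  refine h1.trans ?_
  apply Finset.sum_eq_zero
  intro v _
  rw [← Finset.sum_filter]
  by_cases hvf : v.1 ⊆ f.1
  · obtain ⟨c1, c2, hne, h⟩ := mid v f hvf
    have : Finset.univ.filter (fun e => P.inc 2 3 e f ∧ P.inc 1 2 v e) = {c1, c2} := by
      ext c
      simp only [Finset.mem_filter, Finset.mem_univ, true_and, Finset.mem_insert,
        Finset.mem_singleton]
      rw [← h c, and_comm]
      rfl
    rw [this, Finset.sum_pair hne]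
    exact zmod2_add_self _
  · apply Finset.sum_eq_zero
    intro e he
    rw [Finset.mem_filter] at he
    exact absurd (he.2.2.trans he.2.1) hvf

end CP
end Pool.Agent.Helper715
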