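import Pool.Agent.Helper715.Geo

set_option autoImplicit false
set_option linter.unusedSectionVars false
set_option linter.unusedVariables false

namespace Pool.Agent.Helper715

open Finset

variable {W : Type*} [NormedAddCommGroup W] [InnerProductSpace ℝ W] [FiniteDimensional ℝ W]

namespace CP

variable {P : CP W}

theorem exists_rep (a : P.Lev 1) : ∃ x ∈ a.1, x ∉ P.bot :=
  (a.cov (B := P.V) a.cl.sub).exists_nm bot_cl

theorem gsbot_pos {a : P.Lev 1} {x : W} (hx : x ∈ a.1) (hxb : x ∉ P.bot) :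
    0 < inner ℝ (P.gs P.bot) x := gs_pos bot_cl (a.cl.sub hx) hxb

theorem node_eq {a b : P.Lev 1} {x : W} (hxa : x ∈ a.1) (hx : x ∉ P.bot) (hxb : x ∈ b.1) : a = b :=
  Subtype.ext (cover_eq bot_cl a.cl b.cl (bot_le a.cl) (bot_le b.cl)
    (by rw [a.dim, dm_bot]) (by rw [b.dim, dm_bot]) hxa hx hxb)

theorem exists_generic : ∃ y : W, ∃ ρ : P.Lev 1 → ℝ,
    (∀ a, ∀ x ∈ a.1, inner ℝ y x = ρ a * inner ℝ (P.gs P.bot) x) ∧ Function.Injective ρ := by
  classical
  choose r hr hrb using fun a : P.Lev 1 => exists_rep a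
  set η := P.gs P.bot with hη
  have hηr : ∀ a, 0 < inner ℝ η (r a) := fun a => gsbot_pos (hr a) (hrb a)
  let w : {p : P.Lev 1 × P.Lev 1 // p.1 ≠ p.2} → W := fun p =>
    (inner ℝ η (r p.1.2) : ℝ) • r p.1.1 - (inner ℝ η (r p.1.1) : ℝ) • r p.1.2
  have hw : ∀ p, w p ≠ 0 := by
    rintro ⟨⟨a, b⟩, hab⟩ h0
    apply hab
    simp only [w, sub_eq_zero] at h0
    have h1 : r a = (inner ℝ η (r b) : ℝ)⁻¹ • (inner ℝ η (r a) : ℝ) • r b := by
      rw [← h0, smul_smul, inv_mul_cancel₀ (hηr b).ne', one_smul]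
    have h2 : r a ∈ b.1 := by
      apply mem_of_mem_span b.cl (a.cl.sub (hr a))
      rw [h1]
      exact Submodule.smul_mem _ _ (Submodule.smul_mem _ _ (Submodule.subset_span (hr b)))
    exact node_eq (hr a) (hrb a) h2
  obtain ⟨y, hy⟩ := Submodule.exists_forall_notMem_of_forall_ne_top
    (fun p : {p : P.Lev 1 × P.Lev 1 // p.1 ≠ p.2} => (ℝ ∙ w p)ᗮ) (by
      intro p htop
      have h1 : w p ∈ (ℝ ∙ w p)ᗮ := by rw [htop]; trivial
      rw [Submodule.mem_orthogonal_singleton_iff_inner_left, inner_self_eq_zero] at h1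
      exact hw p h1)
  have hrat : ∀ a : P.Lev 1, ∃ c : ℝ, ∀ x ∈ a.1, inner ℝ y x = c * inner ℝ η x := fun a =>
    exists_ratio bot_cl (a.cov (B := P.V) a.cl.sub) (inner_bot y)
  choose ρ hρ using hrat
  refine ⟨y, ρ, hρ, ?_⟩
  intro a b hab
  by_contra hne
  apply hy ⟨(a, b), hne⟩
  rw [Submodule.mem_orthogonal_singleton_iff_inner_left]
  simp only [w]
  rw [inner_sub_right, real_inner_smul_right, real_inner_smul_right, hρ a _ (hr a),
    hρ b _ (hr b), hab]
  ring

theorem mid_third {v : P.Lev 1} {f : P.Lev 3} {e1 e2 e : P.Lev 2} (hne : e1 ≠ e2)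
    (h1 : v.1 ⊆ e1.1) (h2 : v.1 ⊆ e2.1) (h3 : e1.1 ⊆ f.1) (h4 : e2.1 ⊆ f.1)
    (h5 : v.1 ⊆ e.1) (h6 : e.1 ⊆ f.1) : e = e1 ∨ e = e2 := by
  obtain ⟨c1, c2, hc12, hall⟩ := mid (P := P) v f (h1.trans h3)
  have k1 := (hall e1).1 ⟨h1, h3⟩
  have k2 := (hall e2).1 ⟨h2, h4⟩
  have k3 := (hall e).1 ⟨h5, h6⟩
  rcases k1 with rfl | rfl <;> rcases k2 with rfl | rfl <;> rcases k3 with k3 | k3 <;>
    first
    | exact absurd rfl hne
    | exact Or.inl k3
    | exact Or.inr k3

section local_lemmas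

variable {y : W} {ρ : P.Lev 1 → ℝ}
  (hρ : ∀ a : P.Lev 1, ∀ x ∈ a.1, inner ℝ y x = ρ a * inner ℝ (P.gs P.bot) x)
include hρ

theorem z_eval (v a : P.Lev 1) {x : W} (hx : x ∈ a.1) :
    inner ℝ (y - ρ v • P.gs P.bot) x = (ρ a - ρ v) * inner ℝ (P.gs P.bot) x := by
  rw [inner_sub_left, real_inner_smul_left, hρ a x hx]
  ring

theorem z_zero (v : P.Lev 1) : ∀ x ∈ v.1, inner ℝ (y - ρ v • P.gs P.bot) x = 0 := by
  intro x hx
  rw [z_eval hρ v v hx, sub_self, zero_mul]

theorem pos_of_gt {v w : P.Lev 1} (h : ρ v < ρ w) :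
    ∃ x ∈ w.1, 0 < inner ℝ (y - ρ v • P.gs P.bot) x := by
  obtain ⟨x, hx, hxb⟩ := exists_rep w
  refine ⟨x, hx, ?_⟩
  rw [z_eval hρ v w hx]
  exact mul_pos (by linarith) (gsbot_pos hx hxb)

theorem gt_of_pos {v w : P.Lev 1} {x : W} (hx : x ∈ w.1)
    (h : 0 < inner ℝ (y - ρ v • P.gs P.bot) x) : ρ v < ρ w := by
  rw [z_eval hρ v w hx] at h
  by_contra hcon
  push Not at hcon
  have h1 := gs_nonneg (P := P) P.bot (w.cl.sub hx)
  have := mul_nonneg (sub_nonneg.2 hcon) h1
  linarith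

theorem nonneg_on {v : P.Lev 1} {e : P.Lev 2} (hve : v.1 ⊆ e.1)
    (hpos : ∃ x ∈ e.1, 0 < inner ℝ (y - ρ v • P.gs P.bot) x) :
    ∀ x ∈ e.1, 0 ≤ inner ℝ (y - ρ v • P.gs P.bot) x := by
  obtain ⟨c, hc⟩ := exists_ratio (P := P) v.cl (B := P.V) (X := e.1)
    ⟨e.cl, hve, e.cl.sub, by rw [e.dim, v.dim]⟩ (z_zero hρ v)
  obtain ⟨x, hx, hxp⟩ := hpos
  have h1 := gs_nonneg (P := P) v.1 (e.cl.sub hx)
  have hc0 : 0 ≤ c := by
    by_contra hcon
    push Not at hcon
    rw [hc x hx] at hxp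
    have := mul_nonneg (neg_nonneg.2 hcon.le) h1
    linarith
  intro x' hx'
  rw [hc x' hx']
  exact mul_nonneg hc0 (gs_nonneg (P := P) v.1 (e.cl.sub hx'))

theorem face_above (hinj : Function.Injective ρ) {v : P.Lev 1} {e1 e2 : P.Lev 2} {f : P.Lev 3}
    (hne : e1 ≠ e2) (h1 : v.1 ⊆ e1.1) (h2 : v.1 ⊆ e2.1) (h3 : e1.1 ⊆ f.1) (h4 : e2.1 ⊆ f.1)
    (hp1 : ∃ x ∈ e1.1, 0 < inner ℝ (y - ρ v • P.gs P.bot) x)
    (hp2 : ∃ x ∈ e2.1, 0 < inner ℝ (y - ρ v • P.gs P.bot) x) {c : P.Lev 1} (hcf : c.1 ⊆ f.1)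
    (hcv : c ≠ v) : ρ v < ρ c := by
  by_contra hcon
  push Not at hcon
  have hlt : ρ c < ρ v := lt_of_le_of_ne hcon (fun h => hcv (hinj h))
  obtain ⟨x, hx, hxb⟩ := exists_rep c
  have hz : ∀ a ∈ v.1, inner ℝ (-(y - ρ v • P.gs P.bot)) a = 0 := by
    intro a ha
    rw [inner_neg_left, z_zero hρ v a ha, neg_zero]
  obtain ⟨C, hC, hvC, hCf, hdC, x', hx', hx'p⟩ := cover_up (P := P) v.cl f.cl (h1.trans h3) hz
    ⟨x, hcf hx, by
      rw [inner_neg_left, z_eval hρ v c hx]
      have := mul_pos (sub_pos.2 hlt) (gsbot_pos hx hxb)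
      linarith⟩
  rw [inner_neg_left] at hx'p
  have : (⟨C, hC, by rw [hdC, v.dim]⟩ : P.Lev 2) = e1 ∨ (⟨C, hC, by rw [hdC, v.dim]⟩ : P.Lev 2) = e2 :=
    mid_third hne h1 h2 h3 h4 hvC hCf
  rcases this with h | h
  · have hx'' : x' ∈ e1.1 := by rw [← h]; exact hx'
    linarith [nonneg_on hρ h1 hp1 x' hx'']
  · have hx'' : x' ∈ e2.1 := by rw [← h]; exact hx'
    linarith [nonneg_on hρ h2 hp2 x' hx'']

end local_lemmas

theorem cut_inc {σ : P.Lev 1 → ZMod 2} {e : P.Lev 2} {a b : P.Lev 1} (hab : a ≠ b)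
    (ha : a.1 ⊆ e.1) (hb : b.1 ⊆ e.1) : cut (P.inc 1 2) σ e = σ a + σ b := by
  obtain ⟨p, q, hpq, hc⟩ := two_nodes e
  have k1 := (hc a).1 ha
  have k2 := (hc b).1 hb
  rw [cut_two hpq hc]
  rcases k1 with rfl | rfl <;> rcases k2 with rfl | rfl
  · exact absurd rfl hab
  · rfl
  · exact add_comm _ _
  · exact absurd rfl hab

theorem even_cut' {X : P.Lev 2 → ZMod 2} (hX : Ev (P.inc 2 3) X) :
    ∃ σ : P.Lev 1 → ZMod 2, X = cut (P.inc 1 2) σ := by
  classical
  obtain ⟨y, ρ, hρ, hinj⟩ := exists_generic (P := P)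
  have key : ∀ n : ℕ, ∀ S : Finset (P.Lev 1), S.card = n →
      (∀ a ∈ S, ∀ b, ρ a < ρ b → b ∈ S) →
      ∃ σ : P.Lev 1 → ZMod 2, ∀ e : P.Lev 2, (∀ c : P.Lev 1, c.1 ⊆ e.1 → c ∈ S) →
        X e = cut (P.inc 1 2) σ e := by
    intro n
    induction n with
    | zero =>
      intro S hS _
      refine ⟨fun _ => 0, fun e he => ?_⟩
      obtain ⟨a, b, _, hc⟩ := two_nodes e
      have := he a ((hc a).2 (Or.inl rfl))
      rw [Finset.card_eq_zero.1 hS] at this
      simp at this
    | succ n ih =>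
      intro S hS hup
      obtain ⟨v, hvS, hvmin⟩ := S.exists_min_image ρ (by
        rw [← Finset.card_pos, hS]; omega)
      have hup' : ∀ a ∈ S.erase v, ∀ b, ρ a < ρ b → b ∈ S.erase v := by
        intro a ha b hab
        rw [Finset.mem_erase] at ha ⊢
        refine ⟨?_, hup a ha.2 b hab⟩
        rintro rfl
        linarith [hvmin a ha.2]
      obtain ⟨σ, hσ⟩ := ih (S.erase v) (by rw [Finset.card_erase_of_mem hvS, hS]; rfl) hup'
      by_cases hex : ∃ e0 : P.Lev 2, v.1 ⊆ e0.1 ∧ ∀ c : P.Lev 1, c.1 ⊆ e0.1 → c ∈ S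
      · obtain ⟨e0, hve0, he0⟩ := hex
        set q : P.Lev 2 → ZMod 2 := fun e => X e + cut (P.inc 1 2) σ e with hq
        -- positivity of edges at v inside S
        have hpos : ∀ e : P.Lev 2, v.1 ⊆ e.1 → (∀ c : P.Lev 1, c.1 ⊆ e.1 → c ∈ S) →
            ∃ x ∈ e.1, 0 < inner ℝ (y - ρ v • P.gs P.bot) x := by
          intro e hve he
          obtain ⟨a, b, hab, hc⟩ := two_nodes e
          have hw : ∃ w : P.Lev 1, w ≠ v ∧ w.1 ⊆ e.1 := by
            rcases (hc v).1 hve with h | h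
            · exact ⟨b, by rw [h]; exact hab.symm, (hc b).2 (Or.inr rfl)⟩
            · exact ⟨a, by rw [h]; exact hab, (hc a).2 (Or.inl rfl)⟩
          obtain ⟨w, hwv, hwe⟩ := hw
          have hlt : ρ v < ρ w := lt_of_le_of_ne (hvmin w (he w hwe)) (fun h => hwv (hinj h.symm))
          obtain ⟨x, hx, hxp⟩ := pos_of_gt hρ hlt
          exact ⟨x, hwe hx, hxp⟩
        -- q is constant on these edges
        have hstep : ∀ (e1 e2 : P.Lev 2) (f : P.Lev 3), v.1 ⊆ e1.1 → v.1 ⊆ e2.1 → e1.1 ⊆ f.1 →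
            e2.1 ⊆ f.1 → (∃ x ∈ e1.1, 0 < inner ℝ (y - ρ v • P.gs P.bot) x) →
            (∃ x ∈ e2.1, 0 < inner ℝ (y - ρ v • P.gs P.bot) x) → q e1 = q e2 := by
          intro e1 e2 f h1 h2 h3 h4 hp1 hp2
          by_cases hne : e1 = e2
          · rw [hne]
          · have hsum : ∑ e ∈ Finset.univ.filter (fun e => P.inc 2 3 e f), q e = 0 := by
              have g1 := hX f
              have g2 := cut_even' σ f
              rw [hq, Finset.sum_add_distrib]
              have g3 : ∑ e ∈ Finset.univ.filter (fun e => P.inc 2 3 e f), X e = 0 := g1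
              have g4 : ∑ e ∈ Finset.univ.filter (fun e => P.inc 2 3 e f),
                cut (P.inc 1 2) σ e = 0 := g2
              rw [g3, g4, add_zero]
            have hzero : ∀ e : P.Lev 2, e.1 ⊆ f.1 → e ≠ e1 → e ≠ e2 → q e = 0 := by
              intro e hef he1 he2
              have hve : ¬ v.1 ⊆ e.1 := by
                intro hve
                rcases mid_third hne h1 h2 h3 h4 hve hef with h | h
                · exact he1 h
                · exact he2 h
              have := hσ e (by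
                intro c hce
                rw [Finset.mem_erase]
                have hcv : c ≠ v := by rintro rfl; exact hve hce
                exact ⟨hcv, hup v hvS c (face_above hρ hinj hne h1 h2 h3 h4 hp1 hp2
                  (hce.trans hef) hcv)⟩)
              simp only [hq]
              rw [this]
              exact zmod2_add_self _
            have hsub : ({e1, e2} : Finset (P.Lev 2)) ⊆ Finset.univ.filter (fun e => P.inc 2 3 e f) := by
              intro e he
              rw [Finset.mem_insert, Finset.mem_singleton] at he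
              rw [Finset.mem_filter]
              rcases he with rfl | rfl
              · exact ⟨Finset.mem_univ _, h3⟩
              · exact ⟨Finset.mem_univ _, h4⟩
            rw [← Finset.sum_subset hsub (by
              intro e he hne'
              rw [Finset.mem_filter] at he
              rw [Finset.mem_insert, Finset.mem_singleton] at hne'
              push Not at hne'
              exact hzero e he.2 hne'.1 hne'.2), Finset.sum_pair hne] at hsum
            exact zmod2_eq_of_add hsum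
        have hconst : ∀ e : P.Lev 2, v.1 ⊆ e.1 → (∀ c : P.Lev 1, c.1 ⊆ e.1 → c ∈ S) → q e = q e0 := by
          intro e hve he
          have hp := hpos e hve he
          have hp0 := hpos e0 hve0 he0
          have hcov : ∀ e : P.Lev 2, v.1 ⊆ e.1 → P.Cov v.1 P.V e.1 := fun e h =>
            ⟨e.cl, h, e.cl.sub, by rw [e.dim, v.dim]⟩
          have h1 := conn_pos (P := P) v.cl top_cl (z_zero hρ v) (hcov e0 hve0) (hcov e hve) hp0 hp
          have hlift : ∀ Z, Relation.ReflTransGen (fun Z Z' => P.Adj v.1 P.V Z Z' ∧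
              (∃ x ∈ Z, 0 < inner ℝ (y - ρ v • P.gs P.bot) x) ∧
              (∃ x ∈ Z', 0 < inner ℝ (y - ρ v • P.gs P.bot) x)) e0.1 Z →
              ∃ z : P.Lev 2, z.1 = Z ∧ q z = q e0 := by
            intro Z hZ
            induction hZ with
            | refl => exact ⟨e0, rfl, rfl⟩
            | tail _ hs ih' =>
              obtain ⟨z, rfl, hz⟩ := ih'
              obtain ⟨⟨hc1, hc2, D, hD, hzD, hZD, hDV, hdD⟩, hp1, hp2⟩ := hs
              have hd2 := hc2.dim
              rw [v.dim] at hd2 hdD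
              refine ⟨⟨_, hc2.cl, hd2⟩, rfl, ?_⟩
              rw [← hz]
              exact (hstep z ⟨_, hc2.cl, hd2⟩ ⟨D, hD, hdD⟩ hc1.le hc2.le hzD hZD hp1 hp2).symm
          obtain ⟨z, hz, hqz⟩ := hlift _ h1
          have : z = e := Subtype.ext hz
          rw [← this, hqz]
        refine ⟨fun w => if w = v then σ v + q e0 else σ w, fun e he => ?_⟩
        obtain ⟨a, b, hab, hc⟩ := two_nodes e
        by_cases hve : v.1 ⊆ e.1
        · have h1 := hconst e hve he
          have h2 : cut (P.inc 1 2) (fun w => if w = v then σ v + q e0 else σ w) e =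
              cut (P.inc 1 2) σ e + q e0 := by
            rw [cut_two hab hc, cut_two hab hc]
            rcases (hc v).1 hve with h | h
            · subst h
              rw [if_pos rfl, if_neg (Ne.symm hab)]
              ring
            · subst h
              rw [if_pos rfl, if_neg hab]
              ring
          rw [h2, ← h1]
          simp only [hq]
          have := zmod2_add_self (cut (P.inc 1 2) σ e)
          linear_combination -this
        · have h1 : a ≠ v := by rintro rfl; exact hve ((hc a).2 (Or.inl rfl))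
          have h2 : b ≠ v := by rintro rfl; exact hve ((hc b).2 (Or.inr rfl))
          rw [cut_two hab hc, if_neg h1, if_neg h2, ← cut_two hab hc]
          apply hσ
          intro c hce
          rw [Finset.mem_erase]
          refine ⟨?_, he c hce⟩
          rintro rfl
          exact hve hce
      · push Not at hex
        refine ⟨σ, fun e he => hσ e fun c hce => ?_⟩
        rw [Finset.mem_erase]
        refine ⟨?_, he c hce⟩
        rintro rfl
        obtain ⟨c', hc', hc'S⟩ := hex e hce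
        exact hc'S (he c' hc')
  obtain ⟨σ, hσ⟩ := key _ Finset.univ rfl (fun _ _ _ _ => Finset.mem_univ _)
  exact ⟨σ, funext fun e => hσ e fun _ _ => Finset.mem_univ _⟩

/-- the incidence structure of nodes, edges and 2-faces -/
theorem incI (P : CP W) (hn : 4 ≤ Module.finrank ℝ W) : Inc (P.inc 1 2) (P.inc 2 3) where
  two := two_nodes
  cut_even := cut_even'
  even_cut := fun X hX => even_cut' hX
  conn := fun u v a b h1 h2 h3 h4 => conn_av hn u v a b h1 h2 h3 h4
  third := third hn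

end CP
end Pool.Agent.Helper715
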