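import Pool.Agent.Helper715.Geo2

set_option autoImplicit false
set_option linter.unusedSectionVars false
set_option linter.unusedVariables false

namespace Pool.Agent.Helper715

open Finset

variable {W : Type*} [NormedAddCommGroup W] [InnerProductSpace ℝ W] [FiniteDimensional ℝ W]
variable {W' : Type*} [NormedAddCommGroup W'] [InnerProductSpace ℝ W'] [FiniteDimensional ℝ W']

namespace CP

variable {P : CP W} {P' : CP W'}

theorem perp_sub_perp_iff {A B : Finset W} (hA : P.Cl A) (hB : P.Cl B) :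
    perp P.G B ⊆ perp P.G A ↔ A ⊆ B := by
  constructor
  · intro h
    have := perp_anti (G := P.V) h
    rwa [show perp P.V (perp P.G A) = A from hA, show perp P.V (perp P.G B) = B from hB] at this
  · exact perp_anti

/-- duality between the levels of a pair and of the swapped pair -/
noncomputable def dl (P : CP W) {k l : ℕ} (h : k + l = Module.finrank ℝ W) :
    P.Lev k ≃ P.swap.Lev l where
  toFun a := ⟨perp P.G a.1, Cl_perp a.cl.sub, by
    have h1 := dm_add a.cl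
    have h2 := a.dim
    omega⟩
  invFun b := ⟨perp P.V b.1, Cl_perpV b.cl.sub, by
    have h1 := dm_add (P := P.swap) b.cl
    have h2 := b.dim
    simp only [swap_G] at h1
    omega⟩
  left_inv a := Subtype.ext a.cl
  right_inv b := Subtype.ext b.cl

theorem dl_inc {k l k' l' : ℕ} (h : k + l = Module.finrank ℝ W) (h' : k' + l' = Module.finrank ℝ W)
    (a : P.Lev k) (b : P.Lev k') : P.swap.inc l' l (dl P h' b) (dl P h a) ↔ P.inc k k' a b :=
  perp_sub_perp_iff a.cl b.cl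

/-- nodes are determined by edges and 2-faces -/
theorem nodes (hn : 4 ≤ Module.finrank ℝ W) (hn' : 4 ≤ Module.finrank ℝ W')
    (φ2 : P.Lev 2 ≃ P'.Lev 2) (φ3 : P.Lev 3 ≃ P'.Lev 3)
    (h : ∀ e f, P.inc 2 3 e f ↔ P'.inc 2 3 (φ2 e) (φ3 f)) :
    ∃ ν : P.Lev 1 ≃ P'.Lev 1, ∀ v e, P.inc 1 2 v e ↔ P'.inc 1 2 (ν v) (φ2 e) :=
  whitney (incI P hn) (incI P' hn') φ2 φ3 h

/-- facets are determined by edges and 2-faces, when the dimension is four -/
theorem facets (hn : Module.finrank ℝ W = 5) (hn' : Module.finrank ℝ W' = 5)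
    (φ2 : P.Lev 2 ≃ P'.Lev 2) (φ3 : P.Lev 3 ≃ P'.Lev 3)
    (h : ∀ e f, P.inc 2 3 e f ↔ P'.inc 2 3 (φ2 e) (φ3 f)) :
    ∃ μ : P.Lev 4 ≃ P'.Lev 4, ∀ f F, P.inc 3 4 f F ↔ P'.inc 3 4 (φ3 f) (μ F) := by
  have h23 : 2 + 3 = Module.finrank ℝ W := by rw [hn]
  have h32 : 3 + 2 = Module.finrank ℝ W := by rw [hn]
  have h41 : 4 + 1 = Module.finrank ℝ W := by rw [hn]
  have h23' : 2 + 3 = Module.finrank ℝ W' := by rw [hn']
  have h32' : 3 + 2 = Module.finrank ℝ W' := by rw [hn']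
  have h41' : 4 + 1 = Module.finrank ℝ W' := by rw [hn']
  obtain ⟨ν, hν⟩ := nodes (P := P.swap) (P' := P'.swap) (by omega) (by omega)
    (((dl P h32).symm.trans φ3).trans (dl P' h32'))
    (((dl P h23).symm.trans φ2).trans (dl P' h23')) (by
      intro f e
      obtain ⟨f0, rfl⟩ := (dl P h32).surjective f
      obtain ⟨e0, rfl⟩ := (dl P h23).surjective e
      simp only [Equiv.trans_apply, Equiv.symm_apply_apply]
      rw [dl_inc, dl_inc, h])
  refine ⟨((dl P h41).trans ν).trans (dl P' h41').symm, fun f F => ?_⟩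
  have h1 := hν (dl P h41 F) (dl P h32 f)
  simp only [Equiv.trans_apply, Equiv.symm_apply_apply] at h1 ⊢
  rw [dl_inc] at h1
  rw [h1]
  set X := ν (dl P h41 F) with hX
  have h2 := dl_inc (P := P') h32' h41' (φ3 f) ((dl P' h41').symm X)
  rw [Equiv.apply_symm_apply] at h2
  exact h2

theorem step (m k l : ℕ) (hkl : k + (m + 1) = l) (a : P.Lev k) (b : P.Lev l) :
    P.inc k l a b ↔ ∃ c : P.Lev (k + 1), P.inc k (k + 1) a c ∧ P.inc (k + 1) l c b := by
  constructor
  · intro hab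
    obtain ⟨C, hC, haC, hCb, hd⟩ := exists_cover a.cl b.cl hab (by
      intro heq
      have h1 := a.dim
      have h2 := b.dim
      rw [heq] at h1
      omega)
    exact ⟨⟨C, hC, by rw [hd, a.dim]⟩, haC, hCb⟩
  · rintro ⟨c, h1, h2⟩
    exact Finset.Subset.trans h1 h2

/-- a level-wise bijection that preserves incidences of consecutive levels preserves all -/
theorem graded (ψ : ∀ k, P.Lev k ≃ P'.Lev k)
    (h : ∀ k (a : P.Lev k) (b : P.Lev (k + 1)), P.inc k (k + 1) a b ↔ P'.inc k (k + 1) (ψ k a) (ψ (k + 1) b)) :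
    ∀ (k l : ℕ) (a : P.Lev k) (b : P.Lev l), P.inc k l a b ↔ P'.inc k l (ψ k a) (ψ l b) := by
  have key : ∀ (m k l : ℕ), k + m = l → ∀ (a : P.Lev k) (b : P.Lev l),
      (P.inc k l a b ↔ P'.inc k l (ψ k a) (ψ l b)) := by
    intro m
    induction m with
    | zero =>
      intro k l hkl a b
      have : k = l := by omega
      subst this
      constructor
      · intro hab
        have : a = b := Subtype.ext (eq_of_dm_le a.cl b.cl hab (by rw [a.dim, b.dim]))
        rw [this]; exact Finset.Subset.refl _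
      · intro hab
        have : ψ k a = ψ k b := Subtype.ext (eq_of_dm_le (ψ k a).cl (ψ k b).cl hab
          (by rw [(ψ k a).dim, (ψ k b).dim]))
        rw [(ψ k).injective this]; exact Finset.Subset.refl _
    | succ m ih =>
      intro k l hkl a b
      rw [step m k l hkl a b, step m k l hkl (ψ k a) (ψ l b)]
      constructor
      · rintro ⟨c, h1, h2⟩
        exact ⟨ψ (k + 1) c, (h k a c).1 h1, (ih (k + 1) l (by omega) c b).1 h2⟩
      · rintro ⟨c, h1, h2⟩
        obtain ⟨c, rfl⟩ := (ψ (k + 1)).surjective c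
        exact ⟨c, (h k a c).2 h1, (ih (k + 1) l (by omega) c b).2 h2⟩
  intro k l a b
  rcases le_or_gt k l with hkl | hkl
  · exact key (l - k) k l (by omega) a b
  · constructor
    · intro hab
      have := dm_mono hab
      rw [a.dim, b.dim] at this
      omega
    · intro hab
      have := dm_mono hab
      rw [(ψ k a).dim, (ψ l b).dim] at this
      omega

/-- the faces of positive dimension, all levels together -/
def Fc (P : CP W) : Type _ := {A : Finset W // P.Cl A ∧ 1 ≤ dm A}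

theorem lev0 (a : P.Lev 0) : a.1 = P.bot :=
  (eq_of_dm_le bot_cl a.cl (bot_le a.cl) (by rw [a.dim, dm_bot])).symm

theorem levtop (a : P.Lev (Module.finrank ℝ W)) : a.1 = P.V :=
  eq_of_dm_le a.cl top_cl a.cl.sub (by rw [a.dim, dm_top])

theorem levbig {k : ℕ} (hk : Module.finrank ℝ W < k) (a : P.Lev k) : False := by
  have h1 := dm_mono a.cl.sub
  rw [a.dim, dm_top] at h1
  omega

theorem extend (hn : Module.finrank ℝ W = 5) (hn' : Module.finrank ℝ W' = 5)
    (φ2 : P.Lev 2 ≃ P'.Lev 2) (φ3 : P.Lev 3 ≃ P'.Lev 3)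
    (h : ∀ e f, P.inc 2 3 e f ↔ P'.inc 2 3 (φ2 e) (φ3 f)) :
    ∃ ψ : ∀ k, P.Lev k ≃ P'.Lev k, ψ 2 = φ2 ∧ ψ 3 = φ3 ∧
      ∀ (k l : ℕ) (a : P.Lev k) (b : P.Lev l), P.inc k l a b ↔ P'.inc k l (ψ k a) (ψ l b) := by
  obtain ⟨ν, hν⟩ := nodes (P := P) (P' := P') (by omega) (by omega) φ2 φ3 h
  obtain ⟨μ, hμ⟩ := facets hn hn' φ2 φ3 h
  let ψ0 : P.Lev 0 ≃ P'.Lev 0 :=
    ⟨fun _ => ⟨P'.bot, bot_cl, dm_bot⟩, fun _ => ⟨P.bot, bot_cl, dm_bot⟩,
      fun a => Subtype.ext (lev0 a).symm, fun a => Subtype.ext (lev0 a).symm⟩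
  have t5 : ∀ a : P.Lev 5, a.1 = P.V := fun a =>
    eq_of_dm_le a.cl top_cl a.cl.sub (by rw [a.dim, dm_top, hn])
  have t5' : ∀ a : P'.Lev 5, a.1 = P'.V := fun a =>
    eq_of_dm_le a.cl top_cl a.cl.sub (by rw [a.dim, dm_top, hn'])
  let ψ5 : P.Lev 5 ≃ P'.Lev 5 :=
    ⟨fun _ => ⟨P'.V, top_cl, by rw [dm_top, hn']⟩, fun _ => ⟨P.V, top_cl, by rw [dm_top, hn]⟩,
      fun a => Subtype.ext (t5 a).symm, fun a => Subtype.ext (t5' a).symm⟩
  have e6 : ∀ k, P.Lev (k + 6) → False := fun k a => levbig (by omega) a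
  have e6' : ∀ k, P'.Lev (k + 6) → False := fun k a => levbig (by omega) a
  let ψ : ∀ k, P.Lev k ≃ P'.Lev k := fun k => match k with
    | 0 => ψ0
    | 1 => ν
    | 2 => φ2
    | 3 => φ3
    | 4 => μ
    | 5 => ψ5
    | (k + 6) => ⟨fun a => (e6 k a).elim, fun a => (e6' k a).elim, fun a => (e6 k a).elim,
        fun a => (e6' k a).elim⟩
  refine ⟨ψ, rfl, rfl, graded ψ ?_⟩
  intro k
  match k with
  | 0 =>
    intro a b
    have h1 : P.inc 0 1 a b := by
      change a.1 ⊆ b.1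
      rw [lev0 a]; exact bot_le b.cl
    have h2 : P'.inc 0 1 (ψ 0 a) (ψ 1 b) := by
      change (ψ 0 a).1 ⊆ (ψ 1 b).1
      rw [lev0 (ψ 0 a)]; exact bot_le (ψ 1 b).cl
    exact ⟨fun _ => h2, fun _ => h1⟩
  | 1 => exact hν
  | 2 => exact h
  | 3 => exact hμ
  | 4 =>
    intro a b
    have h1 : P.inc 4 5 a b := by
      change a.1 ⊆ b.1
      rw [t5 b]; exact a.cl.sub
    have h2 : P'.inc 4 5 (ψ 4 a) (ψ 5 b) := by
      change (ψ 4 a).1 ⊆ (ψ 5 b).1
      rw [t5' (ψ 5 b)]; exact (ψ 4 a).cl.sub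
    exact ⟨fun _ => h2, fun _ => h1⟩
  | (k + 5) =>
    intro a b
    exact (e6 k b).elim

end CP
end Pool.Agent.Helper715
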