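import Pool.Agent.Helper715.Grade

set_option autoImplicit false
set_option linter.unusedSectionVars false
set_option linter.unusedVariables false

namespace Pool.Agent.Helper715

open Finset

variable {E : Type*} [NormedAddCommGroup E] [InnerProductSpace ℝ E] [FiniteDimensional ℝ E]

/-- homogenisation -/
noncomputable def hm (x : E) : WithLp 2 (E × ℝ) := WithLp.toLp 2 (x, 1)

theorem hm_inj {x y : E} (h : hm x = hm y) : x = y := by
  have := congrArg (fun z => (WithLp.ofLp z).1) h
  simpa [hm] using this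

theorem inner_hm (w : WithLp 2 (E × ℝ)) (x : E) :
    inner ℝ w (hm x) = inner ℝ w.fst x + w.snd := by
  rw [hm, WithLp.prod_inner_apply]
  simp

theorem inner_hm_comb (w : WithLp 2 (E × ℝ)) {ι : Type*} (s : Finset ι) (c : ι → ℝ)
    (hc : ∑ i ∈ s, c i = 1) (p : ι → E) :
    inner ℝ w (hm (∑ i ∈ s, c i • p i)) = ∑ i ∈ s, c i * inner ℝ w (hm (p i)) := by
  simp only [inner_hm, inner_sum, real_inner_smul_right, mul_add, Finset.sum_add_distrib]
  rw [← Finset.sum_mul, hc, one_mul]

/-- linear functionals as inner products -/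
theorem dual_inner (l : StrongDual ℝ E) : ∃ g : E, ∀ x, l x = inner ℝ g x := by
  refine ⟨(InnerProductSpace.toDual ℝ E).symm l, fun x => ?_⟩
  rw [InnerProductSpace.toDual_symm_apply]

theorem finrank_hm : Module.finrank ℝ (WithLp 2 (E × ℝ)) = Module.finrank ℝ E + 1 := by
  rw [(WithLp.linearEquiv 2 ℝ (E × ℝ)).finrank_eq, Module.finrank_prod, Module.finrank_self]

theorem span_hm_top {S : Finset E} (hS : affineSpan ℝ (S : Set E) = ⊤) :
    Submodule.span ℝ (hm '' (S : Set E)) = ⊤ := by
  rw [← Submodule.orthogonal_eq_bot_iff, Submodule.eq_bot_iff]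
  intro w hw
  rw [Submodule.mem_orthogonal'] at hw
  have h1 : ∀ x ∈ affineSpan ℝ (S : Set E), inner ℝ w.fst x + w.snd = 0 := by
    intro x hx
    refine affineSpan_induction (p := fun x => inner ℝ w.fst x + w.snd = 0) hx ?_ ?_
    · intro a ha
      rw [← inner_hm]
      exact hw _ (Submodule.subset_span ⟨a, ha, rfl⟩)
    · intro c a b d ha hb hd
      simp only [vsub_eq_sub, vadd_eq_add]
      rw [inner_add_right, real_inner_smul_right, inner_sub_right]
      linear_combination c * ha - c * hb + hd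
  rw [hS] at h1
  have h0 := h1 0 (AffineSubspace.mem_top _ _ _)
  have h2 := h1 w.fst (AffineSubspace.mem_top _ _ _)
  rw [inner_zero_right, zero_add] at h0
  rw [h0, add_zero, inner_self_eq_zero] at h2
  have : WithLp.ofLp w = (0, 0) := Prod.ext h2 h0
  have h3 : w = WithLp.toLp 2 (WithLp.ofLp w) := rfl
  rw [h3, this]
  rfl

theorem cone_height {S : Set E} {w : WithLp 2 (E × ℝ)} (hw : w ∈ cone (hm '' S)) :
    0 ≤ w.snd ∧ (w.snd = 0 → w = 0) := by
  refine Submodule.span_induction (p := fun w _ => 0 ≤ w.snd ∧ (w.snd = 0 → w = 0)) ?_ ?_ ?_ ?_ hw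
  · rintro _ ⟨x, _, rfl⟩
    refine ⟨by simp [hm], fun h => ?_⟩
    simp [hm] at h
  · simp
  · rintro a b _ _ ⟨ha, ha'⟩ ⟨hb, hb'⟩
    refine ⟨by simpa using add_nonneg ha hb, fun h => ?_⟩
    have h' : a.snd + b.snd = 0 := by simpa using h
    rw [ha' (by linarith), hb' (by linarith), add_zero]
  · rintro c a _ ⟨ha, ha'⟩
    have hs : (c • a).snd = (c : ℝ) * a.snd := by
      rw [NNReal.smul_def]; simp
    refine ⟨by rw [hs]; exact mul_nonneg c.2 ha, fun h => ?_⟩
    rw [hs] at h
    rcases mul_eq_zero.1 h with h | h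
    · rw [NNReal.smul_def, h, zero_smul]
    · rw [ha' h, smul_zero]

/-- the cone pair of a polytope -/
theorem exists_CP (S : Finset E) (hS : affineSpan ℝ (S : Set E) = ⊤) :
    ∃ P : CP (WithLp 2 (E × ℝ)), (P.V : Set (WithLp 2 (E × ℝ))) = hm '' (S : Set E) := by
  classical
  obtain ⟨G, hG1, hG2⟩ := dual_fg (S.image hm)
  have hsV : Submodule.span ℝ ((S.image hm : Finset _) : Set (WithLp 2 (E × ℝ))) = ⊤ := by
    rw [Finset.coe_image]; exact span_hm_top hS
  refine ⟨⟨S.image hm, G, hG1, hG2, hsV, ?_⟩, by simp⟩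
  rw [← Submodule.orthogonal_eq_bot_iff, Submodule.eq_bot_iff]
  intro w hw
  rw [Submodule.mem_orthogonal] at hw
  have h0 : ∀ g ∈ G, inner ℝ g w = 0 := fun g hg => hw g (Submodule.subset_span hg)
  have h1 : w ∈ cone ((S.image hm : Finset _) : Set (WithLp 2 (E × ℝ))) := by
    rw [hG1]; intro g hg; rw [h0 g hg]
  have h2 : -w ∈ cone ((S.image hm : Finset _) : Set (WithLp 2 (E × ℝ))) := by
    rw [hG1]; intro g hg; rw [inner_neg_right, h0 g hg, neg_zero]
  rw [Finset.coe_image] at h1 h2
  have h3 := cone_height h1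
  have h4 := (cone_height h2).1
  have h5 : (-w).snd = - w.snd := by simp
  rw [h5] at h4
  exact h3.2 (by linarith [h3.1])

theorem mem_exposed_hull {T : Finset E} {F : Set E} (hF : IsExposed ℝ (convexHull ℝ (T : Set E)) F)
    {x : E} (hx : x ∈ F) : x ∈ convexHull ℝ ((T : Set E) ∩ F) := by
  classical
  obtain ⟨l, hl⟩ := hF ⟨x, hx⟩
  have hxT : x ∈ convexHull ℝ (T : Set E) := by rw [hl] at hx; exact hx.1
  have hmax : ∀ y ∈ convexHull ℝ (T : Set E), l y ≤ l x := by rw [hl] at hx; exact hx.2
  have hxT' := hxT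
  rw [Finset.mem_convexHull'] at hxT
  obtain ⟨w, hw0, hw1, hwx⟩ := hxT
  have hTF : ∀ t ∈ T, w t ≠ 0 → t ∈ F := by
    intro t ht hwt
    rw [hl]
    refine ⟨subset_convexHull ℝ _ ht, ?_⟩
    have h1 : ∑ t ∈ T, w t * (l x - l t) = 0 := by
      simp only [mul_sub, Finset.sum_sub_distrib, ← Finset.sum_mul, hw1, one_mul]
      have : l x = ∑ t ∈ T, w t * l t := by
        conv_lhs => rw [← hwx]
        simp
      rw [← this, sub_self]
    have h2 := (Finset.sum_eq_zero_iff_of_nonneg (fun t ht => mul_nonneg (hw0 t ht)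
      (sub_nonneg.2 (hmax t (subset_convexHull ℝ _ ht))))).1 h1 t ht
    have h3 : l x - l t = 0 := by
      rcases mul_eq_zero.1 h2 with h | h
      · exact absurd h hwt
      · exact h
    intro y hy
    have := hmax y hy
    linarith
  have hsub : convexHull ℝ ((T.filter fun t => t ∈ F : Finset E) : Set E) ⊆
      convexHull ℝ ((T : Set E) ∩ F) := by
    apply convexHull_mono
    intro t ht
    simpa using ht
  apply hsub
  rw [Finset.mem_convexHull']
  refine ⟨w, fun y hy => hw0 y (Finset.mem_of_mem_filter y hy), ?_, ?_⟩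
  · rw [← hw1, Finset.sum_filter]
    apply Finset.sum_congr rfl
    intro t ht
    by_cases h : t ∈ F
    · simp [h]
    · have : w t = 0 := by
        by_contra h0
        exact h (hTF t ht h0)
      simp [h, this]
  · rw [← hwx, Finset.sum_filter]
    apply Finset.sum_congr rfl
    intro t ht
    by_cases h : t ∈ F
    · simp [h]
    · have : w t = 0 := by
        by_contra h0
        exact h (hTF t ht h0)
      simp [h, this]

theorem exposed_eq_hull {T : Finset E} {F : Set E}
    (hF : IsExposed ℝ (convexHull ℝ (T : Set E)) F) : F = convexHull ℝ ((T : Set E) ∩ F) := by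
  apply Set.Subset.antisymm
  · intro x hx; exact mem_exposed_hull hF hx
  · apply convexHull_min Set.inter_subset_right
    exact hF.convex (convex_convexHull ℝ _)

/-- dimension of the homogenisation -/
theorem finrank_hm_span {A : Set E} (hA : A.Nonempty) :
    Module.finrank ℝ (Submodule.span ℝ (hm '' A)) = Module.finrank ℝ (vectorSpan ℝ A) + 1 := by
  obtain ⟨a0, ha0⟩ := hA
  let inl : E →ₗ[ℝ] WithLp 2 (E × ℝ) :=
    (WithLp.linearEquiv 2 ℝ (E × ℝ)).symm.toLinearMap ∘ₗ LinearMap.inl ℝ E ℝ
  have hinl : ∀ u, inl u = WithLp.toLp 2 (u, 0) := fun u => rfl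
  have hinj : Function.Injective inl := by
    intro u v h
    rw [hinl, hinl] at h
    have := congrArg (fun z => (WithLp.ofLp z).1) h
    simpa using this
  set U := vectorSpan ℝ A with hU
  have hhm : ∀ a, hm a = hm a0 + inl (a - a0) := by
    intro a
    rw [hinl, hm, hm, ← WithLp.toLp_add]
    congr 1
    ext <;> simp
  have h1 : Submodule.span ℝ (hm '' A) = Submodule.map inl U ⊔ Submodule.span ℝ {hm a0} := by
    apply le_antisymm
    · rw [Submodule.span_le]
      rintro _ ⟨a, ha, rfl⟩
      rw [hhm a, add_comm]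
      exact Submodule.add_mem_sup (Submodule.mem_map_of_mem (vsub_mem_vectorSpan ℝ ha ha0))
        (Submodule.mem_span_singleton_self _)
    · rw [sup_le_iff]
      constructor
      · rw [Submodule.map_le_iff_le_comap, hU, vectorSpan, Submodule.span_le]
        rintro _ ⟨a, ha, b, hb, rfl⟩
        have : inl (a - b) = hm a - hm b := by
          rw [hhm a, hhm b, add_sub_add_left_eq_sub, ← map_sub]
          congr 1
          abel
        simp only [vsub_eq_sub, Submodule.comap_coe, Set.mem_preimage, SetLike.mem_coe]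
        rw [this]
        exact Submodule.sub_mem _ (Submodule.subset_span ⟨a, ha, rfl⟩)
          (Submodule.subset_span ⟨b, hb, rfl⟩)
      · rw [Submodule.span_le, Set.singleton_subset_iff]
        exact Submodule.subset_span ⟨a0, ha0, rfl⟩
  have h2 : Submodule.map inl U ⊓ Submodule.span ℝ {hm a0} = ⊥ := by
    rw [Submodule.eq_bot_iff]
    rintro w ⟨hw1, hw2⟩
    obtain ⟨u, hu, rfl⟩ := hw1
    obtain ⟨t, ht⟩ := Submodule.mem_span_singleton.1 hw2
    have h3 := congrArg (fun z => (WithLp.ofLp z).2) ht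
    simp [hinl, hm] at h3
    rw [← ht, h3, zero_smul]
  have h3 := Submodule.finrank_sup_add_finrank_inf_eq (Submodule.map inl U)
    (Submodule.span ℝ {hm a0})
  have h4 : Module.finrank ℝ (Submodule.map inl U) = Module.finrank ℝ U :=
    (Submodule.equivMapOfInjective inl hinj U).finrank_eq.symm
  have h5 : hm a0 ≠ 0 := by
    intro h
    have := congrArg (fun z => (WithLp.ofLp z).2) h
    simp [hm] at this
  rw [h2, finrank_bot, add_zero, h4, finrank_span_singleton h5, ← h1] at h3
  exact h3

end Pool.Agent.Helper715
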