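import Pool.Agent.Helper715.Poly

set_option autoImplicit false
set_option linter.unusedSectionVars false
set_option linter.unusedVariables false

namespace Pool.Agent.Helper715

open Finset

variable {E : Type*} [NormedAddCommGroup E] [InnerProductSpace ℝ E] [FiniteDimensional ℝ E]

section corr

variable (P : CP (WithLp 2 (E × ℝ))) (S : Finset E)

/-- the face of the polytope given by a closed set -/
def toF (A : Finset (WithLp 2 (E × ℝ))) : Set E :=
  {x | x ∈ convexHull ℝ (S : Set E) ∧ inner ℝ (P.gs A) (hm x) = 0}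

open scoped Classical in
/-- the closed set given by a face of the polytope -/
noncomputable def toA (F : Set E) : Finset (WithLp 2 (E × ℝ)) :=
  P.V.filter (fun v => ∃ x ∈ F, hm x = v)

variable {P S}

theorem mem_toA {F : Set E} {v : WithLp 2 (E × ℝ)} :
    v ∈ toA P F ↔ v ∈ P.V ∧ ∃ x ∈ F, hm x = v := by
  classical
  rw [toA, Finset.mem_filter]

variable (hP : (P.V : Set (WithLp 2 (E × ℝ))) = hm '' (S : Set E))
include hP

theorem mem_V {v : WithLp 2 (E × ℝ)} : v ∈ P.V ↔ ∃ s ∈ S, hm s = v := by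
  rw [← Finset.mem_coe, hP]
  simp

theorem hm_mem_V {s : E} : hm s ∈ P.V ↔ s ∈ S := by
  rw [mem_V hP]
  constructor
  · rintro ⟨t, ht, h⟩
    rwa [← hm_inj h]
  · intro h; exact ⟨s, h, rfl⟩

theorem inner_hull_nonneg {w : WithLp 2 (E × ℝ)} (hw : ∀ v ∈ P.V, 0 ≤ inner ℝ w v) {x : E}
    (hx : x ∈ convexHull ℝ (S : Set E)) : 0 ≤ inner ℝ w (hm x) := by
  rw [Finset.mem_convexHull'] at hx
  obtain ⟨c, hc0, hc1, rfl⟩ := hx
  rw [inner_hm_comb w S c hc1 (fun y => y)]
  exact Finset.sum_nonneg fun s hs => mul_nonneg (hc0 s hs) (hw _ ((hm_mem_V hP).2 hs))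

theorem gs_hull_nonneg (A : Finset (WithLp 2 (E × ℝ))) {x : E}
    (hx : x ∈ convexHull ℝ (S : Set E)) : 0 ≤ inner ℝ (P.gs A) (hm x) :=
  inner_hull_nonneg hP (fun v hv => CP.gs_nonneg A hv) hx

theorem toF_mono {A B : Finset (WithLp 2 (E × ℝ))} (h : A ⊆ B) : toF P S A ⊆ toF P S B := by
  rintro x ⟨hx, h0⟩
  refine ⟨hx, ?_⟩
  rw [CP.gs, sum_inner] at h0 ⊢
  have h1 : ∀ g ∈ perp P.G A, inner ℝ g (hm x) = 0 := by
    apply (Finset.sum_eq_zero_iff_of_nonneg _).1 h0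
    intro g hg
    exact inner_hull_nonneg hP (fun v hv => P.nn hv (perp_sub _ _ hg)) hx
  exact Finset.sum_eq_zero fun g hg => h1 g (perp_anti h hg)

theorem toF_exposed (A : Finset (WithLp 2 (E × ℝ))) :
    IsExposed ℝ (convexHull ℝ (S : Set E)) (toF P S A) := by
  rintro ⟨y0, hy0, hy00⟩
  refine ⟨-(innerSL ℝ (P.gs A).fst), ?_⟩
  ext x
  constructor
  · rintro ⟨hx, h0⟩
    refine ⟨hx, fun y hy => ?_⟩
    have h1 := gs_hull_nonneg hP A hy
    rw [inner_hm] at h0 h1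
    simp only [neg_apply, innerSL_apply_apply]
    linarith
  · rintro ⟨hx, h⟩
    refine ⟨hx, ?_⟩
    have h1 := gs_hull_nonneg hP A hx
    have h2 := h y0 hy0
    rw [inner_hm] at hy00 h1 ⊢
    simp only [neg_apply, innerSL_apply_apply] at h2
    linarith

theorem toA_toF {A : Finset (WithLp 2 (E × ℝ))} (hA : P.Cl A) : toA P (toF P S A) = A := by
  ext v
  rw [mem_toA]
  constructor
  · rintro ⟨hv, x, ⟨hx, h0⟩, rfl⟩
    by_contra hcon
    have := CP.gs_pos hA hv hcon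
    linarith
  · intro hv
    have hvV := hA.sub hv
    obtain ⟨s, hs, rfl⟩ := (mem_V hP).1 hvV
    exact ⟨hvV, s, ⟨subset_convexHull ℝ _ hs, CP.gs_zero hv⟩, rfl⟩

theorem toA_mono {F G : Set E} (h : F ⊆ G) : toA P F ⊆ toA P G := by
  intro v hv
  rw [mem_toA] at hv ⊢
  obtain ⟨hv, x, hx, rfl⟩ := hv
  exact ⟨hv, x, h hx, rfl⟩

theorem toF_nonempty {A : Finset (WithLp 2 (E × ℝ))} (hA : P.Cl A) (hd : 1 ≤ dm A) :
    (toF P S A).Nonempty := by
  have : A.Nonempty := by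
    rw [Finset.nonempty_iff_ne_empty]
    rintro rfl
    simp [dm] at hd
  obtain ⟨v, hv⟩ := this
  rw [← toA_toF hP hA, mem_toA] at hv
  obtain ⟨_, x, hx, _⟩ := hv
  exact ⟨x, hx⟩

/-- the functional that exposes a face -/
theorem exposing {F : Set E} (hF : IsExposed ℝ (convexHull ℝ (S : Set E)) F) (hne : F.Nonempty) :
    ∃ z : WithLp 2 (E × ℝ), (∀ v ∈ P.V, 0 ≤ inner ℝ z v) ∧
      (∀ x ∈ convexHull ℝ (S : Set E), (inner ℝ z (hm x) = 0 ↔ x ∈ F)) := by
  obtain ⟨l, hl⟩ := hF hne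
  obtain ⟨x0, hx0⟩ := hne
  rw [hl] at hx0
  obtain ⟨g, hg⟩ := dual_inner l
  have hz : ∀ x, inner ℝ (WithLp.toLp 2 (-g, l x0) : WithLp 2 (E × ℝ)) (hm x) = l x0 - l x := by
    intro x
    rw [inner_hm]
    change inner ℝ (-g) x + l x0 = l x0 - l x
    rw [inner_neg_left, ← hg]
    ring
  refine ⟨WithLp.toLp 2 (-g, l x0), ?_, ?_⟩
  · intro v hv
    obtain ⟨s, hs, rfl⟩ := (mem_V hP).1 hv
    rw [hz]
    linarith [hx0.2 s (subset_convexHull ℝ _ hs)]
  · intro x hx
    rw [hz, hl]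
    constructor
    · intro h
      refine ⟨hx, fun y hy => ?_⟩
      linarith [hx0.2 y hy]
    · rintro ⟨_, h⟩
      linarith [hx0.2 x hx, h x0 hx0.1]

theorem toA_cl {F : Set E} (hF : IsExposed ℝ (convexHull ℝ (S : Set E)) F) (hne : F.Nonempty) :
    P.Cl (toA P F) := by
  obtain ⟨z, hz1, hz2⟩ := exposing hP hF hne
  apply CP.Cl_filter (CP.top_cl) (z := z) hz1
  intro v
  rw [mem_toA]
  constructor
  · rintro ⟨hv, x, hx, rfl⟩
    refine ⟨hv, ?_⟩
    rw [hz2 x (hF.subset hx)]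
    exact hx
  · rintro ⟨hv, h0⟩
    obtain ⟨s, hs, rfl⟩ := (mem_V hP).1 hv
    exact ⟨hv, s, (hz2 s (subset_convexHull ℝ _ hs)).1 h0, rfl⟩

theorem toF_toA {F : Set E} (hF : IsExposed ℝ (convexHull ℝ (S : Set E)) F) (hne : F.Nonempty) :
    toF P S (toA P F) = F := by
  have hcl := toA_cl hP hF hne
  apply Set.Subset.antisymm
  · rintro x ⟨hx, h0⟩
    rw [Finset.mem_convexHull'] at hx
    obtain ⟨c, hc0, hc1, rfl⟩ := hx
    rw [inner_hm_comb _ S c hc1 (fun y => y)] at h0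
    have h1 := (Finset.sum_eq_zero_iff_of_nonneg (fun s hs => mul_nonneg (hc0 s hs)
      (CP.gs_nonneg (P := P) (toA P F) ((hm_mem_V hP).2 hs)))).1 h0
    obtain ⟨z, hz1, hz2⟩ := exposing hP hF hne
    have hx : (∑ s ∈ S, c s • s) ∈ convexHull ℝ (S : Set E) := by
      rw [Finset.mem_convexHull']
      exact ⟨c, hc0, hc1, rfl⟩
    rw [← hz2 _ hx, inner_hm_comb _ S c hc1 (fun y => y)]
    apply Finset.sum_eq_zero
    intro s hs
    rcases mul_eq_zero.1 (h1 s hs) with h | h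
    · rw [h, zero_mul]
    · have hsA : hm s ∈ toA P F := by
        by_contra hcon
        have := CP.gs_pos hcl ((hm_mem_V hP).2 hs) hcon
        linarith
      rw [mem_toA] at hsA
      obtain ⟨_, y, hy, hys⟩ := hsA
      have hsF : s ∈ F := by rwa [← hm_inj hys]
      rw [(hz2 s (subset_convexHull ℝ _ hs)).2 hsF, mul_zero]
  · intro x hx
    have h1 := mem_exposed_hull hF hx
    have h2 : convexHull ℝ ((S : Set E) ∩ F) ⊆ toF P S (toA P F) := by
      apply convexHull_min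
      · rintro s ⟨hs, hsF⟩
        refine ⟨subset_convexHull ℝ _ hs, CP.gs_zero ?_⟩
        rw [mem_toA]
        exact ⟨(hm_mem_V hP).2 hs, s, hsF, rfl⟩
      · exact (toF_exposed hP _).convex (convex_convexHull ℝ _)
    exact h2 h1

theorem sub_iff {F G : Set E} (hF : IsExposed ℝ (convexHull ℝ (S : Set E)) F) (hne : F.Nonempty)
    (hG : IsExposed ℝ (convexHull ℝ (S : Set E)) G) (hne' : G.Nonempty) :
    toA P F ⊆ toA P G ↔ F ⊆ G := by
  constructor
  · intro h
    have := toF_mono hP h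
    rwa [toF_toA hP hF hne, toF_toA hP hG hne'] at this
  · exact toA_mono hP

theorem dm_toA {F : Set E} (hF : IsExposed ℝ (convexHull ℝ (S : Set E)) F) (hne : F.Nonempty) :
    dm (toA P F) = Module.finrank ℝ (affineSpan ℝ F).direction + 1 := by
  have h1 : (toA P F : Set (WithLp 2 (E × ℝ))) = hm '' ((S : Set E) ∩ F) := by
    ext v
    rw [Finset.mem_coe, mem_toA, Set.mem_image]
    constructor
    · rintro ⟨hv, x, hx, rfl⟩
      exact ⟨x, ⟨(hm_mem_V hP).1 hv, hx⟩, rfl⟩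
    · rintro ⟨x, ⟨hx, hxF⟩, rfl⟩
      exact ⟨(hm_mem_V hP).2 hx, x, hxF, rfl⟩
  have h2 : ((S : Set E) ∩ F).Nonempty := by
    by_contra hcon
    rw [Set.not_nonempty_iff_eq_empty] at hcon
    obtain ⟨x, hx⟩ := hne
    have := mem_exposed_hull hF hx
    rw [hcon, convexHull_empty] at this
    exact this
  have h3 : (affineSpan ℝ F).direction = vectorSpan ℝ ((S : Set E) ∩ F) := by
    conv_lhs => rw [exposed_eq_hull hF, affineSpan_convexHull, direction_affineSpan]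
  rw [dm, h1, finrank_hm_span h2, h3]

end corr
end Pool.Agent.Helper715
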