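import Pool.Agent.Helper715.Poly2

set_option autoImplicit false
set_option linter.unusedSectionVars false
set_option linter.unusedVariables false

namespace Pool.Agent.Helper715

open Finset

variable {W : Type*} [NormedAddCommGroup W] [InnerProductSpace ℝ W] [FiniteDimensional ℝ W]

namespace CP

variable {P P' : CP W}

/-- coatoms avoiding a given vertex -/
theorem coatom_avoid {A B : Finset W} (hA : P.Cl A) (hB : P.Cl B) (hAB : A ⊆ B) {v : W}
    (hv : v ∈ B) (hvA : v ∉ A) : ∃ C, P.Cl C ∧ A ⊆ C ∧ C ⊆ B ∧ dm C + 1 = dm B ∧ v ∉ C := by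
  obtain ⟨g, hg, hpos⟩ := exists_pos hA (hB.sub hv) hvA
  obtain ⟨D, hD, h1, h2, h3, g', hg', hpos'⟩ := cover_up (P := P.swap) (Cl_perp hB.sub)
    (Cl_perp hA.sub) (perp_anti hAB) (y := v)
    (fun a ha => by rw [real_inner_comm]; exact (mem_perp.1 ha).2 v hv)
    ⟨g, hg, by rw [real_inner_comm]; exact hpos⟩
  have hD' : D ⊆ P.G := hD.sub
  have e1 := dm_add hB
  have e2 := dm_add hD
  simp only [swap_G] at e2
  refine ⟨perp P.V D, Cl_perpV hD', ?_, ?_, by omega, ?_⟩
  · have hA' : perp P.V (perp P.G A) = A := hA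
    rw [← hA']
    exact perp_anti h2
  · have hB' : perp P.V (perp P.G B) = B := hB
    rw [← hB']
    exact perp_anti h1
  · intro hcon
    have := (mem_perp.1 hcon).2 g' hg'
    rw [this] at hpos'
    exact lt_irrefl _ hpos'

/-- closed sets of every intermediate dimension -/
theorem between {A B : Finset W} (hA : P.Cl A) (hB : P.Cl B) (hAB : A ⊆ B) (n : ℕ)
    (h1 : dm A ≤ n) (h2 : n ≤ dm B) : ∃ C, P.Cl C ∧ A ⊆ C ∧ C ⊆ B ∧ dm C = n := by
  induction hk : n - dm A generalizing A with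
  | zero => exact ⟨A, hA, Finset.Subset.refl _, hAB, by omega⟩
  | succ m ih =>
    obtain ⟨C, hC, h3, h4, h5⟩ := exists_cover hA hB hAB (by rintro rfl; omega)
    obtain ⟨D, hD, h6, h7, h8⟩ := ih hC h4 (by omega) (by omega)
    exact ⟨D, hD, h3.trans h6, h7, h8⟩

/-- closed sets of a given dimension avoiding a vertex -/
theorem avoid_dim {A B : Finset W} (hA : P.Cl A) (hB : P.Cl B) (hAB : A ⊆ B) {v : W}
    (hv : v ∈ B) (hvA : v ∉ A) (n : ℕ) (h1 : dm A ≤ n) (h2 : n + 1 ≤ dm B) :
    ∃ C, P.Cl C ∧ A ⊆ C ∧ C ⊆ B ∧ dm C = n ∧ v ∉ C := by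
  obtain ⟨C, hC, h3, h4, h5, h6⟩ := coatom_avoid hA hB hAB hv hvA
  obtain ⟨D, hD, h7, h8, h9⟩ := between hA hC h3 n h1 (by omega)
  exact ⟨D, hD, h7, h8.trans h4, h9, fun h => h6 (h8 h)⟩

/-- `P'` is obtained from `P` by pulling the vertex `v` to `v'`. -/
structure Pull [DecidableEq W] (P P' : CP W) (v v' : W) : Prop where
  mem : v ∈ P.V
  V : P'.V = insert v' (P.V.erase v)
  pos : ∀ A, P.Cl A → v ∉ A → 0 < inner ℝ (P.gs A) v'
  neg : ∀ A, P.Cl A → v ∈ A → A ≠ P.V → inner ℝ (P.gs A) v' < 0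

section pull

variable [DecidableEq W] {v v' : W} (H : Pull P P' v v')
include H

theorem Pull.notMem {F : Finset W} (hF : P.Cl F) (hv : v ∈ F) (hne : F ≠ P.V) : v' ∉ P.V := by
  intro h
  have h1 := H.neg F hF hv hne
  have h2 := gs_nonneg (P := P) F h
  linarith

/-- old faces -/
theorem Pull.old {A : Finset W} (hA : P.Cl A) (hv : v ∉ A) : P'.Cl A := by
  apply Cl_filter (top_cl : P'.Cl P'.V) (z := P.gs A)
  · intro u hu
    rw [H.V, Finset.mem_insert, Finset.mem_erase] at hu
    rcases hu with rfl | hu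
    · exact (H.pos A hA hv).le
    · exact gs_nonneg A hu.2
  · intro u
    rw [H.V, Finset.mem_insert, Finset.mem_erase]
    constructor
    · intro hu
      exact ⟨Or.inr ⟨fun h => hv (h ▸ hu), hA.sub hu⟩, gs_zero hu⟩
    · rintro ⟨rfl | hu, h0⟩
      · have := H.pos A hA hv
        linarith
      · by_contra hcon
        have := gs_pos hA hu.2 hcon
        linarith

/-- new faces -/
theorem Pull.new {B F : Finset W} (hB : P.Cl B) (hv : v ∉ B) (hF : P.Cl F) (hBF : B ⊆ F)
    (hvF : v ∈ F) (hne : F ≠ P.V) : P'.Cl (insert v' B) := by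
  have hp := H.pos B hB hv
  have hn := H.neg F hF hvF hne
  set t : ℝ := inner ℝ (P.gs B) v' / (-inner ℝ (P.gs F) v') with ht
  have ht0 : 0 < t := div_pos hp (by linarith)
  have hz : ∀ u, inner ℝ (P.gs B + t • P.gs F) u =
      inner ℝ (P.gs B) u + t * inner ℝ (P.gs F) u := fun u => by
    rw [inner_add_left, real_inner_smul_left]
  have hv'0 : inner ℝ (P.gs B + t • P.gs F) v' = 0 := by
    rw [hz, ht, div_neg, neg_mul, div_mul_cancel₀ _ hn.ne, add_neg_cancel]
  apply Cl_filter (top_cl : P'.Cl P'.V) (z := P.gs B + t • P.gs F)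
  · intro u hu
    rw [H.V, Finset.mem_insert, Finset.mem_erase] at hu
    rcases hu with rfl | hu
    · exact hv'0.ge
    · rw [hz]
      have h1 := gs_nonneg (P := P) B hu.2
      have h2 := gs_nonneg (P := P) F hu.2
      positivity
  · intro u
    rw [H.V, Finset.mem_insert, Finset.mem_insert, Finset.mem_erase]
    constructor
    · rintro (rfl | hu)
      · exact ⟨Or.inl rfl, hv'0⟩
      · refine ⟨Or.inr ⟨fun h => hv (h ▸ hu), hB.sub hu⟩, ?_⟩
        rw [hz, gs_zero hu, gs_zero (hBF hu), mul_zero, add_zero]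
    · rintro ⟨rfl | hu, h0⟩
      · exact Or.inl rfl
      · right
        by_contra hcon
        have h1 := gs_pos hB hu.2 hcon
        have h2 := gs_nonneg (P := P) F hu.2
        rw [hz] at h0
        have h3 := mul_nonneg ht0.le h2
        linarith

omit H in
theorem dm_insert_le (B : Finset W) (x : W) : dm (insert x B) ≤ dm B + 1 := by
  rw [dm, dm, Finset.coe_insert, Submodule.span_insert]
  refine (Submodule.finrank_add_le_finrank_add_finrank _ _).trans ?_
  have := finrank_span_le_card (R := ℝ) ({x} : Set W)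
  simp only [Set.toFinset_singleton, Finset.card_singleton] at this
  omega

theorem Pull.new_dm {B F : Finset W} (hB : P.Cl B) (hv : v ∉ B) (hF : P.Cl F) (hBF : B ⊆ F)
    (hvF : v ∈ F) (hne : F ≠ P.V) : dm (insert v' B) = dm B + 1 := by
  have h1 := dm_lt (H.old hB hv) (H.new hB hv hF hBF hvF hne) (Finset.subset_insert _ _) (by
    intro h
    have : v' ∈ B := by rw [h]; exact Finset.mem_insert_self _ _
    exact H.notMem hF hvF hne (hB.sub this))
  have h2 := dm_insert_le B v'
  omega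

end pull

/-- If pulling `v` does not increase the number of faces, then all cones with apex `v` are faces. -/
theorem pull_main [DecidableEq W] {v v' : W} (H : Pull P P' v v') {k : ℕ}
    (hk : k + 1 < Module.finrank ℝ W)
    (hcard : Nat.card (P'.Lev (k + 1)) ≤ Nat.card (P.Lev (k + 1)))
    (hat : ∀ u ∈ P.V, P.Cl {u})
    {B F : Finset W} (hB : P.Cl B) (hdB : dm B = k) (hvB : v ∉ B) (hF : P.Cl F) (hBF : B ⊆ F)
    (hvF : v ∈ F) (hne : F ≠ P.V) : P.Cl (insert v B) ∧ dm (insert v B) = k + 1 := by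
  classical
  have hproper : ∀ K : P.Lev (k + 1), K.1 ≠ P.V := by
    intro K h
    have := K.dim
    rw [h, dm_top] at this
    omega
  have hC : ∀ K : P.Lev (k + 1), v ∈ K.1 → ∃ C, P.Cl C ∧ C ⊆ K.1 ∧ dm C = k ∧ v ∉ C := by
    intro K hv
    have hvb : v ∉ P.bot := by
      intro h
      have h1 : v = 0 := mem_bot h
      have h2 := H.neg K.1 K.cl hv (hproper K)
      have h3 := H.pos P.bot bot_cl
      have h4 : P.Cl ({v} : Finset W) := hat v H.mem
      have h5 : P.bot = {v} := by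
        apply Finset.Subset.antisymm (bot_le h4)
        intro u hu
        rw [Finset.mem_singleton] at hu
        rw [hu]; exact h
      -- `v = 0` lies in every closed set
      have hB' : v ∈ B := bot_le hB h
      exact hvB hB'
    obtain ⟨C, hC, _, h2, h3, h4⟩ := coatom_avoid bot_cl K.cl (bot_le K.cl) hv hvb
    refine ⟨C, hC, h2, ?_, h4⟩
    rw [K.dim] at h3
    omega
  choose C hC1 hC2 hC3 hC4 using hC
  let f : P.Lev (k + 1) → P'.Lev (k + 1) := fun K =>
    if h : v ∈ K.1 then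
      ⟨insert v' (C K h), H.new (hC1 K h) (hC4 K h) K.cl (hC2 K h) h (hproper K), by
        rw [H.new_dm (hC1 K h) (hC4 K h) K.cl (hC2 K h) h (hproper K), hC3 K h]⟩
    else ⟨K.1, H.old K.cl h, K.dim⟩
  have hv' : v' ∉ P.V := H.notMem hF hvF hne
  have f1 : ∀ (K : P.Lev (k + 1)) (h : v ∈ K.1), (f K).1 = insert v' (C K h) := by
    intro K h
    exact congrArg Subtype.val (dif_pos h)
  have f2 : ∀ (K : P.Lev (k + 1)) (h : v ∉ K.1), (f K).1 = K.1 := by
    intro K h
    exact congrArg Subtype.val (dif_neg h)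
  have hcov : ∀ (K K' : P.Lev (k + 1)) (D : Finset W), P.Cl D → dm D = k → v ∉ D → v ∈ K.1 →
      v ∈ K'.1 → D ⊆ K.1 → D ⊆ K'.1 → K = K' := by
    intro K K' D hD hdD hvD h1 h2 h3 h4
    exact Subtype.ext (cover_eq hD K.cl K'.cl h3 h4 (by rw [K.dim, hdD]) (by rw [K'.dim, hdD]) h1
      hvD h2)
  have finj : Function.Injective f := by
    intro K K' h
    have h0 := congrArg Subtype.val h
    by_cases h1 : v ∈ K.1
    · by_cases h2 : v ∈ K'.1
      · rw [f1 K h1, f1 K' h2] at h0
        have h3 : C K h1 = C K' h2 := by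
          have e1 : v' ∉ C K h1 := fun h => hv' ((hC1 K h1).sub h)
          have e2 : v' ∉ C K' h2 := fun h => hv' ((hC1 K' h2).sub h)
          rw [← Finset.erase_insert e1, ← Finset.erase_insert e2, h0]
        exact hcov K K' (C K h1) (hC1 K h1) (hC3 K h1) (hC4 K h1) h1 h2 (hC2 K h1)
          (h3 ▸ hC2 K' h2)
      · rw [f1 K h1, f2 K' h2] at h0
        exact absurd (K'.cl.sub (h0 ▸ Finset.mem_insert_self _ _)) hv'
    · by_cases h2 : v ∈ K'.1
      · rw [f2 K h1, f1 K' h2] at h0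
        exact absurd (K.cl.sub (h0 ▸ Finset.mem_insert_self _ _)) hv'
      · rw [f2 K h1, f2 K' h2] at h0
        exact Subtype.ext h0
  have fsurj : Function.Surjective f := (finj.bijective_of_nat_card_le hcard).2
  -- every candidate is hit
  have key : ∀ D F' : Finset W, P.Cl D → dm D = k → v ∉ D → P.Cl F' → D ⊆ F' → v ∈ F' → F' ≠ P.V →
      ∃ (K : P.Lev (k + 1)) (h : v ∈ K.1), C K h = D := by
    intro D F' hD hdD hvD hF' hDF' hvF' hne'
    obtain ⟨K, hK⟩ := fsurj ⟨insert v' D, H.new hD hvD hF' hDF' hvF' hne', by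
      rw [H.new_dm hD hvD hF' hDF' hvF' hne', hdD]⟩
    have h0 := congrArg Subtype.val hK
    by_cases h1 : v ∈ K.1
    · refine ⟨K, h1, ?_⟩
      rw [f1 K h1] at h0
      have e1 : v' ∉ C K h1 := fun h => hv' ((hC1 K h1).sub h)
      have e2 : v' ∉ D := fun h => hv' (hD.sub h)
      rw [← Finset.erase_insert e1, ← Finset.erase_insert e2, h0]
    · rw [f2 K h1] at h0
      exact absurd (K.cl.sub (h0 ▸ Finset.mem_insert_self _ _)) hv'
  obtain ⟨K, hvK, hK⟩ := key B F hB hdB hvB hF hBF hvF hne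
  have hBK : B ⊆ K.1 := hK ▸ hC2 K hvK
  have hKe : K.1 = insert v B := by
    apply Finset.Subset.antisymm
    · intro u hu
      rw [Finset.mem_insert]
      by_contra hcon
      push Not at hcon
      have hcl : P.Cl {u} := hat u (K.cl.sub hu)
      obtain ⟨D, hD, h1, h2, h3, h4⟩ := coatom_avoid hcl K.cl (Finset.singleton_subset_iff.2 hu)
        hvK (by rw [Finset.mem_singleton]; exact fun h => hcon.1 h.symm)
      have hdD : dm D = k := by
        rw [K.dim] at h3
        omega
      obtain ⟨K', hvK', hK'⟩ := key D K.1 hD hdD h4 K.cl h2 hvK (hproper K)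
      have h5 : K' = K := hcov K' K D hD hdD h4 hvK' hvK (hK' ▸ hC2 K' hvK') h2
      subst h5
      have h6 : B = D := by rw [← hK, ← hK']
      have h7 : u ∈ D := h1 (Finset.mem_singleton_self u)
      rw [← h6] at h7
      exact hcon.2 h7
    · rw [Finset.insert_subset_iff]
      exact ⟨hvK, hBK⟩
  rw [← hKe]
  exact ⟨K.cl, K.dim⟩

end CP
end Pool.Agent.Helper715
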