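import Pool.Agent.Helper715.Pull

set_option autoImplicit false
set_option linter.unusedSectionVars false
set_option linter.unusedVariables false

namespace Pool.Agent.Helper715

open Finset

variable {W : Type*} [NormedAddCommGroup W] [InnerProductSpace ℝ W] [FiniteDimensional ℝ W]

namespace CP

variable {P : CP W} [DecidableEq W]

theorem cone_face {k : ℕ} {F : Finset W} (hF : P.Cl F) (hk : k + 1 ≤ dm F)
    (main : ∀ (B : Finset W) (v : W), P.Cl B → dm B = k → v ∉ B → B ⊆ F → v ∈ F →
      P.Cl (insert v B) ∧ dm (insert v B) = k + 1)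
    {A : Finset W} (hA : P.Cl A) (hAF : A ⊆ F) (hd : dm A ≤ k) {v : W} (hv : v ∈ F)
    (hvA : v ∉ A) : P.Cl (insert v A) ∧ dm (insert v A) = dm A + 1 := by
  obtain ⟨B, hB, h1, h2, h3, h4⟩ := avoid_dim hA hF hAF hv hvA k hd hk
  obtain ⟨hK, _⟩ := main B v hB h3 h4 h2 hv
  have hp := gs_pos hB (hF.sub hv) h4
  set t : ℝ := inner ℝ (P.gs A) v / inner ℝ (P.gs B) v with ht
  have hz : ∀ u, inner ℝ (P.gs A - t • P.gs B) u =
      inner ℝ (P.gs A) u - t * inner ℝ (P.gs B) u := fun u => by
    rw [inner_sub_left, real_inner_smul_left]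
  have hv0 : inner ℝ (P.gs A - t • P.gs B) v = 0 := by
    rw [hz, ht, div_mul_cancel₀ _ hp.ne', sub_self]
  have hcl : P.Cl (insert v A) := by
    apply Cl_filter hK (z := P.gs A - t • P.gs B)
    · intro u hu
      rcases Finset.mem_insert.1 hu with rfl | hu
      · exact hv0.ge
      · rw [hz, gs_zero hu, mul_zero, sub_zero]
        exact gs_nonneg A (hB.sub hu)
    · intro u
      rw [Finset.mem_insert, Finset.mem_insert]
      constructor
      · rintro (rfl | hu)
        · exact ⟨Or.inl rfl, hv0⟩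
        · refine ⟨Or.inr (h1 hu), ?_⟩
          rw [hz, gs_zero hu, gs_zero (h1 hu), mul_zero, sub_zero]
      · rintro ⟨rfl | hu, h0⟩
        · exact Or.inl rfl
        · right
          by_contra hcon
          have := gs_pos hA (hB.sub hu) hcon
          rw [hz, gs_zero hu, mul_zero, sub_zero] at h0
          linarith
  refine ⟨hcl, ?_⟩
  have h5 := dm_lt hA hcl (Finset.subset_insert _ _) (by
    intro h
    apply hvA
    rw [h]
    exact Finset.mem_insert_self _ _)
  have h6 := dm_insert_le A v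
  omega

theorem neighborly {k : ℕ} {F : Finset W} (hF : P.Cl F) (hk : k + 1 ≤ dm F)
    (main : ∀ (B : Finset W) (v : W), P.Cl B → dm B = k → v ∉ B → B ⊆ F → v ∈ F →
      P.Cl (insert v B) ∧ dm (insert v B) = k + 1) (h0 : (0 : W) ∉ P.V)
    (T : Finset W) (hT : T ⊆ F) (hcard : T.card ≤ k + 1) : P.Cl T ∧ dm T = T.card := by
  induction T using Finset.induction_on with
  | empty =>
    have hb : P.bot = ∅ := by
      rw [Finset.eq_empty_iff_forall_notMem]
      intro v hv
      have h1 := mem_bot hv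
      exact h0 (h1 ▸ bot_cl.sub hv)
    have h1 : P.Cl P.bot := bot_cl
    rw [hb] at h1
    exact ⟨h1, by simp [dm]⟩
  | insert v T hvT ih =>
    rw [Finset.card_insert_of_notMem hvT] at hcard ⊢
    rw [Finset.insert_subset_iff] at hT
    obtain ⟨h1, h2⟩ := ih hT.2 (by omega)
    have h3 := cone_face hF hk main h1 hT.2 (by omega) hT.1 hvT
    exact ⟨h3.1, by rw [h3.2, h2]⟩

omit [DecidableEq W] in
theorem radon_aux {F : Finset W} (hF : F ⊆ P.V) (c : W → ℝ) (hc : ∑ u ∈ F, c u • u = 0)
    (hneg : ∃ u ∈ F, c u < 0) (hT : ∀ T ⊆ F, (∀ u ∈ F, u ∈ T ↔ 0 < c u) → P.Cl T) : False := by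
  classical
  have hcl := hT (F.filter (fun u => 0 < c u)) (Finset.filter_subset _ _) (by
    intro u hu
    simp [hu])
  set T := F.filter (fun u => 0 < c u) with hTdef
  have h1 : ∑ u ∈ F, c u * inner ℝ (P.gs T) u = 0 := by
    have := congrArg (fun x => inner ℝ (P.gs T) x) hc
    simpa [inner_sum, real_inner_smul_right] using this
  have h2 : ∑ u ∈ F, c u * inner ℝ (P.gs T) u < 0 := by
    apply Finset.sum_neg'
    · intro u hu
      by_cases hcu : 0 < c u
      · have : u ∈ T := by rw [hTdef, Finset.mem_filter]; exact ⟨hu, hcu⟩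
        rw [gs_zero this, mul_zero]
      · exact mul_nonpos_of_nonpos_of_nonneg (not_lt.1 hcu) (gs_nonneg T (hF hu))
    · obtain ⟨u, hu, hcu⟩ := hneg
      refine ⟨u, hu, mul_neg_of_neg_of_pos hcu (gs_pos hcl (hF hu) ?_)⟩
      rw [hTdef, Finset.mem_filter]
      rintro ⟨_, h⟩
      exact absurd hcu (not_lt.2 h.le)
  linarith

omit [DecidableEq W] in
theorem radon {n : ℕ} {F : Finset W} (hF : F ⊆ P.V) (hd : dm F ≤ n) (hcard : n < F.card)
    {w : W} (hw : ∀ u ∈ F, 0 < inner ℝ w u)
    (hT : ∀ T ⊆ F, 2 * T.card ≤ n + 1 → P.Cl T) : False := by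
  classical
  obtain ⟨F', hF', hc'⟩ := Finset.exists_subset_card_eq (show n + 1 ≤ F.card by omega)
  have hnl : ¬ LinearIndepOn ℝ id (F' : Set W) := by
    intro hli
    have h1 := finrank_span_finset_eq_card (R := ℝ) hli
    have h2 : dm F' ≤ dm F := dm_mono hF'
    rw [dm, h1, hc'] at h2
    omega
  rw [linearIndepOn_finset_iff] at hnl
  push Not at hnl
  obtain ⟨c, hc, u0, hu0, hcu0⟩ := hnl
  simp only [id] at hc
  have hsum : ∑ u ∈ F', c u * inner ℝ w u = 0 := by
    have := congrArg (fun x => inner ℝ w x) hc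
    simpa [inner_sum, real_inner_smul_right] using this
  have hposneg : (∃ u ∈ F', 0 < c u) ∧ (∃ u ∈ F', c u < 0) := by
    constructor
    · by_contra hcon
      push Not at hcon
      have h1 : ∀ u ∈ F', c u * inner ℝ w u ≤ 0 := fun u hu =>
        mul_nonpos_of_nonpos_of_nonneg (hcon u hu) (hw u (hF' hu)).le
      have h2 := (Finset.sum_eq_zero_iff_of_nonpos h1).1 hsum u0 hu0
      rcases mul_eq_zero.1 h2 with h | h
      · exact hcu0 h
      · exact absurd h (hw u0 (hF' hu0)).ne'
    · by_contra hcon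
      push Not at hcon
      have h1 : ∀ u ∈ F', 0 ≤ c u * inner ℝ w u := fun u hu =>
        mul_nonneg (hcon u hu) (hw u (hF' hu)).le
      have h2 := (Finset.sum_eq_zero_iff_of_nonneg h1).1 hsum u0 hu0
      rcases mul_eq_zero.1 h2 with h | h
      · exact hcu0 h
      · exact absurd h (hw u0 (hF' hu0)).ne'
  have hdisj : (F'.filter (fun u => 0 < c u)).card + (F'.filter (fun u => c u < 0)).card ≤ n + 1 := by
    rw [← hc', ← Finset.card_union_of_disjoint]
    · exact Finset.card_le_card (Finset.union_subset (Finset.filter_subset _ _)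
        (Finset.filter_subset _ _))
    · rw [Finset.disjoint_filter]
      intro u _ h1 h2
      linarith
  by_cases hle : (F'.filter (fun u => 0 < c u)).card ≤ (F'.filter (fun u => c u < 0)).card
  · apply radon_aux (P := P) (hF'.trans hF) c hc hposneg.2
    intro T hT' hTiff
    apply hT T (hT'.trans hF')
    have : T = F'.filter (fun u => 0 < c u) := by
      ext u
      rw [Finset.mem_filter]
      constructor
      · intro hu; exact ⟨hT' hu, (hTiff u (hT' hu)).1 hu⟩
      · rintro ⟨hu, h⟩; exact (hTiff u hu).2 h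
    rw [this]
    omega
  · apply radon_aux (P := P) (hF'.trans hF) (fun u => - c u) (by simp [hc]) (by
      obtain ⟨u, hu, h⟩ := hposneg.1
      exact ⟨u, hu, by simpa using h⟩)
    intro T hT' hTiff
    apply hT T (hT'.trans hF')
    have : T = F'.filter (fun u => c u < 0) := by
      ext u
      rw [Finset.mem_filter]
      constructor
      · intro hu; exact ⟨hT' hu, by simpa using (hTiff u (hT' hu)).1 hu⟩
      · rintro ⟨hu, h⟩; exact (hTiff u hu).2 (by simpa using h)
    rw [this]
    omega

end CP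
end Pool.Agent.Helper715
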