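import Pool.Agent.Helper715.Pull2
import Pool.Agent.Helper715.Fin

set_option autoImplicit false
set_option linter.unusedSectionVars false
set_option linter.unusedVariables false

namespace Pool.Agent.Helper715

open Finset

variable {E : Type*} [NormedAddCommGroup E] [InnerProductSpace ℝ E] [FiniteDimensional ℝ E]

section faces

variable {P : CP (WithLp 2 (E × ℝ))} {S : Finset E}

theorem ext_mem {F : Set E} (hF : IsExtreme ℝ (convexHull ℝ (S : Set E)) F) {c : E → ℝ}
    (hc0 : ∀ s ∈ S, 0 ≤ c s) (hc1 : ∑ s ∈ S, c s = 1) (hx : ∑ s ∈ S, c s • s ∈ F) {s : E}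
    (hs : s ∈ S) (hcs : 0 < c s) : s ∈ F := by
  classical
  have hx' : ∑ u ∈ S, ((1 + c s) * c u - (if u = s then c s else 0)) • u ∈
      convexHull ℝ (S : Set E) := by
    rw [Finset.mem_convexHull']
    refine ⟨fun u => (1 + c s) * c u - (if u = s then c s else 0), ?_, ?_, rfl⟩
    · intro u hu
      have h1 := hc0 u hu
      by_cases h : u = s
      · subst h
        simp only [if_true]
        nlinarith
      · simp only [if_neg h]
        nlinarith
    · rw [Finset.sum_sub_distrib, ← Finset.mul_sum, hc1, Finset.sum_ite_eq' S s, if_pos hs]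
      ring
  have e1 : ∑ u ∈ S, ((1 + c s) * c u - (if u = s then c s else 0)) • u =
      (1 + c s) • (∑ u ∈ S, c u • u) - c s • s := by
    simp only [sub_smul, Finset.sum_sub_distrib, mul_smul, ← Finset.smul_sum, ite_smul, zero_smul]
    rw [Finset.sum_ite_eq' S s, if_pos hs]
  refine hF.left_mem_of_mem_openSegment (subset_convexHull ℝ _ hs) hx' hx ?_
  have h2 : (1 : ℝ) + c s ≠ 0 := by linarith
  refine ⟨c s / (1 + c s), 1 / (1 + c s), by positivity, by positivity,
    by rw [← add_div, add_comm (c s) 1, div_self h2], ?_⟩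
  rw [e1, smul_sub, smul_smul, smul_smul]
  have e2 : 1 / (1 + c s) * (1 + c s) = 1 := by field_simp
  rw [e2, one_smul]
  have e3 : c s / (1 + c s) = 1 / (1 + c s) * c s := by ring
  rw [e3]
  abel

variable (hP : (P.V : Set (WithLp 2 (E × ℝ))) = hm '' (S : Set E))
include hP

theorem mem_hull {x : E} (h : ∀ g ∈ P.G, 0 ≤ inner ℝ g (hm x)) : x ∈ convexHull ℝ (S : Set E) := by
  have h1 := (P.hV (hm x)).2 h
  rw [cone, Submodule.mem_span_finset] at h1
  obtain ⟨f, _, hf⟩ := h1
  have h2 : ∀ v ∈ P.V, v.snd = 1 ∧ v.fst ∈ (S : Set E) := by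
    intro v hv
    obtain ⟨s, hs, rfl⟩ := (mem_V hP).1 hv
    exact ⟨rfl, hs⟩
  have hsnd : ∑ v ∈ P.V, (f v : ℝ) = 1 := by
    have h3 : (∑ a ∈ P.V, f a • a).snd = 1 := by rw [hf]; rfl
    rw [← h3]
    have e : (∑ a ∈ P.V, f a • a).snd = ∑ a ∈ P.V, (f a : ℝ) * a.snd := by
      have := map_sum (WithLp.sndₗ 2 ℝ E ℝ) (fun a => f a • a) P.V
      change (WithLp.sndₗ 2 ℝ E ℝ) (∑ a ∈ P.V, f a • a) = _
      rw [this]
      rfl
    rw [e]
    exact Finset.sum_congr rfl fun v hv => by rw [(h2 v hv).1, mul_one]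
  have hfst : ∑ v ∈ P.V, (f v : ℝ) • v.fst = x := by
    have h3 : (∑ a ∈ P.V, f a • a).fst = x := by rw [hf]; rfl
    rw [← h3]
    have e : (∑ a ∈ P.V, f a • a).fst = ∑ a ∈ P.V, (f a : ℝ) • a.fst := by
      have := map_sum (WithLp.fstₗ 2 ℝ E ℝ) (fun a => f a • a) P.V
      change (WithLp.fstₗ 2 ℝ E ℝ) (∑ a ∈ P.V, f a • a) = _
      rw [this]
      rfl
    rw [e]
  rw [← hfst]
  apply (convex_convexHull ℝ (S : Set E)).sum_mem
  · intro v _; exact (f v).2
  · exact hsnd
  · intro v hv; exact subset_convexHull ℝ _ (h2 v hv).2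

theorem mem_toA_hm {F : Set E} {s : E} : hm s ∈ toA P F ↔ s ∈ S ∧ s ∈ F := by
  rw [mem_toA, hm_mem_V hP]
  constructor
  · rintro ⟨h1, x, hx, h⟩
    rw [← hm_inj h]
    exact ⟨by rw [hm_inj h]; exact h1, hx⟩
  · rintro ⟨h1, h2⟩
    exact ⟨h1, s, h2, rfl⟩

theorem toA_cl_of_extreme {F : Set E} (hF : IsExtreme ℝ (convexHull ℝ (S : Set E)) F)
    (hc : Convex ℝ F) (hne : F.Nonempty) : P.Cl (toA P F) := by
  classical
  have hAV : toA P F ⊆ P.V := Finset.filter_subset _ _
  apply Finset.Subset.antisymm _ (CP.le_perp_perp hAV)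
  intro b hb
  rw [mem_perp] at hb
  obtain ⟨s, hs, rfl⟩ := (mem_V hP).1 hb.1
  rw [mem_toA_hm hP]
  refine ⟨hs, ?_⟩
  -- the centroid of the vertices in `F`
  set T := S.filter (fun u => u ∈ F) with hT
  have hTne : T.Nonempty := by
    obtain ⟨x, hx⟩ := hne
    have hx' := hF.subset hx
    rw [Finset.mem_convexHull'] at hx'
    obtain ⟨c, hc0, hc1, hcx⟩ := hx'
    have : ∃ u ∈ S, 0 < c u := by
      by_contra hcon
      push Not at hcon
      have : ∑ u ∈ S, c u = 0 := Finset.sum_eq_zero fun u hu => le_antisymm (hcon u hu) (hc0 u hu)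
      linarith
    obtain ⟨u, hu, hcu⟩ := this
    exact ⟨u, Finset.mem_filter.2 ⟨hu, ext_mem hF hc0 hc1 (hcx ▸ hx) hu hcu⟩⟩
  have hn : (0 : ℝ) < T.card := by exact_mod_cast hTne.card_pos
  set y : E := ∑ u ∈ T, ((T.card : ℝ)⁻¹) • u with hy
  have hyF : y ∈ F := by
    apply hc.sum_mem
    · intro u _; positivity
    · rw [Finset.sum_const, nsmul_eq_mul, mul_inv_cancel₀ hn.ne']
    · intro u hu; exact (Finset.mem_filter.1 hu).2
  have hiy : ∀ w : WithLp 2 (E × ℝ), inner ℝ w (hm y) = ∑ u ∈ T, (T.card : ℝ)⁻¹ * inner ℝ w (hm u) := by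
    intro w
    exact inner_hm_comb w T (fun _ => (T.card : ℝ)⁻¹)
      (by rw [Finset.sum_const, nsmul_eq_mul, mul_inv_cancel₀ hn.ne']) (fun u => u)
  have hTS : ∀ u ∈ T, u ∈ S := fun u hu => (Finset.mem_filter.1 hu).1
  obtain ⟨N, hN0, hN⟩ := exists_large P.G (fun g => inner ℝ g (hm y) - inner ℝ g (hm s))
    (fun g => inner ℝ g (hm y)) (by
      intro g hg
      have h0 : 0 ≤ inner ℝ g (hm y) := by
        rw [hiy]
        exact Finset.sum_nonneg fun u hu => mul_nonneg (by positivity)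
          (P.nn ((hm_mem_V hP).2 (hTS u hu)) hg)
      rcases h0.lt_or_eq with h | h
      · exact Or.inl h
      · right
        refine ⟨h.symm, ?_⟩
        have hg' : g ∈ perp P.G (toA P F) := by
          rw [mem_perp]
          refine ⟨hg, fun a ha => ?_⟩
          have haV := hAV ha
          obtain ⟨u, hu, rfl⟩ := (mem_V hP).1 haV
          rw [mem_toA_hm hP] at ha
          rw [hiy] at h
          have h1 := (Finset.sum_eq_zero_iff_of_nonneg (fun u hu => mul_nonneg
            (by positivity) (P.nn ((hm_mem_V hP).2 (hTS u hu)) hg))).1 h.symm u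
            (Finset.mem_filter.2 ⟨hu, ha.2⟩)
          rcases mul_eq_zero.1 h1 with h2 | h2
          · exact absurd h2 (by positivity)
          · exact h2
        have h2 := hb.2 g hg'
        rw [real_inner_comm] at h2
        rw [← h, h2, sub_zero])
  -- the point beyond `y`
  have hz : y + N⁻¹ • (y - s) ∈ convexHull ℝ (S : Set E) := by
    apply mem_hull hP
    intro g hg
    have h1 := (hN g hg).1
    have h2 : inner ℝ g (hm (y + N⁻¹ • (y - s))) =
        N⁻¹ * (inner ℝ g (hm y) - inner ℝ g (hm s) + N * inner ℝ g (hm y)) := by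
      simp only [inner_hm, inner_add_right, inner_sub_right, real_inner_smul_right]
      field_simp
      ring
    rw [h2]
    positivity
  refine hF.left_mem_of_mem_openSegment (subset_convexHull ℝ _ hs) hz hyF ?_
  have hN1 : (1 : ℝ) + N ≠ 0 := by linarith
  refine ⟨1 / (1 + N), N / (1 + N), by positivity, by positivity,
    by rw [← add_div, div_self hN1], ?_⟩
  have e1 : N⁻¹ • (y - s) = N⁻¹ • y - N⁻¹ • s := smul_sub _ _ _
  rw [e1, smul_add, smul_sub, smul_smul, smul_smul]
  have e2 : N / (1 + N) * N⁻¹ = 1 / (1 + N) := by field_simp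
  rw [e2]
  have e3 : (N / (1 + N)) • y + (1 / (1 + N)) • y = y := by
    rw [← add_smul, ← add_div, add_comm N 1, div_self hN1, one_smul]
  calc (1 / (1 + N)) • s + ((N / (1 + N)) • y + ((1 / (1 + N)) • y - (1 / (1 + N)) • s))
      = (N / (1 + N)) • y + (1 / (1 + N)) • y := by abel
    _ = y := e3

theorem extreme_exposed {F : Set E} (hF : IsExtreme ℝ (convexHull ℝ (S : Set E)) F)
    (hc : Convex ℝ F) (hne : F.Nonempty) : IsExposed ℝ (convexHull ℝ (S : Set E)) F := by
  have hcl := toA_cl_of_extreme hP hF hc hne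
  have : F = toF P S (toA P F) := by
    apply Set.Subset.antisymm
    · intro x hx
      have hx' := hF.subset hx
      refine ⟨hx', ?_⟩
      rw [Finset.mem_convexHull'] at hx'
      obtain ⟨c, hc0, hc1, rfl⟩ := hx'
      rw [inner_hm_comb _ S c hc1 (fun y => y)]
      apply Finset.sum_eq_zero
      intro s hs
      rcases (hc0 s hs).lt_or_eq with h | h
      · have hsF := ext_mem hF hc0 hc1 hx hs h
        rw [CP.gs_zero ((mem_toA_hm hP).2 ⟨hs, hsF⟩), mul_zero]
      · rw [← h, zero_mul]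
    · rintro x ⟨hx, h0⟩
      rw [Finset.mem_convexHull'] at hx
      obtain ⟨c, hc0, hc1, rfl⟩ := hx
      rw [inner_hm_comb _ S c hc1 (fun y => y)] at h0
      have h1 := (Finset.sum_eq_zero_iff_of_nonneg (fun s hs => mul_nonneg (hc0 s hs)
        (CP.gs_nonneg (P := P) (toA P F) ((hm_mem_V hP).2 hs)))).1 h0
      have h2 : ∀ s ∈ S, c s ≠ 0 → s ∈ F := by
        intro s hs hcs
        rcases mul_eq_zero.1 (h1 s hs) with h | h
        · exact absurd h hcs
        · by_contra hcon
          have := CP.gs_pos hcl ((hm_mem_V hP).2 hs) (fun h => hcon ((mem_toA_hm hP).1 h).2)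
          linarith
      classical
      have h3 : ∑ s ∈ S, c s • s = ∑ s ∈ S.filter (fun s => c s ≠ 0), c s • s := by
        rw [Finset.sum_filter]
        apply Finset.sum_congr rfl
        intro s _
        by_cases h : c s = 0
        · simp [h]
        · simp [h]
      have h4 : ∑ s ∈ S.filter (fun s => c s ≠ 0), c s = 1 := by
        rw [← hc1, Finset.sum_filter]
        apply Finset.sum_congr rfl
        intro s _
        by_cases h : c s = 0
        · simp [h]
        · simp [h]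
      rw [h3]
      apply hc.sum_mem
      · intro s hs; exact hc0 s (Finset.mem_filter.1 hs).1
      · exact h4
      · intro s hs
        exact h2 s (Finset.mem_filter.1 hs).1 (Finset.mem_filter.1 hs).2
  rw [this]
  exact toF_exposed hP _

/-- the number of `k`-faces -/
theorem ncard_faces (k : ℕ) :
    Set.ncard {F : Set E | F.Nonempty ∧ Convex ℝ F ∧
      IsExtreme ℝ (convexHull ℝ (S : Set E)) F ∧ Module.finrank ℝ (vectorSpan ℝ F) = k} =
      Nat.card (P.Lev (k + 1)) := by
  rw [← Nat.card_coe_set_eq]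
  rw [← Nat.card_congr (levEquiv hP k)]
  apply Nat.card_congr
  refine Equiv.subtypeEquivRight ?_
  intro F
  rw [Set.mem_ofPred_eq, direction_affineSpan]
  constructor
  · rintro ⟨h1, h2, h3, h4⟩
    exact ⟨extreme_exposed hP h3 h2 h1, h1, h4⟩
  · rintro ⟨h1, h2, h3⟩
    exact ⟨h2, h1.convex (convex_convexHull ℝ _), h1.isExtreme, h3⟩

end faces
end Pool.Agent.Helper715
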