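import Pool.Agent.Helper715.Pull3

set_option autoImplicit false
set_option linter.unusedSectionVars false
set_option linter.unusedVariables false

namespace Pool.Agent.Helper715

open Finset

variable {E : Type*} [NormedAddCommGroup E] [InnerProductSpace ℝ E] [FiniteDimensional ℝ E]

/-- the vertex set of a polytope -/
theorem exists_vertices (S : Finset E) : ∃ S0 : Finset E,
    (S0 : Set E) = (convexHull ℝ (S : Set E)).extremePoints ℝ ∧
    convexHull ℝ (S0 : Set E) = convexHull ℝ (S : Set E) := by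
  have hfin : ((convexHull ℝ (S : Set E)).extremePoints ℝ).Finite :=
    S.finite_toSet.subset (extremePoints_convexHull_subset (𝕜 := ℝ))
  refine ⟨hfin.toFinset, by simp, ?_⟩
  have h1 := closure_convexHull_extremePoints (S.finite_toSet.isCompact_convexHull ℝ)
    (convex_convexHull ℝ (S : Set E))
  rw [(hfin.isClosed_convexHull ℝ).closure_eq] at h1
  rw [Set.Finite.coe_toFinset]
  exact h1

section atoms

variable {P : CP (WithLp 2 (E × ℝ))} {S : Finset E}
variable (hP : (P.V : Set (WithLp 2 (E × ℝ))) = hm '' (S : Set E))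
include hP

theorem atom_of_extreme {s : E} (hs : s ∈ (convexHull ℝ (S : Set E)).extremePoints ℝ) :
    P.Cl {hm s} := by
  have h1 : IsExtreme ℝ (convexHull ℝ (S : Set E)) {s} := isExtreme_singleton.2 hs
  have h2 := toA_cl_of_extreme hP h1 (convex_singleton s) (Set.singleton_nonempty s)
  have h3 : toA P {s} = {hm s} := by
    ext v
    rw [mem_toA, Finset.mem_singleton]
    constructor
    · rintro ⟨_, x, hx, rfl⟩
      rw [Set.mem_singleton_iff] at hx
      rw [hx]
    · rintro rfl
      exact ⟨(hm_mem_V hP).2 (extremePoints_convexHull_subset hs), s, rfl, rfl⟩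
  rw [h3] at h2
  exact h2

theorem extreme_of_atom {s : E} (hs : P.Cl {hm s}) :
    s ∈ (convexHull ℝ (S : Set E)).extremePoints ℝ := by
  rw [← isExtreme_singleton]
  have hsS : s ∈ S := (hm_mem_V hP).1 (hs.sub (Finset.mem_singleton_self _))
  have h1 : toF P S {hm s} = {s} := by
    apply Set.Subset.antisymm
    · rintro x ⟨hx, h0⟩
      rw [Finset.mem_convexHull'] at hx
      obtain ⟨c, hc0, hc1, rfl⟩ := hx
      rw [inner_hm_comb _ S c hc1 (fun y => y)] at h0
      have h1 := (Finset.sum_eq_zero_iff_of_nonneg (fun u hu => mul_nonneg (hc0 u hu)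
        (CP.gs_nonneg (P := P) {hm s} ((hm_mem_V hP).2 hu)))).1 h0
      have h2 : ∀ u ∈ S, u ≠ s → c u = 0 := by
        intro u hu hus
        rcases mul_eq_zero.1 (h1 u hu) with h | h
        · exact h
        · exfalso
          have := CP.gs_pos hs ((hm_mem_V hP).2 hu) (by
            rw [Finset.mem_singleton]
            exact fun h => hus (hm_inj h))
          linarith
      have h3 : ∑ u ∈ S, c u = c s := Finset.sum_eq_single_of_mem s hsS (fun u hu hus => h2 u hu hus)
      have h4 : ∑ u ∈ S, c u • u = c s • s := Finset.sum_eq_single_of_mem s hsS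
        (fun u hu hus => by rw [h2 u hu hus, zero_smul])
      rw [Set.mem_singleton_iff, h4, ← h3, hc1, one_smul]
    · rintro x hx
      rw [Set.mem_singleton_iff] at hx
      subst hx
      exact ⟨subset_convexHull ℝ _ hsS, CP.gs_zero (Finset.mem_singleton_self _)⟩
  rw [← h1]
  exact (toF_exposed hP _).isExtreme

theorem zero_notMem_V : (0 : WithLp 2 (E × ℝ)) ∉ P.V := by
  intro h
  obtain ⟨s, _, hs⟩ := (mem_V hP).1 h
  have : (hm s).snd = (0 : WithLp 2 (E × ℝ)).snd := by rw [hs]
  change (1 : ℝ) = 0 at this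
  exact one_ne_zero this

end atoms

/-- existence of a polytope obtained by pulling a vertex -/
theorem exists_pull [DecidableEq E] [DecidableEq (WithLp 2 (E × ℝ))]
    {P : CP (WithLp 2 (E × ℝ))} {S : Finset E}
    (hP : (P.V : Set (WithLp 2 (E × ℝ))) = hm '' (S : Set E))
    (hS : affineSpan ℝ (S : Set E) = ⊤)
    (hat : ∀ s ∈ S, P.Cl {hm s}) (hcard : 2 ≤ S.card) {v : E} (hv : v ∈ S) :
    ∃ (T : Finset E) (P' : CP (WithLp 2 (E × ℝ))) (v' : E),
      (P'.V : Set (WithLp 2 (E × ℝ))) = hm '' (T : Set E) ∧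
      convexHull ℝ (S : Set E) ⊆ convexHull ℝ (T : Set E) ∧
      T.card = S.card ∧ (∀ s ∈ T, P'.Cl {hm s}) ∧ CP.Pull P P' (hm v) (hm v') := by
  classical
  have hn : (0 : ℝ) < S.card := by
    have : 0 < S.card := by omega
    exact_mod_cast this
  set σ : WithLp 2 (E × ℝ) → ℝ := fun w => ∑ u ∈ S, inner ℝ w (hm u) with hσ
  -- choice of the displacement
  obtain ⟨N, hN0, hN⟩ := exists_large
    (P.V.powerset.filter (fun A => P.Cl A ∧ hm v ∉ A))
    (fun A => inner ℝ (P.gs A) (hm v) - (S.card : ℝ)⁻¹ * σ (P.gs A))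
    (fun A => inner ℝ (P.gs A) (hm v)) (by
      intro A hA
      rw [Finset.mem_filter] at hA
      exact Or.inl (CP.gs_pos hA.2.1 ((hm_mem_V hP).2 hv) hA.2.2))
  set v' : E := v + N⁻¹ • (v - (S.card : ℝ)⁻¹ • ∑ u ∈ S, u) with hv'
  have hinn : ∀ w : WithLp 2 (E × ℝ), inner ℝ w (hm v') = N⁻¹ *
      ((inner ℝ w (hm v) - (S.card : ℝ)⁻¹ * σ w) + N * inner ℝ w (hm v)) := by
    intro w
    simp only [hv', hσ, inner_hm, inner_add_right, inner_sub_right, real_inner_smul_right,
      inner_sum, Finset.sum_add_distrib, Finset.sum_const, nsmul_eq_mul]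
    field_simp
    ring
  have hpos : ∀ A, P.Cl A → hm v ∉ A → 0 < inner ℝ (P.gs A) (hm v') := by
    intro A hA hvA
    have h1 := (hN A (Finset.mem_filter.2 ⟨Finset.mem_powerset.2 hA.sub, hA, hvA⟩)).2
      (CP.gs_pos hA ((hm_mem_V hP).2 hv) hvA)
    rw [hinn]
    positivity
  have hneg : ∀ A, P.Cl A → hm v ∈ A → A ≠ P.V → inner ℝ (P.gs A) (hm v') < 0 := by
    intro A hA hvA hne
    have h1 : 0 < σ (P.gs A) := by
      have : ∃ b ∈ P.V, b ∉ A := by
        by_contra hcon
        push Not at hcon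
        exact hne (Finset.Subset.antisymm hA.sub hcon)
      obtain ⟨b, hb, hbA⟩ := this
      obtain ⟨s, hs, rfl⟩ := (mem_V hP).1 hb
      exact Finset.sum_pos' (fun u hu => CP.gs_nonneg A ((hm_mem_V hP).2 hu))
        ⟨s, hs, CP.gs_pos hA hb hbA⟩
    rw [hinn, CP.gs_zero hvA]
    have h2 : 0 < N⁻¹ * ((S.card : ℝ)⁻¹ * σ (P.gs A)) := by positivity
    linarith
  have hsing : ({hm v} : Finset (WithLp 2 (E × ℝ))) ≠ P.V := by
    intro h
    have h1 : ∀ s ∈ S, s = v := by
      intro s hs
      have := (hm_mem_V hP).2 hs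
      rw [← h, Finset.mem_singleton] at this
      exact hm_inj this
    have h2 : S.card ≤ 1 := Finset.card_le_one.2 fun a ha b hb => by rw [h1 a ha, h1 b hb]
    omega
  have hv'V : hm v' ∉ P.V := by
    intro h
    have h1 := hneg {hm v} (hat v hv) (Finset.mem_singleton_self _) hsing
    have h2 := CP.gs_nonneg (P := P) {hm v} h
    linarith
  have hv'S : v' ∉ S := fun h => hv'V ((hm_mem_V hP).2 h)
  -- the new polytope
  set T : Finset E := insert v' (S.erase v) with hT
  have hvT : v ∈ convexHull ℝ (T : Set E) := by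
    set α : ℝ := N / (N + 1 - (S.card : ℝ)⁻¹) with hα
    have hinv : (S.card : ℝ)⁻¹ ≤ 1 := by
      apply inv_le_one_of_one_le₀
      have : (1 : ℕ) ≤ S.card := by omega
      exact_mod_cast this
    have hden : 0 < N + 1 - (S.card : ℝ)⁻¹ := by linarith
    have hα0 : 0 < α := div_pos hN0 hden
    have hsum : ∑ u ∈ S.erase v, α * N⁻¹ * (S.card : ℝ)⁻¹ = 1 - α := by
      rw [Finset.sum_const, Finset.card_erase_of_mem hv, nsmul_eq_mul, Nat.cast_sub (by omega)]
      set n : ℝ := (S.card : ℝ) with hndef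
      set D : ℝ := N + 1 - n⁻¹ with hD
      calc (n - ((1 : ℕ) : ℝ)) * (α * N⁻¹ * n⁻¹) = ((n - 1) * n⁻¹) * (N * N⁻¹) / D := by
            rw [hα]; push_cast; ring
        _ = (1 - n⁻¹) / D := by
            rw [mul_inv_cancel₀ hN0.ne', sub_mul, mul_inv_cancel₀ hn.ne', one_mul, mul_one]
        _ = 1 - N / D := by
            rw [eq_sub_iff_add_eq, ← add_div, show 1 - n⁻¹ + N = D by rw [hD]; ring]
            exact div_self hden.ne'
    have hcomb : v = α • v' + ∑ u ∈ S.erase v, (α * N⁻¹ * (S.card : ℝ)⁻¹) • u := by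
      rw [← Finset.smul_sum]
      have h5 : ∑ u ∈ S, u = v + ∑ u ∈ S.erase v, u := (Finset.add_sum_erase S (fun u => u) hv).symm
      rw [hv', h5]
      set z := ∑ u ∈ S.erase v, u
      have h6 : α • (v + N⁻¹ • (v - (S.card : ℝ)⁻¹ • (v + z))) + (α * N⁻¹ * (S.card : ℝ)⁻¹) • z =
          (α * (1 + N⁻¹ - N⁻¹ * (S.card : ℝ)⁻¹)) • v := by
        module
      rw [h6]
      have h7 : α * (1 + N⁻¹ - N⁻¹ * (S.card : ℝ)⁻¹) = 1 := by
        rw [hα]
        have h8 : 1 + N⁻¹ - N⁻¹ * (S.card : ℝ)⁻¹ = (N + 1 - (S.card : ℝ)⁻¹) / N := by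
          field_simp
        rw [h8, div_mul_div_comm, mul_comm N, div_self (by positivity)]
      rw [h7, one_smul]
    have hmem : ∀ u ∈ S.erase v, u ∈ convexHull ℝ (T : Set E) := by
      intro u hu
      apply subset_convexHull
      rw [hT, Finset.coe_insert]
      exact Set.mem_insert_of_mem _ hu
    have hv'm : v' ∈ convexHull ℝ (T : Set E) := by
      apply subset_convexHull
      rw [hT, Finset.coe_insert]
      exact Set.mem_insert _ _
    rw [hcomb]
    have hv'e : v' ∉ S.erase v := fun h => hv'S (Finset.mem_of_mem_erase h)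
    have h9 : α • v' + ∑ u ∈ S.erase v, (α * N⁻¹ * (S.card : ℝ)⁻¹) • u =
        ∑ u ∈ T, (if u = v' then α else α * N⁻¹ * (S.card : ℝ)⁻¹) • u := by
      rw [hT, Finset.sum_insert hv'e, if_pos rfl]
      congr 1
      apply Finset.sum_congr rfl
      intro u hu
      have hne : u ≠ v' := fun h => hv'e (by rw [← h]; exact hu)
      rw [if_neg hne]
    have h10 : ∑ u ∈ T, (if u = v' then α else α * N⁻¹ * (S.card : ℝ)⁻¹) = 1 := by
      rw [hT, Finset.sum_insert hv'e, if_pos rfl]
      have : ∑ u ∈ S.erase v, (if u = v' then α else α * N⁻¹ * (S.card : ℝ)⁻¹) =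
          ∑ u ∈ S.erase v, α * N⁻¹ * (S.card : ℝ)⁻¹ := by
        apply Finset.sum_congr rfl
        intro u hu
        have hne : u ≠ v' := fun h => hv'e (by rw [← h]; exact hu)
        rw [if_neg hne]
      rw [this, hsum]
      ring
    rw [h9]
    apply (convex_convexHull ℝ (T : Set E)).sum_mem
    · intro u _
      split_ifs
      · exact hα0.le
      · exact mul_nonneg (mul_nonneg hα0.le (inv_nonneg.2 hN0.le)) (inv_nonneg.2 hn.le)
    · exact h10
    · intro u hu
      exact subset_convexHull ℝ _ hu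
  have hsub : convexHull ℝ (S : Set E) ⊆ convexHull ℝ (T : Set E) := by
    apply convexHull_min _ (convex_convexHull ℝ _)
    intro s hs
    by_cases h : s = v
    · rw [h]; exact hvT
    · apply subset_convexHull
      rw [hT, Finset.coe_insert]
      exact Set.mem_insert_of_mem _ (Finset.mem_erase.2 ⟨h, hs⟩)
  have hTtop : affineSpan ℝ (T : Set E) = ⊤ := by
    rw [eq_top_iff, ← hS, affineSpan_le]
    intro s hs
    exact convexHull_subset_affineSpan _ (hsub (subset_convexHull ℝ _ hs))
  obtain ⟨P', hP'⟩ := exists_CP T hTtop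
  have hV : P'.V = insert (hm v') (P.V.erase (hm v)) := by
    ext u
    rw [mem_V hP', Finset.mem_insert, Finset.mem_erase, mem_V hP]
    constructor
    · rintro ⟨s, hs, rfl⟩
      rw [hT, Finset.mem_insert, Finset.mem_erase] at hs
      rcases hs with rfl | ⟨h1, h2⟩
      · exact Or.inl rfl
      · exact Or.inr ⟨fun h => h1 (hm_inj h), s, h2, rfl⟩
    · rintro (rfl | ⟨h1, s, hs, rfl⟩)
      · exact ⟨v', Finset.mem_insert_self _ _, rfl⟩
      · exact ⟨s, Finset.mem_insert_of_mem (Finset.mem_erase.2 ⟨fun h => h1 (by rw [h]), hs⟩), rfl⟩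
  have H : CP.Pull P P' (hm v) (hm v') := ⟨(hm_mem_V hP).2 hv, hV, hpos, hneg⟩
  refine ⟨T, P', v', hP', hsub, ?_, ?_, H⟩
  · rw [hT, Finset.card_insert_of_notMem (fun h => hv'S (Finset.mem_of_mem_erase h)),
      Finset.card_erase_of_mem hv]
    omega
  · intro s hs
    rw [hT, Finset.mem_insert, Finset.mem_erase] at hs
    rcases hs with rfl | ⟨h1, h2⟩
    · have hb : P.bot = ∅ := by
        rw [Finset.eq_empty_iff_forall_notMem]
        intro u hu
        have h1 := CP.mem_bot hu
        exact zero_notMem_V hP (h1 ▸ CP.bot_cl.sub hu)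
      have h1 : P.Cl ∅ := by rw [← hb]; exact CP.bot_cl
      have h2 := H.new h1 (Finset.notMem_empty _) (hat v hv) (Finset.empty_subset _)
        (Finset.mem_singleton_self _) hsing
      exact h2
    · apply H.old (hat s h2)
      rw [Finset.mem_singleton]
      exact fun h => h1 (hm_inj h).symm

end Pool.Agent.Helper715
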