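import Pool.Agent.Helper715.Pull4

set_option autoImplicit false
set_option linter.unusedSectionVars false
set_option linter.unusedVariables false

namespace Pool.Agent.Helper715

open Finset

variable {E : Type*} [NormedAddCommGroup E] [InnerProductSpace ℝ E] [FiniteDimensional ℝ E]

theorem klee {d : ℕ} (hE : Module.finrank ℝ E = d) (S : Finset E) (k : ℕ)
    (hint : (interior (convexHull ℝ (S : Set E))).Nonempty)
    (hk1 : (d - 1) / 2 ≤ k) (hk2 : k < d)
    (hmax : ∀ T : Finset E, (interior (convexHull ℝ (T : Set E))).Nonempty →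
      Set.ncard (Set.extremePoints ℝ (convexHull ℝ (T : Set E))) =
        Set.ncard (Set.extremePoints ℝ (convexHull ℝ (S : Set E))) →
      Set.ncard {F : Set E | F.Nonempty ∧ Convex ℝ F ∧
          IsExtreme ℝ (convexHull ℝ (T : Set E)) F ∧ Module.finrank ℝ (vectorSpan ℝ F) = k} ≤
        Set.ncard {F : Set E | F.Nonempty ∧ Convex ℝ F ∧
          IsExtreme ℝ (convexHull ℝ (S : Set E)) F ∧ Module.finrank ℝ (vectorSpan ℝ F) = k})
    (F : Set E) (hne : F.Nonempty) (hc : Convex ℝ F)
    (hext : IsExtreme ℝ (convexHull ℝ (S : Set E)) F)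
    (hdim : Module.finrank ℝ (vectorSpan ℝ F) = d - 1) :
    Set.ncard (Set.extremePoints ℝ F) = d := by
  classical
  obtain ⟨S0, hS0, hull⟩ := exists_vertices S
  rw [← hull] at hint hext hmax
  have hS0' : (S0 : Set E) = (convexHull ℝ (S0 : Set E)).extremePoints ℝ := by
    rw [hull]; exact hS0
  have htop := interior_convexHull_nonempty_iff_affineSpan_eq_top.1 hint
  obtain ⟨P, hP⟩ := exists_CP S0 htop
  have hfr : Module.finrank ℝ (WithLp 2 (E × ℝ)) = d + 1 := by rw [finrank_hm, hE]
  have hat : ∀ s ∈ S0, P.Cl {hm s} := by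
    intro s hs
    apply atom_of_extreme hP
    rw [← hS0']
    exact hs
  have hPV : P.V = S0.image hm := by
    ext v
    rw [mem_V hP, Finset.mem_image]
  have hcard2 : 2 ≤ S0.card := by
    have h1 : dm P.V ≤ P.V.card := finrank_span_finset_le_card _
    have h2 : P.V.card ≤ S0.card := by rw [hPV]; exact Finset.card_image_le
    rw [CP.dm_top, hfr] at h1
    omega
  have hA := toA_cl_of_extreme hP hext hc hne
  have hexp := extreme_exposed hP hext hc hne
  have hdA : dm (toA P F) = d := by
    rw [dm_toA hP hexp hne, direction_affineSpan, hdim]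
    omega
  have hAne : toA P F ≠ P.V := by
    intro h
    rw [h, CP.dm_top, hfr] at hdA
    omega
  have hAsub := hA.sub
  set A := toA P F with hAdef
  have hcardT : ∀ T : Finset E, ∀ P' : CP (WithLp 2 (E × ℝ)),
      (P'.V : Set (WithLp 2 (E × ℝ))) = hm '' (T : Set E) → (∀ s ∈ T, P'.Cl {hm s}) →
      Set.ncard (Set.extremePoints ℝ (convexHull ℝ (T : Set E))) = T.card := by
    intro T P' hP' hT
    have : Set.extremePoints ℝ (convexHull ℝ (T : Set E)) = T := by
      apply Set.Subset.antisymm extremePoints_convexHull_subset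
      intro s hs
      exact extreme_of_atom hP' (hT s hs)
    rw [this, Set.ncard_coe_finset]
  have hmain : ∀ (B : Finset (WithLp 2 (E × ℝ))) (v : WithLp 2 (E × ℝ)), P.Cl B → dm B = k →
      v ∉ B → B ⊆ A → v ∈ A → P.Cl (insert v B) ∧ dm (insert v B) = k + 1 := by
    intro B v hB hdB hvB hBA hvA
    obtain ⟨s, hs, rfl⟩ := (mem_V hP).1 (hAsub hvA)
    obtain ⟨T, P', v', hP', hsub, hTcard, hTat, H⟩ := exists_pull hP htop hat hcard2 hs
    have h1 := hmax T (hint.mono (interior_mono hsub)) (by
      rw [hcardT T P' hP' hTat, hcardT S0 P hP hat, hTcard])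
    rw [ncard_faces hP', ncard_faces hP] at h1
    refine CP.pull_main H (by omega) h1 ?_ hB hdB hvB hA hBA hvA hAne
    intro u hu
    obtain ⟨t, ht, rfl⟩ := (mem_V hP).1 hu
    exact hat t ht
  have hle : A.card ≤ d := by
    by_contra hcon
    push Not at hcon
    refine CP.radon (P := P) hAsub hdA.le hcon (w := WithLp.toLp 2 (0, 1)) ?_ ?_
    · intro u hu
      obtain ⟨t, ht, rfl⟩ := (mem_V hP).1 (hAsub hu)
      rw [inner_hm]
      change 0 < inner ℝ (0 : E) t + 1
      rw [inner_zero_left]
      norm_num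
    · intro T hT hTc
      exact (CP.neighborly hA (by omega) hmain (zero_notMem_V hP) T hT (by omega)).1
  have hge : d ≤ A.card := by
    rw [← hdA]
    exact finrank_span_finset_le_card _
  have hFe : Set.extremePoints ℝ F = F ∩ (S0 : Set E) := by
    rw [hext.extremePoints_eq, ← hS0']
  have hAe : (A : Set (WithLp 2 (E × ℝ))) = hm '' (F ∩ (S0 : Set E)) := by
    ext u
    rw [Finset.mem_coe, hAdef, mem_toA, Set.mem_image]
    constructor
    · rintro ⟨hu, x, hx, rfl⟩
      exact ⟨x, ⟨hx, (hm_mem_V hP).1 hu⟩, rfl⟩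
    · rintro ⟨x, ⟨hx, hxS⟩, rfl⟩
      exact ⟨(hm_mem_V hP).2 hxS, x, hx, rfl⟩
  have hinj : Function.Injective (hm : E → WithLp 2 (E × ℝ)) := fun x y h => hm_inj h
  rw [hFe, ← Set.ncard_image_of_injective _ hinj, ← hAe, Set.ncard_coe_finset]
  omega

end Pool.Agent.Helper715
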