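import Mathlib

set_option autoImplicit false

namespace Pool.Agent.Helper715.Sal

open Finset

/-- the weights -/
def wt : ℕ → ℕ → ℕ
  | 0, t => if t = 0 then 1 else 0
  | (g + 1), t => Nat.choose (t + g) g

theorem wt_zero (g : ℕ) : wt g 0 = 1 := by
  cases g with
  | zero => simp [wt]
  | succ g => simp [wt]

theorem wt_succ (g t : ℕ) : wt (g + 1) (t + 1) = wt (g + 1) t + wt g (t + 1) := by
  cases g with
  | zero => simp [wt]
  | succ g =>
    simp only [wt]
    have h1 : t + 1 + (g + 1) = (t + g + 1) + 1 := by ring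
    have h2 : t + (g + 1) = t + g + 1 := by ring
    have h3 : t + 1 + g = t + g + 1 := by ring
    rw [h1, h2, h3, Nat.choose_succ_succ']
    ring

theorem wt_mul1 (g t : ℕ) : (t + 1) * wt (g + 1) (t + 1) = (t + 1 + g) * wt (g + 1) t := by
  simp only [wt]
  have h1 := Nat.add_one_mul_choose_eq (t + g) t
  have h2 : (t + g).choose t = (t + g).choose g := by
    rw [← Nat.choose_symm_of_eq_add (n := t + g) (a := t) (b := g) rfl]
  have h3 : (t + g + 1).choose (t + 1) = (t + 1 + g).choose g := by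
    have : t + g + 1 = (t + 1) + g := by ring
    rw [this]
    exact Nat.choose_symm_of_eq_add (n := t + 1 + g) (a := t + 1) (b := g) rfl
  rw [h2, h3] at h1
  have h4 : t + g + 1 = t + 1 + g := by ring
  rw [h4] at h1
  rw [h1, mul_comm]

theorem wt_mul2 (g t : ℕ) : (t + 1) * wt g (t + 1) = g * wt (g + 1) t := by
  have h1 := wt_mul1 g t
  rw [wt_succ] at h1
  have h2 : (t + 1) * wt (g + 1) t + (t + 1) * wt g (t + 1) =
      (t + 1) * wt (g + 1) t + g * wt (g + 1) t := by
    rw [← mul_add, h1]; ring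
  exact Nat.add_left_cancel h2

theorem wt_pos (g t : ℕ) : 0 < wt (g + 1) t := by
  simp only [wt]
  exact Nat.choose_pos (by omega)

/-- insertion of a new element at a position -/
def ins (pos q : ℕ) (c : ℕ → ℕ × Finset ℕ) : ℕ → ℕ × Finset ℕ := fun t =>
  if t ≤ pos then c t else ((c (t - 1)).1, insert q (c (t - 1)).2)

/-- the shuffle functional -/
noncomputable def Fl (g : ℕ) : ℕ → ((ℕ → ℕ × Finset ℕ) → ℕ → ℝ) → ℝ
  | 0, f => f (fun _ => (0, ∅)) 0
  | (n + 1), f => (wt g (n + 1) : ℝ) * f (fun t => (t, ∅)) (n + 1) +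
      (1 / ((n : ℝ) + 1)) * ∑ pos ∈ range (n + 1),
        Fl g n (fun c u => f (ins pos (n + 1) c) (if pos < n then u else n + 1))

theorem Fl_lin (g n : ℕ) (a b : ℝ) (f f' : (ℕ → ℕ × Finset ℕ) → ℕ → ℝ) :
    Fl g n (fun c u => a * f c u + b * f' c u) = a * Fl g n f + b * Fl g n f' := by
  induction n generalizing f f' with
  | zero => simp [Fl]
  | succ n ih =>
    simp only [Fl]
    have : ∀ pos, Fl g n (fun c u => a * f (ins pos (n + 1) c) (if pos < n then u else n + 1) +
        b * f' (ins pos (n + 1) c) (if pos < n then u else n + 1)) =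
        a * Fl g n (fun c u => f (ins pos (n + 1) c) (if pos < n then u else n + 1)) +
        b * Fl g n (fun c u => f' (ins pos (n + 1) c) (if pos < n then u else n + 1)) :=
      fun pos => ih _ _
    simp only [this, Finset.sum_add_distrib, ← Finset.mul_sum]
    ring

theorem Fl_mul (g n : ℕ) (a : ℝ) (f : (ℕ → ℕ × Finset ℕ) → ℕ → ℝ) :
    Fl g n (fun c u => a * f c u) = a * Fl g n f := by
  have := Fl_lin g n a 0 f f
  simpa using this

theorem Fl_sub (g n : ℕ) (f f' : (ℕ → ℕ × Finset ℕ) → ℕ → ℝ) :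
    Fl g n (fun c u => f c u - f' c u) = Fl g n f - Fl g n f' := by
  have := Fl_lin g n 1 (-1) f f'
  simp only [one_mul, neg_mul, ← sub_eq_add_neg] at this
  exact this

theorem Fl_add (g n : ℕ) (f f' : (ℕ → ℕ × Finset ℕ) → ℕ → ℝ) :
    Fl g n (fun c u => f c u + f' c u) = Fl g n f + Fl g n f' := by
  have := Fl_lin g n 1 1 f f'
  simpa only [one_mul] using this

theorem Fl_sum (g n : ℕ) (s : Finset ℕ) (f : ℕ → (ℕ → ℕ × Finset ℕ) → ℕ → ℝ) :
    Fl g n (fun c u => ∑ t ∈ s, f t c u) = ∑ t ∈ s, Fl g n (f t) := by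
  induction s using Finset.induction_on with
  | empty =>
    simp only [Finset.sum_empty]
    have := Fl_mul g n 0 (fun _ _ => 0)
    simpa using this
  | insert a s ha ih =>
    simp only [Finset.sum_insert ha]
    rw [Fl_add, ih]

theorem Fl_const (g n : ℕ) (a : ℝ) : Fl g n (fun _ _ => a) = wt (g + 1) n * a := by
  induction n with
  | zero => simp [Fl, wt_zero]
  | succ n ih =>
    simp only [Fl, ih, Finset.sum_const, Finset.card_range, nsmul_eq_mul]
    rw [wt_succ]
    push_cast
    have : (n : ℝ) + 1 ≠ 0 := by positivity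
    field_simp
    ring

/-- admissible chains -/
structure Adm (n : ℕ) (c : ℕ → ℕ × Finset ℕ) (u : ℕ) : Prop where
  zero : c 0 = (0, ∅)
  step : ∀ t < n, ((c (t + 1)).1 = (c t).1 + 1 ∧ (c (t + 1)).2 = (c t).2) ∨
    ((c (t + 1)).1 = (c t).1 ∧ ∃ j, (c (t + 1)).2 = insert j (c t).2)
  card : ∀ t ≤ n, (c t).1 + (c t).2.card = t
  rng : ∀ t ≤ n, ∀ j ∈ (c t).2, j ≤ n
  sep : ∀ t ≤ n, ∀ t' ≤ n, ∀ j ∈ (c t).2, (c t').1 < j
  last : ∀ t < n, u ∉ (c t).2 ∧ (c t).1 < u ∧ u ≤ n

theorem adm_zero : Adm 0 (fun _ => (0, ∅)) 0 := by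
  refine ⟨rfl, fun t ht => by omega, fun t ht => ?_, fun t ht j hj => ?_, fun t ht t' ht' j hj => ?_,
    fun t ht => by omega⟩
  · have : t = 0 := by omega
    simp [this]
  · simp at hj
  · simp at hj

theorem adm_x (n : ℕ) : Adm (n + 1) (fun t => (t, ∅)) (n + 1) := by
  refine ⟨rfl, fun t ht => ?_, fun t ht => ?_, fun t ht j hj => ?_, fun t ht t' ht' j hj => ?_,
    fun t ht => ?_⟩
  · left; simp
  · simp
  · simp at hj
  · simp at hj
  · simp; omega

theorem adm_ins {n : ℕ} {c : ℕ → ℕ × Finset ℕ} {u : ℕ} (h : Adm n c u) {pos : ℕ}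
    (hpos : pos ≤ n) : Adm (n + 1) (ins pos (n + 1) c) (if pos < n then u else n + 1) := by
  have hle : ∀ t, t ≤ pos → ins pos (n + 1) c t = c t := fun t ht => by rw [ins, if_pos ht]
  have hgt : ∀ t, pos < t → ins pos (n + 1) c t = ((c (t - 1)).1, insert (n + 1) (c (t - 1)).2) :=
    fun t ht => by rw [ins, if_neg (by omega)]
  have hnm : ∀ t ≤ n, n + 1 ∉ (c t).2 := fun t ht hcon => by
    have := h.rng t ht _ hcon
    omega
  have h1 : ∀ t ≤ n, (c t).1 ≤ n := fun t ht => by
    have := h.card t ht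
    omega
  refine ⟨?_, ?_, ?_, ?_, ?_, ?_⟩
  · rw [hle 0 (Nat.zero_le _)]; exact h.zero
  · intro t ht
    rcases lt_trichotomy t pos with hlt | heq | hgt'
    · rw [hle t hlt.le, hle (t + 1) hlt]
      exact h.step t (by omega)
    · subst heq
      rw [hle t le_rfl, hgt (t + 1) (by omega)]
      right
      exact ⟨rfl, n + 1, rfl⟩
    · rw [hgt t hgt', hgt (t + 1) (by omega)]
      have h2 := h.step (t - 1) (by omega)
      have h3 : t + 1 - 1 = t - 1 + 1 := by omega
      rw [h3]
      rcases h2 with ⟨h4, h5⟩ | ⟨h4, j, h5⟩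
      · left
        exact ⟨h4, by rw [h5]⟩
      · right
        refine ⟨h4, j, ?_⟩
        change insert (n + 1) (c (t - 1 + 1)).2 = insert j (insert (n + 1) (c (t - 1)).2)
        rw [h5, Finset.insert_comm]
  · intro t ht
    rcases le_or_gt t pos with hlt | hgt'
    · rw [hle t hlt]; exact h.card t (by omega)
    · rw [hgt t hgt']
      change (c (t - 1)).1 + (insert (n + 1) (c (t - 1)).2).card = t
      rw [Finset.card_insert_of_notMem (hnm _ (by omega))]
      have := h.card (t - 1) (by omega)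
      omega
  · intro t ht j hj
    rcases le_or_gt t pos with hlt | hgt'
    · rw [hle t hlt] at hj
      have := h.rng t (by omega) j hj
      omega
    · rw [hgt t hgt'] at hj
      rcases Finset.mem_insert.1 hj with rfl | hj
      · exact le_rfl
      · have := h.rng (t - 1) (by omega) j hj
        omega
  · have hfst : ∀ t ≤ n + 1, ∃ t'' ≤ n, (ins pos (n + 1) c t).1 = (c t'').1 := by
      intro t ht
      rcases le_or_gt t pos with hlt | hgt'
      · exact ⟨t, by omega, by rw [hle t hlt]⟩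
      · exact ⟨t - 1, by omega, by rw [hgt t hgt']⟩
    intro t ht t' ht' j hj
    obtain ⟨t'', ht'', he⟩ := hfst t' ht'
    rw [he]
    rcases le_or_gt t pos with hlt | hgt'
    · rw [hle t hlt] at hj
      exact h.sep t (by omega) t'' ht'' j hj
    · rw [hgt t hgt'] at hj
      rcases Finset.mem_insert.1 hj with rfl | hj
      · have := h1 t'' ht''
        omega
      · exact h.sep (t - 1) (by omega) t'' ht'' j hj
  · intro t ht
    by_cases hp : pos < n
    · rw [if_pos hp]
      rcases le_or_gt t pos with hlt | hgt'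
      · rw [hle t hlt]
        have := h.last t (by omega)
        exact ⟨this.1, this.2.1, by omega⟩
      · rw [hgt t hgt']
        have := h.last (t - 1) (by omega)
        refine ⟨?_, this.2.1, by omega⟩
        rw [Finset.mem_insert]
        rintro (h3 | h3)
        · omega
        · exact this.1 h3
    · rw [if_neg hp]
      have : pos = n := by omega
      subst this
      rw [hle t (by omega)]
      have := h1 t (by omega)
      exact ⟨hnm t (by omega), by omega, le_rfl⟩

theorem Fl_mono (g n : ℕ) {f f' : (ℕ → ℕ × Finset ℕ) → ℕ → ℝ}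
    (h : ∀ c u, Adm n c u → f c u ≤ f' c u) : Fl g n f ≤ Fl g n f' := by
  induction n generalizing f f' with
  | zero => exact h _ _ adm_zero
  | succ n ih =>
    simp only [Fl]
    apply add_le_add
    · exact mul_le_mul_of_nonneg_left (h _ _ (adm_x n)) (by positivity)
    · apply mul_le_mul_of_nonneg_left _ (by positivity)
      apply Finset.sum_le_sum
      intro pos hpos
      apply ih
      intro c u hc
      exact h _ _ (adm_ins hc (by rw [Finset.mem_range] at hpos; omega))

theorem Fl_congr (g n : ℕ) {f f' : (ℕ → ℕ × Finset ℕ) → ℕ → ℝ}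
    (h : ∀ c u, Adm n c u → f c u = f' c u) : Fl g n f = Fl g n f' :=
  le_antisymm (Fl_mono g n fun c u hc => (h c u hc).le) (Fl_mono g n fun c u hc => (h c u hc).ge)

/-- marginal at level `t` -/
noncomputable def Mg (g n t : ℕ) (W : ℕ × Finset ℕ → ℝ) : ℝ := Fl g n (fun c _ => W (c t))

/-- pushed marginal at level `t` -/
noncomputable def Pg (g n t : ℕ) (W : ℕ × Finset ℕ → ℝ) : ℝ :=
  Fl g n (fun c u => W ((c t).1, insert u (c t).2))

theorem Mg_zero (g n : ℕ) (W : ℕ × Finset ℕ → ℝ) : Mg g n 0 W = wt (g + 1) n * W (0, ∅) := by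
  rw [Mg, ← Fl_const]
  apply Fl_congr
  intro c u hc
  rw [hc.zero]

theorem sum_split (n t : ℕ) (ht : t ≤ n) (x y : ℝ) :
    ∑ pos ∈ range n, (if t ≤ pos then x else y) = ((n : ℝ) - t) * x + t * y := by
  rw [Finset.sum_ite]
  simp only [Finset.sum_const, nsmul_eq_mul]
  have h1 : ((range n).filter (fun pos => t ≤ pos)).card = n - t := by
    have : (range n).filter (fun pos => t ≤ pos) = Finset.Ico t n := by
      ext a
      simp only [Finset.mem_filter, Finset.mem_range, Finset.mem_Ico]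
      tauto
    rw [this, Nat.card_Ico]
  have h2 : ((range n).filter (fun pos => ¬ t ≤ pos)).card = t := by
    have : (range n).filter (fun pos => ¬ t ≤ pos) = range t := by
      ext a
      simp only [Finset.mem_filter, Finset.mem_range]
      omega
    rw [this, Finset.card_range]
  rw [h1, h2, Nat.cast_sub ht]

theorem Mg_succ (g n t : ℕ) (ht : t ≤ n + 1) (W : ℕ × Finset ℕ → ℝ) :
    Mg g (n + 1) t W = wt g (n + 1) * W (t, ∅) + (1 / ((n : ℝ) + 1)) *
      (((n : ℝ) + 1 - t) * Mg g n t W +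
        t * Mg g n (t - 1) (fun p => W (p.1, insert (n + 1) p.2))) := by
  simp only [Mg, Fl]
  congr 2
  have : ∀ pos ∈ range (n + 1), Fl g n (fun c _ => W (ins pos (n + 1) c t)) =
      if t ≤ pos then Fl g n (fun c _ => W (c t)) else
        Fl g n (fun c _ => W ((c (t - 1)).1, insert (n + 1) (c (t - 1)).2)) := by
    intro pos _
    by_cases h : t ≤ pos
    · rw [if_pos h]; simp only [ins, if_pos h]
    · rw [if_neg h]; simp only [ins, if_neg h]
  rw [Finset.sum_congr rfl this, sum_split (n + 1) t ht]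
  push_cast
  ring

theorem Pg_succ (g n t : ℕ) (ht : t ≤ n) (W : ℕ × Finset ℕ → ℝ) :
    Pg g (n + 1) t W = wt g (n + 1) * W (t, {n + 1}) + (1 / ((n : ℝ) + 1)) *
      (((n : ℝ) - t) * Pg g n t W + t * Pg g n (t - 1) (fun p => W (p.1, insert (n + 1) p.2)) +
        Mg g n t (fun p => W (p.1, insert (n + 1) p.2))) := by
  simp only [Pg, Mg, Fl]
  congr 2
  rw [Finset.sum_range_succ]
  congr 1
  · have : ∀ pos ∈ range n, Fl g n (fun c u => W ((ins pos (n + 1) c t).1,
        insert (if pos < n then u else n + 1) (ins pos (n + 1) c t).2)) =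
        if t ≤ pos then Fl g n (fun c u => W ((c t).1, insert u (c t).2)) else
          Fl g n (fun c u => W ((c (t - 1)).1, insert (n + 1) (insert u (c (t - 1)).2))) := by
      intro pos hpos
      rw [Finset.mem_range] at hpos
      simp only [if_pos hpos]
      by_cases h : t ≤ pos
      · rw [if_pos h]; simp only [ins, if_pos h]
      · rw [if_neg h]; simp only [ins, if_neg h]
        congr 1
        funext c u
        rw [Finset.insert_comm]
    rw [Finset.sum_congr rfl this, sum_split n t ht]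
  · simp only [lt_irrefl, if_false, ins, if_pos ht]

theorem cons_law (g n t : ℕ) (ht : t + 1 ≤ n) (W : ℕ × Finset ℕ → ℝ) :
    (wt (g + 1) (t + 1) : ℝ) * Mg g n (t + 1) W =
      wt (g + 1) t * Pg g n t W + wt g (t + 1) * wt (g + 1) n * W (t + 1, ∅) := by
  induction n generalizing t W with
  | zero => omega
  | succ n ih =>
    have hn0 : (n : ℝ) + 1 ≠ 0 := by positivity
    rw [Mg_succ g n (t + 1) ht, Pg_succ g n t (by omega)]
    have e0 : t + 1 - 1 = t := by omega
    rw [e0]
    set W' : ℕ × Finset ℕ → ℝ := fun p => W (p.1, insert (n + 1) p.2) with hW'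
    have hW't : W' (t, ∅) = W (t, {n + 1}) := by simp [hW']
    -- numeric relations
    have r1 : ((t : ℝ) + 1) * wt (g + 1) (t + 1) = (t + 1 + g) * wt (g + 1) t := by
      exact_mod_cast wt_mul1 g t
    have r2 : ((t : ℝ) + 1) * wt g (t + 1) = g * wt (g + 1) t := by exact_mod_cast wt_mul2 g t
    have r3 : ((n : ℝ) + 1) * wt g (n + 1) = g * wt (g + 1) n := by exact_mod_cast wt_mul2 g n
    have r4 : (wt (g + 1) (n + 1) : ℝ) = wt (g + 1) n + wt g (n + 1) := by
      exact_mod_cast wt_succ g n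
    have r5 : (wt (g + 1) (t + 1) : ℝ) = wt (g + 1) t + wt g (t + 1) := by
      exact_mod_cast wt_succ g t
    -- first relation: level t + 1
    have e1 : ((n : ℝ) - t) * (wt (g + 1) (t + 1) * Mg g n (t + 1) W) =
        ((n : ℝ) - t) * (wt (g + 1) t * Pg g n t W + wt g (t + 1) * wt (g + 1) n * W (t + 1, ∅)) := by
      rcases Nat.lt_or_ge t n with h | h
      · rw [ih t h W]
      · have : t = n := by omega
        rw [this, sub_self, zero_mul, zero_mul]
    -- second relation: level t
    have e2 : (t : ℝ) * wt (g + 1) t * Pg g n (t - 1) W' =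
        (t + g) * (wt (g + 1) t * Mg g n t W' ) - g * wt (g + 1) t * wt (g + 1) n * W (t, {n + 1}) := by
      rcases Nat.eq_zero_or_pos t with h | h
      · subst h
        rw [Mg_zero, hW't]
        push_cast
        ring
      · obtain ⟨k, rfl⟩ : ∃ k, t = k + 1 := ⟨t - 1, by omega⟩
        have e3 := ih k (by omega) W'
        rw [hW't] at e3
        have r6 : ((k : ℝ) + 1) * wt (g + 1) (k + 1) = (k + 1 + g) * wt (g + 1) k := by
          exact_mod_cast wt_mul1 g k
        have r7 : ((k : ℝ) + 1) * wt g (k + 1) = g * wt (g + 1) k := by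
          exact_mod_cast wt_mul2 g k
        have r8 : (wt (g + 1) (k + 1) : ℝ) = wt (g + 1) k + wt g (k + 1) := by
          exact_mod_cast wt_succ g k
        have e4 : k + 1 - 1 = k := by omega
        rw [e4, e3]
        push_cast
        have r9 : ((k : ℝ) + 1 + g) * wt g (k + 1) = g * wt (g + 1) (k + 1) := by
          rw [r8]; linear_combination r7
        linear_combination (Pg g n k W') * r6 - (wt (g + 1) n * W (k + 1, {n + 1})) * r9
    field_simp
    push_cast
    linear_combination e1 - e2 + Mg g n t W' * r1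
      + ((wt (g + 1) (t + 1) : ℝ) * W (t + 1, ∅) - wt (g + 1) t * W (t, {n + 1})
        - W (t + 1, ∅) * wt g (t + 1)) * r3 - W (t + 1, ∅) * ((n : ℝ) + 1) * wt g (t + 1) * r4
      + W (t + 1, ∅) * wt (g + 1) n * g * r5 - W (t + 1, ∅) * wt (g + 1) n * r2

/-- the flow inequality -/
theorem flow (g n : ℕ) (W : ℕ × Finset ℕ → ℝ) (v : ℕ × Finset ℕ → ℕ → ℝ) (K : ℝ)
    (hW : ∀ (i : ℕ) (R : Finset ℕ) (u : ℕ), i + R.card < n → (∀ j ∈ R, i < j ∧ j ≤ n) → u ∉ R →
      i < u → u ≤ n → v (i, R) u + W (i, insert u R) ≤ W (i, R))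
    (h0 : ∀ (i : ℕ) (R : Finset ℕ), i + R.card = n → W (i, R) = 0)
    (hK : ∀ c u, Adm n c u → K ≤ ∑ t ∈ range n, (wt (g + 1) t : ℝ) * v (c t) u) :
    K ≤ ∑ i ∈ range n, (wt g i : ℝ) * W (i, ∅) := by
  have hpos : (0 : ℝ) < wt (g + 1) n := by exact_mod_cast wt_pos g n
  have h1 : (wt (g + 1) n : ℝ) * K ≤
      Fl g n (fun c u => ∑ t ∈ range n, (wt (g + 1) t : ℝ) * v (c t) u) := by
    rw [← Fl_const]
    exact Fl_mono g n hK
  have h2 : Fl g n (fun c u => ∑ t ∈ range n, (wt (g + 1) t : ℝ) * v (c t) u) ≤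
      Fl g n (fun c u => ∑ t ∈ range n, (wt (g + 1) t : ℝ) *
        (W (c t) - W ((c t).1, insert u (c t).2))) := by
    apply Fl_mono
    intro c u hc
    apply Finset.sum_le_sum
    intro t ht
    rw [Finset.mem_range] at ht
    apply mul_le_mul_of_nonneg_left _ (by positivity)
    have hl := hc.last t ht
    have := hW (c t).1 (c t).2 u (by rw [hc.card t ht.le]; exact ht)
      (fun j hj => ⟨hc.sep t ht.le t ht.le j hj, hc.rng t ht.le j hj⟩) hl.1 hl.2.1 hl.2.2
    linarith
  have h3 : Fl g n (fun c u => ∑ t ∈ range n, (wt (g + 1) t : ℝ) *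
        (W (c t) - W ((c t).1, insert u (c t).2))) =
      ∑ t ∈ range n, (wt (g + 1) t : ℝ) * (Mg g n t W - Pg g n t W) := by
    rw [Fl_sum g n (range n) (fun t c u => (wt (g + 1) t : ℝ) *
        (W (c t) - W ((c t).1, insert u (c t).2)))]
    apply Finset.sum_congr rfl
    intro t _
    rw [Fl_mul, Fl_sub]
    rfl
  have h4 : ∀ m ≤ n, ∑ t ∈ range m, (wt (g + 1) t : ℝ) * (Mg g n t W - Pg g n t W) =
      wt (g + 1) n * W (0, ∅) - wt (g + 1) m * Mg g n m W +
        wt (g + 1) n * ∑ t ∈ range m, (wt g (t + 1) : ℝ) * W (t + 1, ∅) := by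
    intro m hm
    induction m with
    | zero => simp [Mg_zero, wt_zero]
    | succ m ih =>
      rw [Finset.sum_range_succ, ih (by omega), Finset.sum_range_succ]
      have := cons_law g n m hm W
      linear_combination this
  have h5 : Mg g n n W = 0 := by
    have : Mg g n n W = Fl g n (fun _ _ => (0 : ℝ)) := by
      apply Fl_congr
      intro c u hc
      exact h0 (c n).1 (c n).2 (hc.card n le_rfl)
    rw [this, Fl_const, mul_zero]
  have h6 : ∑ i ∈ range n, (wt g i : ℝ) * W (i, ∅) =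
      W (0, ∅) + ∑ t ∈ range n, (wt g (t + 1) : ℝ) * W (t + 1, ∅) := by
    have e1 := Finset.sum_range_succ (fun i => (wt g i : ℝ) * W (i, ∅)) n
    have e2 := Finset.sum_range_succ' (fun i => (wt g i : ℝ) * W (i, ∅)) n
    rw [h0 n ∅ (by simp), mul_zero, add_zero] at e1
    rw [← e1, e2, wt_zero]
    push_cast
    ring
  rw [h3, h4 n le_rfl, h5] at h2
  rw [h6]
  have h7 : (wt (g + 1) n : ℝ) * K ≤ wt (g + 1) n *
      (W (0, ∅) + ∑ t ∈ range n, (wt g (t + 1) : ℝ) * W (t + 1, ∅)) := by
    linarith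
  exact le_of_mul_le_mul_left h7 hpos

end Pool.Agent.Helper715.Sal
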