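import Pool.Agent.Helper715.Pull

set_option autoImplicit false
set_option linter.unusedSectionVars false
set_option linter.unusedVariables false

namespace Pool.Agent.Helper715

open Finset

theorem rtg_cross {α : Type*} {r : α → α → Prop} {a b : α} (h : Relation.ReflTransGen r a b)
    (Q : α → Prop) (ha : Q a) (hb : ¬ Q b) : ∃ x y, r x y ∧ Q x ∧ ¬ Q y := by
  induction h with
  | refl => exact absurd ha hb
  | tail h1 h2 ih =>
    rename_i c d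
    by_cases hc : Q c
    · exact ⟨c, d, h2, hc, hb⟩
    · exact ih hc

variable {W : Type*} [NormedAddCommGroup W] [InnerProductSpace ℝ W] [FiniteDimensional ℝ W]

namespace CP

variable (P : CP W)

open scoped Classical in
/-- number of closed sets with a property -/
noncomputable def cnt (Q : Finset W → Prop) : ℕ := (P.V.powerset.filter (fun F => P.Cl F ∧ Q F)).card

variable {P}

theorem cnt_mono {Q Q' : Finset W → Prop} (h : ∀ F, P.Cl F → Q F → Q' F) : P.cnt Q ≤ P.cnt Q' := by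
  classical
  apply Finset.card_le_card
  intro F hF
  rw [Finset.mem_filter] at hF ⊢
  exact ⟨hF.1, hF.2.1, h F hF.2.1 hF.2.2⟩

theorem cnt_add {Q1 Q2 Q : Finset W → Prop} (h1 : ∀ F, P.Cl F → Q1 F → Q F)
    (h2 : ∀ F, P.Cl F → Q2 F → Q F) (h12 : ∀ F, P.Cl F → Q1 F → Q2 F → False) :
    P.cnt Q1 + P.cnt Q2 ≤ P.cnt Q := by
  classical
  rw [cnt, cnt, ← Finset.card_union_of_disjoint]
  · apply Finset.card_le_card
    intro F hF
    rw [Finset.mem_union, Finset.mem_filter, Finset.mem_filter] at hF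
    rw [Finset.mem_filter]
    rcases hF with hF | hF
    · exact ⟨hF.1, hF.2.1, h1 F hF.2.1 hF.2.2⟩
    · exact ⟨hF.1, hF.2.1, h2 F hF.2.1 hF.2.2⟩
  · rw [Finset.disjoint_filter]
    rintro F _ ⟨hF, h3⟩ ⟨_, h4⟩
    exact h12 F hF h3 h4

theorem le_cnt {Q : Finset W → Prop} (U : Finset (Finset W)) (h : ∀ F ∈ U, P.Cl F ∧ Q F) :
    U.card ≤ P.cnt Q := by
  classical
  apply Finset.card_le_card
  intro F hF
  rw [Finset.mem_filter, Finset.mem_powerset]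
  exact ⟨(h F hF).1.sub, h F hF⟩

theorem cnt_le {Q : Finset W → Prop} (U : Finset (Finset W)) (h : ∀ F, P.Cl F → Q F → F ∈ U) :
    P.cnt Q ≤ U.card := by
  classical
  apply Finset.card_le_card
  intro F hF
  rw [Finset.mem_filter] at hF
  exact h F hF.2.1 hF.2.2

theorem cnt_le_of_inj {Q : Finset W → Prop} {α : Type*} (U : Finset α) (f : Finset W → α)
    (h1 : ∀ F, P.Cl F → Q F → f F ∈ U)
    (h2 : ∀ F F', P.Cl F → Q F → P.Cl F' → Q F' → f F = f F' → F = F') :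
    P.cnt Q ≤ U.card := by
  classical
  apply Finset.card_le_card_of_injOn f
  · intro F hF
    rw [Finset.mem_coe, Finset.mem_filter] at hF
    exact h1 F hF.2.1 hF.2.2
  · intro F hF F' hF' h
    rw [Finset.mem_coe, Finset.mem_filter] at hF hF'
    exact h2 F F' hF.2.1 hF.2.2 hF'.2.1 hF'.2.2 h

theorem cnt_pos {Q : Finset W → Prop} {F : Finset W} (hF : P.Cl F) (hQ : Q F) : 1 ≤ P.cnt Q := by
  have := le_cnt (P := P) (Q := Q) {F} (by
    intro F' hF'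
    rw [Finset.mem_singleton] at hF'
    rw [hF']; exact ⟨hF, hQ⟩)
  simpa using this

/-- number of closed sets in an interval -/
theorem cnt_between {A B : Finset W} (hA : P.Cl A) (hB : P.Cl B) (hAB : A ⊆ B) (j : ℕ) :
    (dm B - dm A).choose j ≤ P.cnt (fun F => A ⊆ F ∧ F ⊆ B ∧ dm F = dm A + j) := by
  induction hn : dm B - dm A generalizing A B j with
  | zero =>
    cases j with
    | zero =>
      simp only [Nat.choose_zero_right]
      exact cnt_pos hA ⟨Finset.Subset.refl _, hAB, by simp⟩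
    | succ j => simp
  | succ n ih =>
    cases j with
    | zero =>
      simp only [Nat.choose_zero_right]
      exact cnt_pos hA ⟨Finset.Subset.refl _, hAB, by simp⟩
    | succ j =>
      obtain ⟨C, hC, h1, h2, h3⟩ := exists_cover hA hB hAB (by rintro rfl; omega)
      obtain ⟨c, hc, hcA⟩ := exists_not_mem hA hC h1 (by omega)
      obtain ⟨H, hH, h4, h5, h6, h7⟩ := coatom_avoid hA hB hAB (h2 hc) hcA
      have e1 := ih hC hB h2 j (by omega)
      have e2 := ih hA hH h4 (j + 1) (by omega)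
      rw [Nat.choose_succ_succ']
      refine (add_le_add e1 e2).trans (cnt_add ?_ ?_ ?_)
      · rintro F _ ⟨g1, g2, g3⟩
        exact ⟨h1.trans g1, g2, by omega⟩
      · rintro F _ ⟨g1, g2, g3⟩
        exact ⟨g1, g2.trans h5, g3⟩
      · rintro F _ ⟨g1, g2, g3⟩ ⟨g4, g5, g6⟩
        exact h7 (g5 (g1 hc))

/-- a closed set has many covers of a smaller closed set -/
theorem exists_cov_notMem {A F : Finset W} (hA : P.Cl A) (hF : P.Cl F) (hAF : A ⊆ F)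
    (U : Finset (Finset W)) (hU : U.card < dm F - dm A) : ∃ X, P.Cov A F X ∧ X ∉ U := by
  by_contra hcon
  push Not at hcon
  have h1 := cnt_between hA hF hAF 1
  rw [Nat.choose_one_right] at h1
  have h2 : P.cnt (fun X => A ⊆ X ∧ X ⊆ F ∧ dm X = dm A + 1) ≤ U.card := by
    apply cnt_le
    rintro X hX ⟨g1, g2, g3⟩
    exact hcon X ⟨hX, g1, g2, g3⟩
  omega

theorem bal_aux {A B : Finset W} (hA : P.Cl A) (hB : P.Cl B) (U : Finset (Finset W)) {y : W}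
    (hyA : ∀ a ∈ A, inner ℝ y a = 0) (hyU : ∀ Z ∈ U, P.Cov A B Z → ∀ z ∈ Z, inner ℝ y z = 0)
    {X Y : Finset W} (hX : P.Cov A B X) (hY : P.Cov A B Y) (hXU : X ∉ U) (hYU : Y ∉ U)
    (hyX : ∀ x ∈ X, inner ℝ y x = 0)
    (h : (∃ w ∈ Y, 0 < inner ℝ y w) ∨ ((∀ w ∈ Y, inner ℝ y w = 0) ∧ ∃ b ∈ B, 0 < inner ℝ y b)) :
    Relation.ReflTransGen (fun Z Z' => P.Adj A B Z Z' ∧ Z ∉ U ∧ Z' ∉ U) X Y := by
  have hpos : ∃ b ∈ B, 0 < inner ℝ y b := by
    rcases h with ⟨w, hw, hw'⟩ | ⟨_, h⟩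
    · exact ⟨w, hY.ge hw, hw'⟩
    · exact h
  have hU' : ∀ Z, P.Cov A B Z → (∃ z ∈ Z, 0 < inner ℝ y z) → Z ∉ U := by
    rintro Z hZ ⟨z, hz, hz'⟩ hcon
    rw [hyU Z hcon hZ z hz] at hz'
    exact lt_irrefl _ hz'
  have hconn : ∀ Z Z', P.Cov A B Z → P.Cov A B Z' → (∃ z ∈ Z, 0 < inner ℝ y z) →
      (∃ z ∈ Z', 0 < inner ℝ y z) →
      Relation.ReflTransGen (fun Z Z' => P.Adj A B Z Z' ∧ Z ∉ U ∧ Z' ∉ U) Z Z' := by
    intro Z Z' h1 h2 h3 h4
    exact rtg_mono (fun a b hab => ⟨hab.1, hU' a hab.1.1 hab.2.1, hU' b hab.1.2.1 hab.2.2⟩)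
      (conn_pos hA hB hyA h1 h2 h3 h4)
  obtain ⟨X1, hX1, hX1p⟩ := up hA hB hX hyX hpos
  rcases h with hYp | ⟨hY0, _⟩
  · exact (hconn X1 Y hX1.2.1 hY hX1p hYp).head ⟨hX1, hXU, hU' X1 hX1.2.1 hX1p⟩
  · obtain ⟨Y1, hY1, hY1p⟩ := up hA hB hY hY0 hpos
    have h1 := hconn X1 Y1 hX1.2.1 hY1.2.1 hX1p hY1p
    exact (h1.head ⟨hX1, hXU, hU' X1 hX1.2.1 hX1p⟩).tail
      ⟨hY1.symm, hU' Y1 hY1.2.1 hY1p, hYU⟩

/-- Balinski's theorem for the interval between `A` and `B` -/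
theorem balinski {A B : Finset W} (hA : P.Cl A) (hB : P.Cl B) {D : ℕ} (hd : dm B = dm A + D + 1)
    (U : Finset (Finset W)) (hU : U.card + 1 ≤ D) {X Y : Finset W}
    (hX : P.Cov A B X) (hY : P.Cov A B Y) (hXU : X ∉ U) (hYU : Y ∉ U) :
    Relation.ReflTransGen (fun Z Z' => P.Adj A B Z Z' ∧ Z ∉ U ∧ Z' ∉ U) X Y := by
  classical
  have hrep : ∀ Z : Finset W, ∃ z : W, P.Cov A B Z → z ∈ Z ∧ z ∉ A := by
    intro Z
    by_cases h : P.Cov A B Z
    · obtain ⟨z, h1, h2⟩ := h.exists_nm hA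
      exact ⟨z, fun _ => ⟨h1, h2⟩⟩
    · exact ⟨0, fun h' => absurd h' h⟩
  choose rep hrep using hrep
  set R : Finset W := (insert X U).image rep with hR
  set S0 : Submodule ℝ W := Submodule.span ℝ (A : Set W) ⊔ Submodule.span ℝ (R : Set W) with hS0
  have hRcard : R.card ≤ U.card + 1 := by
    rw [hR]
    exact Finset.card_image_le.trans (Finset.card_insert_le _ _)
  have hfin : Module.finrank ℝ S0 < dm B := by
    have h1 := Submodule.finrank_add_le_finrank_add_finrank (Submodule.span ℝ (A : Set W))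
      (Submodule.span ℝ (R : Set W))
    have h2 := finrank_span_finset_le_card (R := ℝ) R
    have h3 : Module.finrank ℝ (Submodule.span ℝ (R : Set W)) ≤ R.card := h2
    have h4 : Module.finrank ℝ (Submodule.span ℝ (A : Set W)) = dm A := rfl
    rw [← hS0, h4] at h1
    omega
  have hex : ∃ h ∈ B, h ∉ S0 := by
    by_contra hcon
    push Not at hcon
    have h1 : Submodule.span ℝ (B : Set W) ≤ S0 := Submodule.span_le.2 hcon
    have h2 := Submodule.finrank_mono h1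
    change dm B ≤ _ at h2
    omega
  obtain ⟨h, hhB, hhS⟩ := hex
  have hy : ∃ y ∈ S0ᗮ, inner ℝ y h ≠ 0 := by
    by_contra hcon
    push Not at hcon
    apply hhS
    have h1 : h ∈ S0ᗮᗮ := by
      rw [Submodule.mem_orthogonal]
      exact hcon
    rwa [Submodule.orthogonal_orthogonal] at h1
  obtain ⟨y, hyS, hyh⟩ := hy
  rw [Submodule.mem_orthogonal'] at hyS
  have hyA : ∀ a ∈ A, inner ℝ y a = 0 := fun a ha =>
    hyS a (Submodule.mem_sup_left (Submodule.subset_span ha))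
  have hyZ : ∀ Z ∈ insert X U, P.Cov A B Z → ∀ z ∈ Z, inner ℝ y z = 0 := by
    intro Z hZ hcov z hz
    obtain ⟨h1, h2⟩ := hrep Z hcov
    have h3 : z ∈ Submodule.span ℝ (insert (rep Z) (A : Set W)) := by
      rw [span_cover hA hcov.cl hcov.le hcov.dim h1 h2]
      exact Submodule.subset_span hz
    apply hyS
    refine (Submodule.span_le.2 ?_) h3
    rintro w (rfl | hw)
    · exact Submodule.mem_sup_right (Submodule.subset_span (by
        rw [hR]; exact Finset.mem_coe.2 (Finset.mem_image_of_mem _ hZ)))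
    · exact Submodule.mem_sup_left (Submodule.subset_span hw)
  have hyU : ∀ Z ∈ U, P.Cov A B Z → ∀ z ∈ Z, inner ℝ y z = 0 := fun Z hZ =>
    hyZ Z (Finset.mem_insert_of_mem hZ)
  have hyX : ∀ x ∈ X, inner ℝ y x = 0 := hyZ X (Finset.mem_insert_self _ _) hX
  have neg : ∀ w, inner ℝ (-y) w = - inner ℝ y w := fun w => inner_neg_left y w
  have nA : ∀ a ∈ A, inner ℝ (-y) a = 0 := fun a ha => by rw [neg, hyA a ha, neg_zero]
  have nU : ∀ Z ∈ U, P.Cov A B Z → ∀ z ∈ Z, inner ℝ (-y) z = 0 := fun Z hZ hc z hz => by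
    rw [neg, hyU Z hZ hc z hz, neg_zero]
  have nX : ∀ x ∈ X, inner ℝ (-y) x = 0 := fun x hx => by rw [neg, hyX x hx, neg_zero]
  by_cases c1 : ∃ w ∈ Y, 0 < inner ℝ y w
  · exact bal_aux hA hB U hyA hyU hX hY hXU hYU hyX (Or.inl c1)
  by_cases c2 : ∃ w ∈ Y, 0 < inner ℝ (-y) w
  · exact bal_aux hA hB U nA nU hX hY hXU hYU nX (Or.inl c2)
  push Not at c1 c2
  have c3 : ∀ w ∈ Y, inner ℝ y w = 0 := fun w hw => by
    have h1 := c1 w hw
    have h2 := c2 w hw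
    rw [neg] at h2
    linarith
  rcases lt_or_gt_of_ne hyh with h1 | h1
  · exact bal_aux hA hB U nA nU hX hY hXU hYU nX
      (Or.inr ⟨fun w hw => by rw [neg, c3 w hw, neg_zero], h, hhB, by rw [neg]; linarith⟩)
  · exact bal_aux hA hB U hyA hyU hX hY hXU hYU hyX (Or.inr ⟨c3, h, hhB, h1⟩)

/-- a crossing edge -/
theorem exists_cross {A B : Finset W} (hA : P.Cl A) (hB : P.Cl B) {D : ℕ}
    (hd : dm B = dm A + D + 1) (U : Finset (Finset W)) (hU : U.card + 1 ≤ D)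
    (Q : Finset W → Prop) {X Y : Finset W} (hX : P.Cov A B X) (hY : P.Cov A B Y) (hXU : X ∉ U)
    (hYU : Y ∉ U) (hQX : Q X) (hQY : ¬ Q Y) :
    ∃ Z Z' E, P.Cov A B Z ∧ P.Cov A B Z' ∧ P.Cl E ∧ Z ⊆ E ∧ Z' ⊆ E ∧ E ⊆ B ∧ dm E = dm A + 2 ∧
      Z ∉ U ∧ Z' ∉ U ∧ Q Z ∧ ¬ Q Z' := by
  obtain ⟨Z, Z', ⟨⟨h1, h2, E, h3, h4, h5, h6, h7⟩, h8, h9⟩, h10, h11⟩ :=
    rtg_cross (balinski hA hB hd U hU hX hY hXU hYU) Q hQX hQY
  exact ⟨Z, Z', E, h1, h2, h3, h4, h5, h6, h7, h8, h9, h10, h11⟩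

/-- a third cover is not in the edge -/
theorem notMem_edge {A E Z Z' X : Finset W} (hA : P.Cl A) (hE : P.Cl E) (hd : dm E = dm A + 2)
    (hZ : P.Cov A E Z) (hZ' : P.Cov A E Z') (hne : Z ≠ Z') {B : Finset W} (hX : P.Cov A B X)
    (h1 : X ≠ Z) (h2 : X ≠ Z') {x : W} (hx : x ∈ X) (hxA : x ∉ A) : x ∉ E := by
  intro hxE
  have hAE : A ⊆ E := hZ.le.trans hZ.ge
  have hXE : X ⊆ E := cover_sub hA hX.cl hE hX.le hAE hX.dim hx hxA hxE
  obtain ⟨C1, C2, _, _, _, hall⟩ := diamond hA hE hAE hd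
  have a1 := hall Z hZ.cl hZ.le hZ.ge hZ.dim
  have a2 := hall Z' hZ'.cl hZ'.le hZ'.ge hZ'.dim
  have a3 := hall X hX.cl hX.le hXE hX.dim
  rcases a1 with rfl | rfl <;> rcases a2 with rfl | rfl <;> rcases a3 with rfl | rfl <;>
    first | exact hne rfl | exact h1 rfl | exact h2 rfl

/-- mixed faces: the induction step -/
theorem mix_step {A : Finset W} (hA : P.Cl A) (k : ℕ) (Wd : Finset (Finset W))
    (Q : Finset W → Prop) (D : ℕ)
    (IH : ∀ (B : Finset W) (T : Finset (Finset W)), P.Cl B → A ⊆ B → dm B = dm A + D + 1 →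
      (∀ z ∈ T, P.Cov A B z) → T.card + Wd.card + 1 ≤ D →
      (∃ a, P.Cov A B a ∧ a ∉ T ∧ a ∉ Wd ∧ Q a) → (∃ b, P.Cov A B b ∧ b ∉ T ∧ b ∉ Wd ∧ ¬ Q b) →
      (D - T.card).choose k ≤ P.cnt (fun F => A ⊆ F ∧ F ⊆ B ∧ dm F = dm A + k + 1 ∧
        (∀ z ∈ T, ¬ z ⊆ F) ∧ (∃ a, P.Cov A F a ∧ a ∉ Wd ∧ Q a) ∧
        (∃ b, P.Cov A F b ∧ b ∉ Wd ∧ ¬ Q b)))
    (B : Finset W) (T : Finset (Finset W)) (hB : P.Cl B) (hAB : A ⊆ B)
    (hd : dm B = dm A + (D + 1) + 1) (hT : ∀ z ∈ T, P.Cov A B z) (hc : T.card + Wd.card + 1 ≤ D + 1)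
    (ha : ∃ a, P.Cov A B a ∧ a ∉ T ∧ a ∉ Wd ∧ Q a)
    (hb : ∃ b, P.Cov A B b ∧ b ∉ T ∧ b ∉ Wd ∧ ¬ Q b) (hTne : T.Nonempty) :
    (D + 1 - T.card).choose k ≤ P.cnt (fun F => A ⊆ F ∧ F ⊆ B ∧ dm F = dm A + k + 1 ∧
        (∀ z ∈ T, ¬ z ⊆ F) ∧ (∃ a, P.Cov A F a ∧ a ∉ Wd ∧ Q a) ∧
        (∃ b, P.Cov A F b ∧ b ∉ Wd ∧ ¬ Q b)) := by
  classical
  obtain ⟨x, hx⟩ := hTne
  obtain ⟨a, ha1, ha2, ha3, ha4⟩ := ha
  obtain ⟨b, hb1, hb2, hb3, hb4⟩ := hb
  have hUc : (T ∪ Wd).card + 1 ≤ D + 1 := by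
    have := Finset.card_union_le T Wd
    omega
  obtain ⟨Z, Z', E, hZ, hZ', hE, h3, h4, h5, h6, h7, h8, h9, h10⟩ :=
    exists_cross hA hB hd (T ∪ Wd) hUc Q ha1 hb1 (by simp [ha2, ha3]) (by simp [hb2, hb3]) ha4 hb4
  rw [Finset.mem_union, not_or] at h7 h8
  obtain ⟨e, heX, heA⟩ := (hT x hx).exists_nm hA
  have hZE : P.Cov A E Z := ⟨hZ.cl, hZ.le, h3, hZ.dim⟩
  have hZE' : P.Cov A E Z' := ⟨hZ'.cl, hZ'.le, h4, hZ'.dim⟩
  have hne : Z ≠ Z' := by rintro rfl; exact h10 h9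
  have heE : e ∉ E := notMem_edge hA hE h6 hZE hZE' hne (hT x hx) (by rintro rfl; exact h7.1 hx)
    (by rintro rfl; exact h8.1 hx) heX heA
  obtain ⟨B', hB', g1, g2, g3, g4⟩ := coatom_avoid hE hB h5 ((hT x hx).ge heX) heE
  set T' : Finset (Finset W) := (T.erase x).filter (fun z => z ⊆ B') with hT'
  have hT'c : T'.card + 1 ≤ T.card := by
    have h11 : T'.card ≤ (T.erase x).card := Finset.card_filter_le _ _
    have h12 := Finset.card_erase_add_one hx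
    omega
  have hT'cov : ∀ z ∈ T', P.Cov A B' z := by
    intro z hz
    rw [hT', Finset.mem_filter, Finset.mem_erase] at hz
    have := hT z hz.1.2
    exact ⟨this.cl, this.le, hz.2, this.dim⟩
  have hnT' : ∀ z, z ∉ T → z ∉ T' := by
    intro z hz hz'
    rw [hT', Finset.mem_filter, Finset.mem_erase] at hz'
    exact hz hz'.1.2
  have key := IH B' T' hB' (hZ.le.trans (h3.trans g1)) (by omega) hT'cov (by omega)
    ⟨Z, ⟨hZ.cl, hZ.le, h3.trans g1, hZ.dim⟩, hnT' Z h7.1, h7.2, h9⟩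
    ⟨Z', ⟨hZ'.cl, hZ'.le, h4.trans g1, hZ'.dim⟩, hnT' Z' h8.1, h8.2, h10⟩
  refine (Nat.choose_le_choose k (by omega : D + 1 - T.card ≤ D - T'.card)).trans (key.trans ?_)
  apply cnt_mono
  rintro F hF ⟨f1, f2, f3, f4, f5, f6⟩
  refine ⟨f1, f2.trans g2, f3, ?_, f5, f6⟩
  intro z hz hzF
  by_cases hzx : z = x
  · subst hzx
    exact g4 (f2 (hzF heX))
  · refine f4 z ?_ hzF
    rw [hT', Finset.mem_filter, Finset.mem_erase]
    exact ⟨⟨hzx, hz⟩, hzF.trans f2⟩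

/-- number of mixed faces -/
theorem mix {A : Finset W} (hA : P.Cl A) (k : ℕ) (Wd : Finset (Finset W)) (hk : Wd.card + 1 ≤ k)
    (Q : Finset W → Prop) (D : ℕ) :
    ∀ (B : Finset W) (T : Finset (Finset W)), P.Cl B → A ⊆ B → dm B = dm A + D + 1 →
      (∀ z ∈ T, P.Cov A B z) → T.card + Wd.card + 1 ≤ D →
      (∃ a, P.Cov A B a ∧ a ∉ T ∧ a ∉ Wd ∧ Q a) → (∃ b, P.Cov A B b ∧ b ∉ T ∧ b ∉ Wd ∧ ¬ Q b) →
      (D - T.card).choose k ≤ P.cnt (fun F => A ⊆ F ∧ F ⊆ B ∧ dm F = dm A + k + 1 ∧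
        (∀ z ∈ T, ¬ z ⊆ F) ∧ (∃ a, P.Cov A F a ∧ a ∉ Wd ∧ Q a) ∧
        (∃ b, P.Cov A F b ∧ b ∉ Wd ∧ ¬ Q b)) := by
  classical
  induction D with
  | zero =>
    intro B T _ _ _ _ h
    omega
  | succ D ih =>
    intro B T hB hAB hd hT hc ha hb
    rcases T.eq_empty_or_nonempty with hT0 | hTne
    swap
    · exact mix_step hA k Wd Q D ih B T hB hAB hd hT hc ha hb hTne
    subst hT0
    simp only [Finset.card_empty, Nat.zero_add, Finset.notMem_empty, not_false_eq_true, true_and,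
      Nat.sub_zero, false_imp_iff, implies_true] at hc ha hb ⊢
    obtain ⟨a, ha1, ha3, ha4⟩ := ha
    obtain ⟨b, hb1, hb3, hb4⟩ := hb
    obtain ⟨Z, Z', E, hZ, hZ', hE, h3, h4, h5, h6, h7, h8, h9, h10⟩ :=
      exists_cross hA hB hd Wd hc Q ha1 hb1 ha3 hb3 ha4 hb4
    obtain ⟨k', rfl⟩ : ∃ k', k = k' + 1 := ⟨k - 1, by omega⟩
    have hAE : A ⊆ E := hZ.le.trans h3
    -- faces containing the crossing edge
    have N1 := cnt_between hE hB h5 k'
    have e1 : dm B - dm E = D := by omega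
    rw [e1] at N1
    obtain ⟨w, hwZ, hwA⟩ := hZ.exists_nm hA
    have hsplit : D.choose (k' + 1) ≤ P.cnt (fun F => A ⊆ F ∧ F ⊆ B ∧ dm F = dm A + (k' + 1) + 1 ∧
        ¬ Z ⊆ F ∧ (∃ a, P.Cov A F a ∧ a ∉ Wd ∧ Q a) ∧ (∃ b, P.Cov A F b ∧ b ∉ Wd ∧ ¬ Q b)) →
        (D + 1).choose (k' + 1) ≤ P.cnt (fun F => A ⊆ F ∧ F ⊆ B ∧ dm F = dm A + (k' + 1) + 1 ∧
        (∃ a, P.Cov A F a ∧ a ∉ Wd ∧ Q a) ∧ (∃ b, P.Cov A F b ∧ b ∉ Wd ∧ ¬ Q b)) := by
      intro N2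
      rw [Nat.choose_succ_succ']
      refine (add_le_add N1 N2).trans (cnt_add ?_ ?_ ?_)
      · rintro F hF ⟨f1, f2, f3⟩
        exact ⟨hAE.trans f1, f2, by omega, ⟨Z, ⟨hZ.cl, hZ.le, h3.trans f1, hZ.dim⟩, h7, h9⟩,
          ⟨Z', ⟨hZ'.cl, hZ'.le, h4.trans f1, hZ'.dim⟩, h8, h10⟩⟩
      · rintro F hF ⟨f1, f2, f3, f4, f5, f6⟩
        exact ⟨f1, f2, f3, f5, f6⟩
      · rintro F hF ⟨f1, f2, f3⟩ ⟨f4, f5, f6, f7, f8⟩
        exact f7 (h3.trans f1)
    by_cases hcase : Wd.card + 2 ≤ D + 1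
    · by_cases hother : ∃ a', P.Cov A B a' ∧ a' ≠ Z ∧ a' ∉ Wd ∧ Q a'
      · apply hsplit
        obtain ⟨a', g1, g2, g3, g4⟩ := hother
        have := mix_step hA (k' + 1) Wd Q D ih B {Z} hB hAB hd (by
          intro z hz
          rw [Finset.mem_singleton] at hz
          rw [hz]; exact hZ) (by rw [Finset.card_singleton]; omega)
          ⟨a', g1, by rw [Finset.mem_singleton]; exact g2, g3, g4⟩
          ⟨Z', hZ', by rw [Finset.mem_singleton]; rintro rfl; exact h10 h9, h8, h10⟩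
          (Finset.singleton_nonempty _)
        rw [Finset.card_singleton, Nat.add_sub_cancel] at this
        refine this.trans (cnt_mono ?_)
        rintro F hF ⟨f1, f2, f3, f4, f5, f6⟩
        exact ⟨f1, f2, f3, f4 Z (Finset.mem_singleton_self _), f5, f6⟩
      · push Not at hother
        have N3 := cnt_between hZ.cl hB hZ.ge (k' + 1)
        have e2 : dm B - dm Z = D + 1 := by
          have := hZ.dim
          omega
        rw [e2] at N3
        refine N3.trans (cnt_mono ?_)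
        rintro F hF ⟨f1, f2, f3⟩
        have hAF : A ⊆ F := hZ.le.trans f1
        have hdF : dm F = dm A + (k' + 1) + 1 := by
          have := hZ.dim
          omega
        refine ⟨hAF, f2, hdF, ⟨Z, ⟨hZ.cl, hZ.le, f1, hZ.dim⟩, h7, h9⟩, ?_⟩
        obtain ⟨b', g1, g2⟩ := exists_cov_notMem hA hF hAF (insert Z Wd) (by
          have := Finset.card_insert_le Z Wd
          omega)
        rw [Finset.mem_insert, not_or] at g2
        exact ⟨b', g1, g2.2, fun hQ => hother b' (g1.mono f2) g2.1 g2.2 hQ⟩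
    · apply hsplit
      rw [Nat.choose_eq_zero_of_lt (by omega)]
      exact Nat.zero_le _

end CP
end Pool.Agent.Helper715
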