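import Pool.Agent.Helper715.Sal1
import Pool.Agent.Helper715.Sal2

set_option autoImplicit false
set_option linter.unusedSectionVars false
set_option linter.unusedVariables false

namespace Pool.Agent.Helper715

open Finset

variable {W : Type*} [NormedAddCommGroup W] [InnerProductSpace ℝ W] [FiniteDimensional ℝ W]

namespace CP

variable {P : CP W}

/-- two disjoint sets of closed sets of dimension `s + 1` -/
structure Col (P : CP W) (s : ℕ) where
  a : Finset W → Prop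
  b : Finset W → Prop
  ha : ∀ F, a F → P.Cl F ∧ dm F = s + 1
  hb : ∀ F, b F → P.Cl F ∧ dm F = s + 1
  hab : ∀ F, a F → b F → False

namespace Col

variable {s : ℕ} (κ : Col P s)

/-- closed sets contained in faces of both colours -/
def CC (G : Finset W) : Prop := P.Cl G ∧ (∃ F, κ.a F ∧ G ⊆ F) ∧ (∃ F, κ.b F ∧ G ⊆ F)

open scoped Classical in
/-- two-coloured covers avoiding `T` -/
noncomputable def WT (G T : Finset W) : Finset (Finset W) :=
  P.V.powerset.filter (fun X => P.Cov G P.V X ∧ κ.CC X ∧ Disjoint X T)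

/-- uncoloured faces -/
noncomputable def XX (G T : Finset W) : ℕ :=
  P.cnt (fun F => G ⊆ F ∧ Disjoint F T ∧ dm F = s + 1 ∧ ¬ κ.a F ∧ ¬ κ.b F)

/-- uncoloured faces and two-coloured faces of dimension `r + 1` -/
noncomputable def VV (r : ℕ) (G T : Finset W) : ℕ :=
  P.cnt (fun F => G ⊆ F ∧ Disjoint F T ∧
    ((dm F = s + 1 ∧ ¬ κ.a F ∧ ¬ κ.b F) ∨ (dm F = r + 1 ∧ κ.CC F)))

variable {κ}

theorem mem_WT {G T X : Finset W} :
    X ∈ κ.WT G T ↔ P.Cov G P.V X ∧ κ.CC X ∧ Disjoint X T := by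
  classical
  rw [WT, Finset.mem_filter, Finset.mem_powerset]
  exact ⟨fun h => h.2, fun h => ⟨h.1.ge, h⟩⟩

theorem CC.mono {G H : Finset W} (hG : P.Cl G) (h : G ⊆ H) (hH : κ.CC H) : κ.CC G := by
  obtain ⟨_, ⟨F, h1, h2⟩, ⟨F', h3, h4⟩⟩ := hH
  exact ⟨hG, ⟨F, h1, h.trans h2⟩, ⟨F', h3, h.trans h4⟩⟩

theorem CC.dm_le {G : Finset W} (hG : κ.CC G) : dm G ≤ s := by
  obtain ⟨h0, ⟨F, h1, h2⟩, ⟨F', h3, h4⟩⟩ := hG
  by_contra hcon
  obtain ⟨h5, h6⟩ := κ.ha F h1
  obtain ⟨h7, h8⟩ := κ.hb F' h3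
  have e1 := eq_of_dm_le h0 h5 h2 (by omega)
  have e2 := eq_of_dm_le h0 h7 h4 (by omega)
  subst e1
  subst e2
  exact κ.hab _ h1 h3

theorem XX_le_VV (r : ℕ) (G T : Finset W) : κ.XX G T ≤ κ.VV r G T := by
  apply cnt_mono
  rintro F hF ⟨h1, h2, h3⟩
  exact ⟨h1, h2, Or.inl h3⟩

open scoped Classical in
theorem VV_rec (r : ℕ) {G H T : Finset W} (hH : H ∈ κ.WT G T) {v : W} (hv : v ∈ H) :
    κ.VV r H T + κ.VV r G (insert v T) ≤ κ.VV r G T := by
  rw [mem_WT] at hH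
  apply cnt_add
  · rintro F hF ⟨h1, h2⟩
    exact ⟨hH.1.le.trans h1, h2⟩
  · rintro F hF ⟨h1, h2, h3⟩
    exact ⟨h1, h2.mono_right (Finset.subset_insert _ _), h3⟩
  · rintro F hF ⟨h1, h2⟩ ⟨h3, h4, h5⟩
    exact (Finset.disjoint_left.1 h4) (h1 hv) (Finset.mem_insert_self _ _)

open scoped Classical in
theorem XX_rec {G H T : Finset W} (hH : H ∈ κ.WT G T) {v : W} (hv : v ∈ H) :
    κ.XX H T + κ.XX G (insert v T) ≤ κ.XX G T := by
  rw [mem_WT] at hH
  apply cnt_add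
  · rintro F hF ⟨h1, h2⟩
    exact ⟨hH.1.le.trans h1, h2⟩
  · rintro F hF ⟨h1, h2, h3⟩
    exact ⟨h1, h2.mono_right (Finset.subset_insert _ _), h3⟩
  · rintro F hF ⟨h1, h2⟩ ⟨h3, h4, h5⟩
    exact (Finset.disjoint_left.1 h4) (h1 hv) (Finset.mem_insert_self _ _)

omit κ in
theorem exists_zx {G : Finset W} (hG : P.Cl G) {x : W} (hx : x ∈ P.V) (hxG : x ∉ G) :
    ∃ z, P.Cov G P.V z ∧ ∀ F, P.Cl F → G ⊆ F → x ∈ F → z ⊆ F := by
  classical
  have hI : insert x G ⊆ P.V := Finset.insert_subset hx hG.sub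
  set K := perp P.V (perp P.G (insert x G)) with hK
  have hKcl : P.Cl K := Cl_perpV (perp_sub _ _)
  have hIK : insert x G ⊆ K := le_perp_perp hI
  have hGK : G ⊆ K := (Finset.subset_insert _ _).trans hIK
  obtain ⟨C, hC, h1, h2, h3⟩ := exists_cover hG hKcl hGK (by
    intro h
    apply hxG
    rw [h]
    exact hIK (Finset.mem_insert_self _ _))
  refine ⟨C, ⟨hC, h1, hC.sub, h3⟩, fun F hF hGF hxF => h2.trans ?_⟩
  have h4 : insert x G ⊆ F := Finset.insert_subset hxF hGF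
  have h5 : perp P.V (perp P.G (insert x G)) ⊆ perp P.V (perp P.G F) := perp_anti (perp_anti h4)
  rwa [show perp P.V (perp P.G F) = F from hF] at h5

theorem X_bound {G T : Finset W} (hG : κ.CC G) (hGT : Disjoint G T)
    (hs : s + 2 ≤ Module.finrank ℝ W) (h1 : T.card + (κ.WT G T).card + dm G ≤ s)
    (h2 : (κ.WT G T).card + dm G + 1 ≤ s) :
    (Module.finrank ℝ W - 1 - dm G - T.card).choose (s - dm G) ≤ κ.XX G T := by
  classical
  have hz : ∀ x : W, ∃ z : Finset W, x ∈ P.V → x ∉ G → P.Cov G P.V z ∧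
      ∀ F, P.Cl F → G ⊆ F → x ∈ F → z ⊆ F := by
    intro x
    by_cases hx : x ∈ P.V ∧ x ∉ G
    · obtain ⟨z, hz⟩ := exists_zx hG.1 hx.1 hx.2
      exact ⟨z, fun _ _ => hz⟩
    · exact ⟨∅, fun h h' => absurd ⟨h, h'⟩ hx⟩
  choose zx hzx using hz
  set T' : Finset (Finset W) := (T.filter (fun x => x ∈ P.V)).image zx with hT'
  have hnG : ∀ x ∈ T, x ∉ G := fun x hx hxG => (Finset.disjoint_left.1 hGT) hxG hx
  have hT'mem : ∀ x ∈ T, x ∈ P.V → zx x ∈ T' := fun x hx hxV =>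
    Finset.mem_image_of_mem _ (Finset.mem_filter.2 ⟨hx, hxV⟩)
  have hT'cov : ∀ z ∈ T', P.Cov G P.V z := by
    intro z hz
    rw [hT', Finset.mem_image] at hz
    obtain ⟨x, hx, rfl⟩ := hz
    rw [Finset.mem_filter] at hx
    exact (hzx x hx.2 (hnG x hx.1)).1
  have hT'c : T'.card ≤ T.card := Finset.card_image_le.trans (Finset.card_filter_le _ _)
  have hGcl := hG.1
  obtain ⟨_, ⟨FA, hFA, hGFA⟩, ⟨FB, hFB, hGFB⟩⟩ := id hG
  obtain ⟨hFAcl, hFAd⟩ := κ.ha FA hFA
  obtain ⟨hFBcl, hFBd⟩ := κ.hb FB hFB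
  have hUc : (T' ∪ κ.WT G T).card + dm G ≤ s := by
    have := Finset.card_union_le T' (κ.WT G T)
    omega
  obtain ⟨a, ha1, ha2⟩ := exists_cov_notMem hGcl hFAcl hGFA (T' ∪ κ.WT G T) (by omega)
  obtain ⟨b, hb1, hb2⟩ := exists_cov_notMem hGcl hFBcl hGFB (T' ∪ κ.WT G T) (by omega)
  rw [Finset.mem_union, not_or] at ha2 hb2
  have key := mix hGcl (s - dm G) (κ.WT G T) (by omega) (fun c => ∃ F, κ.a F ∧ c ⊆ F)
    (Module.finrank ℝ W - 1 - dm G) P.V T' top_cl hGcl.sub (by rw [dm_top]; omega) hT'cov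
    (by omega) ⟨a, ha1.mono hFAcl.sub, ha2.1, ha2.2, FA, hFA, ha1.ge⟩
    ⟨b, hb1.mono hFBcl.sub, hb2.1, hb2.2, by
      rintro ⟨F, hF, hbF⟩
      apply hb2.2
      rw [mem_WT]
      refine ⟨hb1.mono hFBcl.sub, ⟨hb1.cl, ⟨F, hF, hbF⟩, ⟨FB, hFB, hb1.ge⟩⟩, ?_⟩
      rw [Finset.disjoint_left]
      intro x hxb hxT
      have hxV := hb1.cl.sub hxb
      obtain ⟨g1, g2⟩ := hzx x hxV (hnG x hxT)
      have g3 := g2 b hb1.cl hb1.le hxb
      have g4 := eq_of_dm_le g1.cl hb1.cl g3 (by rw [g1.dim, hb1.dim])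
      apply hb2.1
      rw [← g4]
      exact hT'mem x hxT hxV⟩
  refine (Nat.choose_le_choose _ (by omega)).trans (key.trans ?_)
  apply cnt_mono
  rintro F hF ⟨f1, f2, f3, f4, ⟨c, c1, c2, c3⟩, ⟨c', c1', c2', c3'⟩⟩
  have hdis : Disjoint F T := by
    rw [Finset.disjoint_left]
    intro x hxF hxT
    have hxV := hF.sub hxF
    obtain ⟨g1, g2⟩ := hzx x hxV (hnG x hxT)
    exact f4 (zx x) (hT'mem x hxT hxV) (g2 F hF f1 hxF)
  refine ⟨f1, hdis, by omega, ?_, ?_⟩
  · intro haF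
    exact c3' ⟨F, haF, c1'.ge⟩
  · intro hbF
    obtain ⟨F', hF', hcF'⟩ := c3
    apply c2
    rw [mem_WT]
    exact ⟨c1.mono f2, ⟨c1.cl, ⟨F', hF', hcF'⟩, ⟨F, hbF, c1.ge⟩⟩, hdis.mono_left c1.ge⟩

theorem WT_child {G H : Finset W} (hG : P.Cl G) (hH : H ∈ κ.WT G ∅) :
    (κ.WT H ∅).card + 1 ≤ (κ.WT G ∅).card := by
  classical
  obtain ⟨hH1, hH2, _⟩ := mem_WT.1 hH
  have hex : ∀ E : Finset W, ∃ C : Finset W, E ∈ κ.WT H ∅ → P.Cov G E C ∧ C ≠ H ∧ κ.CC C := by
    intro E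
    by_cases hE : E ∈ κ.WT H ∅
    · obtain ⟨h1, h2, _⟩ := mem_WT.1 hE
      have hd : dm E = dm G + 2 := by rw [h1.dim, hH1.dim]
      obtain ⟨C1, C2, hne, ⟨a1, a2, a3, a4⟩, ⟨b1, b2, b3, b4⟩, hall⟩ :=
        diamond hG h1.cl (hH1.le.trans h1.le) hd
      by_cases hc : C1 = H
      · refine ⟨C2, fun _ => ⟨⟨b1, b2, b3, b4⟩, ?_, CC.mono b1 b3 h2⟩⟩
        rintro rfl
        exact hne hc
      · exact ⟨C1, fun _ => ⟨⟨a1, a2, a3, a4⟩, hc, CC.mono a1 a3 h2⟩⟩
    · exact ⟨∅, fun h => absurd h hE⟩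
  choose f hf using hex
  have h1 : (κ.WT H ∅).card ≤ ((κ.WT G ∅).erase H).card := by
    apply Finset.card_le_card_of_injOn f
    · intro E hE
      obtain ⟨h2, h3, h4⟩ := hf E hE
      rw [Finset.mem_coe, Finset.mem_erase, mem_WT]
      exact ⟨h3, h2.mono (mem_WT.1 hE).1.ge, h4, Finset.disjoint_empty_right _⟩
    · intro E hE E' hE' heq
      obtain ⟨h2, h3, h4⟩ := hf E hE
      obtain ⟨h2', h3', h4'⟩ := hf E' hE'
      have hE1 := (mem_WT.1 hE).1
      have hE1' := (mem_WT.1 hE').1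
      obtain ⟨c, hc, hcG⟩ := h2.exists_nm hG
      have hcH : c ∉ H := fun hcH => h3 (cover_eq hG h2.cl hH1.cl h2.le hH1.le h2.dim hH1.dim hc
        hcG hcH)
      have hcE' : c ∈ E' := by
        rw [heq] at hc
        exact h2'.ge hc
      exact cover_eq hH1.cl hE1.cl hE1'.cl hE1.le hE1'.le hE1.dim hE1'.dim (h2.ge hc) hcH hcE'
  have h2 := Finset.card_erase_add_one hH
  omega

open scoped Classical in
theorem WT_insert {G H T : Finset W} (hH : H ∈ κ.WT G T) {v : W} (hv : v ∈ H) :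
    (κ.WT G (insert v T)).card + 1 ≤ (κ.WT G T).card := by
  have h1 : κ.WT G (insert v T) ⊆ (κ.WT G T).erase H := by
    intro X hX
    rw [mem_WT] at hX
    rw [Finset.mem_erase, mem_WT]
    refine ⟨?_, hX.1, hX.2.1, hX.2.2.mono_right (Finset.subset_insert _ _)⟩
    rintro rfl
    exact (Finset.disjoint_left.1 hX.2.2) hv (Finset.mem_insert_self _ _)
  have h2 := Finset.card_le_card h1
  have h3 := Finset.card_erase_add_one hH
  omega

omit κ in
theorem pascal' (a b : ℕ) (ha : 1 ≤ a) (hb : 1 ≤ b) :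
    a.choose b = (a - 1).choose (b - 1) + (a - 1).choose b := by
  obtain ⟨a, rfl⟩ : ∃ a', a = a' + 1 := ⟨a - 1, by omega⟩
  obtain ⟨b, rfl⟩ : ∃ b', b = b' + 1 := ⟨b - 1, by omega⟩
  simp only [Nat.add_sub_cancel]
  exact Nat.choose_succ_succ' a b

/-- the common step of the next two results -/
theorem step_bound {G H : Finset W} (hG : κ.CC G) (hs : s + 2 ≤ Module.finrank ℝ W)
    (heq : (κ.WT G ∅).card + dm G = s) (hH : H ∈ κ.WT G ∅) {v : W} (hv : v ∈ H) (hvG : v ∉ G) :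
    (Module.finrank ℝ W - 1 - dm G - 1).choose (s - dm G) ≤ κ.XX G {v} := by
  classical
  have h1 := WT_insert hH hv
  rw [insert_empty_eq] at h1
  have h2 := X_bound (κ := κ) (G := G) (T := {v}) hG (Finset.disjoint_singleton_right.2 hvG) hs
    (by rw [Finset.card_singleton]; omega) (by omega)
  rwa [Finset.card_singleton] at h2

theorem XX0 (hs : s + 2 ≤ Module.finrank ℝ W) (n : ℕ) :
    ∀ G, κ.CC G → s - dm G = n → (κ.WT G ∅).card + dm G ≤ s →
      (Module.finrank ℝ W - 1 - dm G).choose (s - dm G) ≤ κ.XX G ∅ + 1 := by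
  classical
  induction n with
  | zero =>
    intro G hG hn _
    rw [hn, Nat.choose_zero_right]
    omega
  | succ n ih =>
    intro G hG hn hle
    rcases Nat.lt_or_ge ((κ.WT G ∅).card + dm G) s with hlt | hge
    · have := X_bound (κ := κ) (G := G) (T := ∅) hG (Finset.disjoint_empty_right _) hs
        (by rw [Finset.card_empty]; omega) (by omega)
      rw [Finset.card_empty, Nat.sub_zero] at this
      omega
    · have heq : (κ.WT G ∅).card + dm G = s := le_antisymm hle hge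
      obtain ⟨H, hH⟩ := Finset.card_pos.1 (by omega : 0 < (κ.WT G ∅).card)
      obtain ⟨hH1, hH2, _⟩ := mem_WT.1 hH
      obtain ⟨v, hv, hvG⟩ := hH1.exists_nm hG.1
      have h1 := WT_child hG.1 hH
      have hd := hH1.dim
      have h2 := ih H hH2 (by omega) (by omega)
      have h3 := step_bound hG hs heq hH hv hvG
      have h4 := XX_rec hH hv
      rw [insert_empty_eq] at h4
      have h5 := pascal' (Module.finrank ℝ W - 1 - dm G) (s - dm G) (by omega) (by omega)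
      have e1 : Module.finrank ℝ W - 1 - dm H = Module.finrank ℝ W - 1 - dm G - 1 := by omega
      have e2 : s - dm H = s - dm G - 1 := by omega
      rw [e1, e2] at h2
      omega

theorem VV0 (r : ℕ) (hr : r < s) (hs : s + 2 ≤ Module.finrank ℝ W) (n : ℕ) :
    ∀ G, κ.CC G → dm G + n = r + 1 → (κ.WT G ∅).card + dm G ≤ s →
      (Module.finrank ℝ W - 1 - dm G).choose (s - dm G) ≤ κ.VV r G ∅ := by
  classical
  induction n with
  | zero =>
    intro G hG hn hle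
    refine (XX0 hs _ G hG rfl hle).trans ?_
    have h1 : 1 ≤ P.cnt (fun F => F = G) := cnt_pos hG.1 rfl
    refine (add_le_add le_rfl h1).trans (cnt_add ?_ ?_ ?_)
    · rintro F hF ⟨h1, h2, h3⟩
      exact ⟨h1, h2, Or.inl h3⟩
    · rintro F hF rfl
      exact ⟨Finset.Subset.refl _, Finset.disjoint_empty_right _, Or.inr ⟨by omega, hG⟩⟩
    · rintro F hF ⟨h1, h2, h3⟩ rfl
      omega
  | succ n ih =>
    intro G hG hn hle
    rcases Nat.lt_or_ge ((κ.WT G ∅).card + dm G) s with hlt | hge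
    · have := X_bound (κ := κ) (G := G) (T := ∅) hG (Finset.disjoint_empty_right _) hs
        (by rw [Finset.card_empty]; omega) (by omega)
      rw [Finset.card_empty, Nat.sub_zero] at this
      exact this.trans (XX_le_VV r _ _)
    · have heq : (κ.WT G ∅).card + dm G = s := le_antisymm hle hge
      obtain ⟨H, hH⟩ := Finset.card_pos.1 (by omega : 0 < (κ.WT G ∅).card)
      obtain ⟨hH1, hH2, _⟩ := mem_WT.1 hH
      obtain ⟨v, hv, hvG⟩ := hH1.exists_nm hG.1
      have h1 := WT_child hG.1 hH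
      have hd := hH1.dim
      have h2 := ih H hH2 (by omega) (by omega)
      have h3 := (step_bound hG hs heq hH hv hvG).trans (XX_le_VV r _ _)
      have h4 := VV_rec r hH hv
      rw [insert_empty_eq] at h4
      have h5 := pascal' (Module.finrank ℝ W - 1 - dm G) (s - dm G) (by omega) (by omega)
      have e1 : Module.finrank ℝ W - 1 - dm H = Module.finrank ℝ W - 1 - dm G - 1 := by omega
      have e2 : s - dm H = s - dm G - 1 := by omega
      rw [e1, e2] at h2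
      omega

/-- the bound at a deficient node -/
theorem V_bound {r : ℕ} (hr : r < s) (hs : s + 2 ≤ Module.finrank ℝ W) {G T : Finset W}
    (hG : κ.CC G) (hGr : dm G ≤ r) (hGT : Disjoint G T) {τ : ℕ} (hT : T.card ≤ τ)
    (h : (κ.WT G T).card + τ + dm G ≤ s) :
    (Module.finrank ℝ W - 1 - dm G - τ).choose (s - dm G) ≤ κ.VV r G T := by
  rcases Nat.eq_zero_or_pos τ with h0 | h0
  · subst h0
    have : T = ∅ := Finset.card_eq_zero.1 (by omega)
    subst this
    exact VV0 r hr hs (r + 1 - dm G) G hG (by omega) (by omega)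
  · have h1 := X_bound hG hGT hs (by omega) (by omega)
    exact ((Nat.choose_le_choose _ (by omega)).trans h1).trans (XX_le_VV r _ _)

end Col
end CP
end Pool.Agent.Helper715
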