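import Pool.Agent.Helper715.Sal3

set_option autoImplicit false
set_option linter.unusedSectionVars false
set_option linter.unusedVariables false

namespace Pool.Agent.Helper715

open Finset

namespace Sal

theorem conv (r q c : ℕ) : ∑ t ∈ range (c + 1), wt r t * wt q (c - t) = wt (r + q) c := by
  induction r generalizing c with
  | zero =>
    rw [Finset.sum_eq_single 0]
    · simp [wt]
    · intro t _ ht
      simp [wt, ht]
    · intro h
      simp at h
  | succ r ih =>
    induction c with
    | zero => simp [wt_zero]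
    | succ c ihc =>
      have e1 : r + 1 + q = (r + q) + 1 := by ring
      rw [e1, wt_succ, ← ih (c + 1), ← e1, ← ihc]
      rw [Finset.sum_range_succ' _ (c + 1), Finset.sum_range_succ' (fun t => wt r t * wt q (c + 1 - t)) (c + 1)]
      simp only [wt_zero, one_mul, Nat.sub_zero, Nat.add_sub_add_right, wt_succ, add_mul,
        Finset.sum_add_distrib]
      ring

theorem wt_two (t : ℕ) : wt 2 t = t + 1 := by
  simp [wt]

theorem num1 (r p c t0 : ℕ) (ht0 : t0 ≤ p + 1) :
    min ((r + p + 1).choose (r + 1)) ((c + r + p).choose (r + p)) ≤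
      ∑ t ∈ range (p + 1), wt r t * (if t < t0 then (c + p - t).choose p else p + 1 - t) := by
  rcases Nat.lt_or_ge c t0 with h | h
  · refine (min_le_right _ _).trans ?_
    have e1 := conv r (p + 1) c
    have e2 : wt (r + (p + 1)) c = (c + r + p).choose (r + p) := by
      have : r + (p + 1) = (r + p) + 1 := by ring
      rw [this]
      simp only [wt]
      rw [← add_assoc]
    rw [← e2, ← e1]
    refine le_trans (Finset.sum_le_sum ?_) (Finset.sum_le_sum_of_subset
      (Finset.range_subset_range.2 (by omega : c + 1 ≤ p + 1)))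
    intro t ht
    rw [Finset.mem_range] at ht
    rw [if_pos (by omega)]
    apply Nat.mul_le_mul_left
    simp only [wt]
    have : c - t + p = c + p - t := by omega
    rw [this]
  · refine (min_le_left _ _).trans ?_
    have e1 := conv r 2 p
    have e2 : wt (r + 2) p = (r + p + 1).choose (r + 1) := by
      simp only [wt]
      congr 1
      ring
    rw [← e2, ← e1]
    apply Finset.sum_le_sum
    intro t ht
    rw [Finset.mem_range] at ht
    apply Nat.mul_le_mul_left
    rw [wt_two]
    by_cases h1 : t < t0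
    · rw [if_pos h1]
      have h2 : (p + 1).choose p ≤ (c + p - t).choose p := Nat.choose_le_choose _ (by omega)
      rw [Nat.choose_succ_self_right] at h2
      omega
    · rw [if_neg h1]
      omega

theorem abel (g q D m : ℕ) (hm : m + 1 ≤ D) (hq : 1 ≤ q) :
    ∑ t ∈ range (m + 1), wt g t * (D - t).choose q =
      ∑ t ∈ range (m + 1), wt (g + 1) t * (D - 1 - t).choose (q - 1) +
        wt (g + 1) m * (D - m - 1).choose q := by
  obtain ⟨q, rfl⟩ : ∃ q', q = q' + 1 := ⟨q - 1, by omega⟩
  simp only [Nat.add_sub_cancel]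
  induction m with
  | zero =>
    simp only [Nat.zero_add, Finset.sum_range_one, wt_zero, Nat.sub_zero, one_mul]
    obtain ⟨D, rfl⟩ : ∃ D', D = D' + 1 := ⟨D - 1, by omega⟩
    simp only [Nat.add_sub_cancel]
    exact Nat.choose_succ_succ' D q
  | succ m ih =>
    rw [Finset.sum_range_succ, ih (by omega), Finset.sum_range_succ _ (m + 1), wt_succ g m]
    obtain ⟨D', hD'⟩ : ∃ D', D = D' + m + 2 := ⟨D - (m + 2), by omega⟩
    have e1 : D - m - 1 = D' + 1 := by omega
    have e2 : D - (m + 1) = D' + 1 := by omega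
    have e3 : D - 1 - (m + 1) = D' := by omega
    have e4 : D - (m + 1) - 1 = D' := by omega
    rw [e1, e2, e3, Nat.add_sub_cancel, Nat.choose_succ_succ']
    ring

theorem num_step (g q D : ℕ) (hq : 1 ≤ q) (hD : q + 1 ≤ D) :
    ∑ t ∈ range q, wt (g + 1) t * (D - 1 - t).choose (q - 1) ≤
      ∑ t ∈ range (q + 1), wt g t * (D - t).choose q := by
  rw [abel g q D q hD hq, Finset.sum_range_succ _ q]
  omega

theorem num2 (r s d : ℕ) (hr : r < s) (hs : s < d) (n : ℕ) : ∀ g, g + n = r →
    min ((s + 1).choose (r + 1)) (d.choose s) ≤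
      ∑ t ∈ range (s + 1 - g), wt g t * (d - g - t).choose (s - g) := by
  induction n with
  | zero =>
    intro g hg
    have hg' : g = r := by omega
    subst hg'
    have := num1 g (s - g) (d - s) (s - g + 1) le_rfl
    have e1 : g + (s - g) + 1 = s + 1 := by omega
    have e2 : d - s + g + (s - g) = d := by omega
    have e3 : g + (s - g) = s := by omega
    have e4 : s - g + 1 = s + 1 - g := by omega
    rw [e1, e2, e3, e4] at this
    refine this.trans (Finset.sum_le_sum ?_)
    intro t ht
    rw [Finset.mem_range] at ht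
    rw [if_pos ht]
    have e5 : d - s + (s - g) - t = d - g - t := by omega
    rw [e5]
  | succ n ih =>
    intro g hg
    refine (ih (g + 1) (by omega)).trans ?_
    have := num_step g (s - g) (d - g) (by omega) (by omega)
    have e1 : s + 1 - (g + 1) = s - g := by omega
    have e2 : s + 1 - g = s - g + 1 := by omega
    have e3 : d - (g + 1) = d - g - 1 := by omega
    have e4 : s - (g + 1) = s - g - 1 := by omega
    rw [e1, e2, e3, e4]
    exact this

end Sal

variable {W : Type*} [NormedAddCommGroup W] [InnerProductSpace ℝ W] [FiniteDimensional ℝ W]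

namespace CP

variable {P : CP W}

/-- chains of vertex sets growing by at most one element -/
structure Chn (T : ℕ → Finset W) : Prop where
  zero : T 0 = ∅
  mono : ∀ t, T t ⊆ T (t + 1)
  one : ∀ t, ∀ x ∈ T (t + 1), ∀ y ∈ T (t + 1), x ∉ T t → y ∉ T t → x = y

theorem Chn.mono' {T : ℕ → Finset W} (h : Chn T) {a b : ℕ} (hab : a ≤ b) : T a ⊆ T b :=
  monotone_nat_of_le_succ (f := T) h.mono hab

theorem Chn.card {T : ℕ → Finset W} (h : Chn T) (t : ℕ) : (T t).card ≤ t := by
  classical
  induction t with
  | zero => rw [h.zero]; simp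
  | succ t ih =>
    have h1 := Finset.card_le_card_sdiff_add_card (s := T (t + 1)) (t := T t)
    have h2 : (T (t + 1) \ T t).card ≤ 1 := by
      rw [Finset.card_le_one]
      intro a ha b hb
      rw [Finset.mem_sdiff] at ha hb
      exact h.one t a ha.1 b hb.1 ha.2 hb.2
    omega

namespace Col

variable {s : ℕ} {κ : Col P s}

theorem WT_step {G : Finset W} (hG : P.Cl G) {T : ℕ → Finset W} (hT : Chn T) (t : ℕ)
    (hdis : Disjoint G (T (t + 1))) : (κ.WT G (T t)).card ≤ (κ.WT G (T (t + 1))).card + 1 := by
  classical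
  have h1 := Finset.card_le_card_sdiff_add_card (s := κ.WT G (T t)) (t := κ.WT G (T (t + 1)))
  have h2 : (κ.WT G (T t) \ κ.WT G (T (t + 1))).card ≤ 1 := by
    rw [Finset.card_le_one]
    have key : ∀ X ∈ κ.WT G (T t) \ κ.WT G (T (t + 1)), P.Cov G P.V X ∧
        ∃ x ∈ X, x ∈ T (t + 1) ∧ x ∉ T t := by
      intro X hX
      rw [Finset.mem_sdiff, mem_WT, mem_WT] at hX
      obtain ⟨⟨a1, a2, a3⟩, a4⟩ := hX
      refine ⟨a1, ?_⟩
      have a5 : ¬ Disjoint X (T (t + 1)) := fun h => a4 ⟨a1, a2, h⟩
      rw [Finset.not_disjoint_iff] at a5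
      obtain ⟨x, hx, hx'⟩ := a5
      exact ⟨x, hx, hx', fun h => (Finset.disjoint_left.1 a3) hx h⟩
    intro X hX Y hY
    obtain ⟨a1, x, a2, a3, a4⟩ := key X hX
    obtain ⟨b1, y, b2, b3, b4⟩ := key Y hY
    have hxy := hT.one t x a3 y b3 a4 b4
    subst hxy
    exact cover_eq hG a1.cl b1.cl a1.le b1.le a1.dim b1.dim a2
      (fun h => (Finset.disjoint_left.1 hdis) h a3) b2
  omega

theorem labels {G : Finset W} {T : ℕ → Finset W} (q t1 : ℕ)
    (hfull : ∀ τ, t1 ≤ τ → τ ≤ q → q ≤ (κ.WT G (T τ)).card + τ) (m : ℕ) (hm : m + t1 ≤ q) :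
    ∃ z : ℕ → Finset W, (∀ j, q - m < j → j ≤ q → z j ∈ κ.WT G (T (j - 1))) ∧
      ∀ j j', q - m < j → j ≤ q → q - m < j' → j' ≤ q → z j = z j' → j = j' := by
  classical
  induction m with
  | zero => exact ⟨fun _ => ∅, fun j h1 h2 => by omega, fun j j' h1 h2 => by omega⟩
  | succ m ih =>
    obtain ⟨z, hz1, hz2⟩ := ih (by omega)
    set S := (Finset.Ioc (q - m) q).image z with hS
    have hSc : S.card ≤ m := by
      refine Finset.card_image_le.trans ?_
      rw [Nat.card_Ioc]
      omega
    have h1 := hfull (q - m - 1) (by omega) (by omega)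
    obtain ⟨X, hX, hXS⟩ := Finset.exists_mem_notMem_of_card_lt_card
      (s := S) (t := κ.WT G (T (q - m - 1))) (by omega)
    refine ⟨fun j => if j = q - m then X else z j, ?_, ?_⟩
    · intro j h2 h3
      by_cases hj : j = q - m
      · simp only [hj, if_true]; exact hX
      · simp only [hj, if_false]
        exact hz1 j (by omega) h3
    · have hne : ∀ j, q - m < j → j ≤ q → z j ≠ X := by
        intro j h2 h3 h4
        apply hXS
        rw [hS, Finset.mem_image]
        exact ⟨j, Finset.mem_Ioc.2 ⟨h2, h3⟩, h4⟩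
      intro j j' h2 h3 h4 h5 heq
      by_cases hj : j = q - m
      · by_cases hj' : j' = q - m
        · omega
        · simp only [hj, hj', if_true, if_false] at heq
          exact absurd heq.symm (hne j' (by omega) h5)
      · by_cases hj' : j' = q - m
        · simp only [hj, hj', if_true, if_false] at heq
          exact absurd heq (hne j (by omega) h3)
        · simp only [hj, hj', if_false] at heq
          exact hz2 j j' (by omega) h3 (by omega) h5 heq

theorem WT_le_VV {r : ℕ} {G T : Finset W} (hG : dm G = r) : (κ.WT G T).card ≤ κ.VV r G T := by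
  apply le_cnt
  intro X hX
  obtain ⟨h1, h2, h3⟩ := mem_WT.1 hX
  exact ⟨h1.cl, h1.le, h3, Or.inr ⟨by rw [h1.dim, hG], h2⟩⟩

end Col
end CP
end Pool.Agent.Helper715
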