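import Pool.Agent.Helper715.Sal4

set_option autoImplicit false
set_option linter.unusedSectionVars false
set_option linter.unusedVariables false

namespace Pool.Agent.Helper715

open Finset

variable {W : Type*} [NormedAddCommGroup W] [InnerProductSpace ℝ W] [FiniteDimensional ℝ W]

namespace CP

variable {P : CP W}

namespace Col

variable {s : ℕ} {κ : Col P s}

open Sal in
open scoped Classical in
/-- the step at a full node -/
theorem full_step {r : ℕ} (hr : r < s) (hs : s + 2 ≤ Module.finrank ℝ W) {G : Finset W}
    (hG : κ.CC G) (hGr : dm G < r) {T : ℕ → Finset W} (hT : Chn T) {t1 : ℕ}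
    (hdis : ∀ t ≤ s - dm G, Disjoint G (T t)) (ht1 : t1 ≤ s + 1 - dm G)
    (hfull : ∀ τ, t1 ≤ τ → τ ≤ s + 1 - dm G → s + 1 - dm G ≤ (κ.WT G (T τ)).card + τ)
    (IH : ∀ (G' : Finset W) (T' : ℕ → Finset W) (t0 : ℕ), κ.CC G' → dm G' = dm G + 1 → Chn T' →
      (∀ t ≤ s - dm G', Disjoint G' (T' t)) → t0 ≤ s + 1 - dm G' →
      min ((s + 1).choose (r + 1)) ((Module.finrank ℝ W - 1).choose s) ≤
        ∑ t ∈ range (s + 1 - dm G'), wt (dm G') t * (if t < t0 then
          (Module.finrank ℝ W - 1 - dm G' - t).choose (s - dm G') else κ.VV r G' (T' t))) :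
    min ((s + 1).choose (r + 1)) ((Module.finrank ℝ W - 1).choose s) ≤
      ∑ t ∈ range (s + 1 - dm G), wt (dm G) t * (if t < t1 then
        (Module.finrank ℝ W - 1 - dm G - t).choose (s - dm G) else κ.VV r G (T t)) := by
  set g := dm G with hg
  set q := s + 1 - g with hq
  set N := Module.finrank ℝ W with hN
  set K := min ((s + 1).choose (r + 1)) ((N - 1).choose s) with hK
  have hgs : g ≤ s := hG.dm_le
  obtain ⟨z, hz1, hz2⟩ := labels (κ := κ) (G := G) (T := T) q t1 hfull (q - t1) (by omega)
  have hqt : q - (q - t1) = t1 := by omega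
  rw [hqt] at hz1 hz2
  have hzcov : ∀ j, t1 < j → j ≤ q → P.Cov G P.V (z j) ∧ κ.CC (z j) ∧ Disjoint (z j) (T (j - 1)) :=
    fun j h1 h2 => mem_WT.1 (hz1 j h1 h2)
  have hrep : ∀ j, ∃ v : W, t1 < j → j ≤ q → v ∈ z j ∧ v ∉ G := by
    intro j
    by_cases h : t1 < j ∧ j ≤ q
    · obtain ⟨v, h1, h2⟩ := (hzcov j h.1 h.2).1.exists_nm hG.1
      exact ⟨v, fun _ _ => ⟨h1, h2⟩⟩
    · exact ⟨0, fun h1 h2 => absurd ⟨h1, h2⟩ h⟩
  choose vr hvr using hrep
  have hvz : ∀ j u, t1 < j → j ≤ q → t1 < u → u ≤ q → j ≠ u → vr j ∉ z u := by
    intro j u h1 h2 h3 h4 hne hcon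
    obtain ⟨a1, _, _⟩ := hzcov j h1 h2
    obtain ⟨b1, _, _⟩ := hzcov u h3 h4
    exact hne (hz2 j u h1 h2 h3 h4 (cover_eq hG.1 a1.cl b1.cl a1.le b1.le a1.dim b1.dim
      (hvr j h1 h2).1 (hvr j h1 h2).2 hcon))
  set TT : ℕ × Finset ℕ → Finset W := fun p => T p.1 ∪ p.2.image vr with hTT
  -- disjointness of a child from the set of a state
  have hTTdis : ∀ (i : ℕ) (R : Finset ℕ) (u : ℕ), t1 < u → u ≤ q → i < u → u ∉ R →
      (∀ j ∈ R, t1 < j ∧ j ≤ q) → Disjoint (z u) (TT (i, R)) := by
    intro i R u h1 h2 h3 h4 h5
    rw [hTT, Finset.disjoint_union_right]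
    constructor
    · exact (hzcov u h1 h2).2.2.mono_right (hT.mono' (by omega))
    · rw [Finset.disjoint_left]
      intro x hx hx'
      rw [Finset.mem_image] at hx'
      obtain ⟨j, hj, rfl⟩ := hx'
      exact hvz j u (h5 j hj).1 (h5 j hj).2 h1 h2 (by rintro rfl; exact h4 hj) hx
  set Wf : ℕ × Finset ℕ → ℕ := fun p => if q ≤ p.1 + p.2.card then 0 else
    if p.1 < t1 then (N - 1 - g - (p.1 + p.2.card)).choose (s - g) else κ.VV r G (TT p) with hWf
  set vf : ℕ × Finset ℕ → ℕ → ℕ := fun p u => if p.1 < t1 then
    (N - 1 - (g + 1) - (p.1 + p.2.card)).choose (s - (g + 1)) else κ.VV r (z u) (TT p) with hvf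
  have hflow := flow g q (fun p => (Wf p : ℝ)) (fun p u => (vf p u : ℝ)) (K : ℝ) ?_ ?_ ?_
  · have h1 : K ≤ ∑ i ∈ range q, wt g i * Wf (i, ∅) := by exact_mod_cast hflow
    refine h1.trans (Finset.sum_le_sum ?_)
    intro t ht
    rw [Finset.mem_range] at ht
    apply Nat.mul_le_mul_left
    simp only [hWf, hTT, Finset.card_empty, add_zero, Finset.image_empty, Finset.union_empty]
    rw [if_neg (by omega)]
  · -- recursion
    intro i R u h1 h2 h3 h4 h5
    have hc : (insert u R).card = R.card + 1 := Finset.card_insert_of_notMem h3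
    have key : vf (i, R) u + Wf (i, insert u R) ≤ Wf (i, R) := by
      simp only [hvf, hWf]
      rw [if_neg (by omega : ¬ q ≤ i + R.card), hc]
      by_cases hi : i < t1
      · rw [if_pos hi, if_pos hi, if_pos hi]
        have e1 := pascal' (N - 1 - g - (i + R.card)) (s - g) (by omega) (by omega)
        have e2 : N - 1 - (g + 1) - (i + R.card) = N - 1 - g - (i + R.card) - 1 := by omega
        have e3 : s - (g + 1) = s - g - 1 := by omega
        rw [e2, e3]
        by_cases hlev : q ≤ i + (R.card + 1)
        · rw [if_pos hlev]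
          omega
        · rw [if_neg hlev]
          have e4 : N - 1 - g - (i + (R.card + 1)) = N - 1 - g - (i + R.card) - 1 := by omega
          rw [e4]
          omega
      · rw [if_neg hi, if_neg hi, if_neg hi]
        have hR : ∀ j ∈ R, t1 < j ∧ j ≤ q := fun j hj => ⟨by have := (h2 j hj).1; omega, (h2 j hj).2⟩
        have hu : t1 < u := by omega
        have hzu := hzcov u hu h5
        have hmem : z u ∈ κ.WT G (TT (i, R)) := by
          rw [mem_WT]
          exact ⟨hzu.1, hzu.2.1, hTTdis i R u hu h5 h4 h3 hR⟩
        have h6 := VV_rec r hmem (hvr u hu h5).1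
        have e5 : TT (i, insert u R) = insert (vr u) (TT (i, R)) := by
          simp only [hTT, Finset.image_insert]
          rw [Finset.union_insert]
        by_cases hlev : q ≤ i + (R.card + 1)
        · rw [if_pos hlev]
          omega
        · rw [if_neg hlev, e5]
          exact h6
    exact_mod_cast key
  · -- top level
    intro i R h1
    simp only [hWf]
    rw [if_pos (by omega)]
    simp
  · -- children
    intro c u hc
    have key : K ≤ ∑ t ∈ range q, wt (g + 1) t * vf (c t) u := by
      have hsub : range (s + 1 - (g + 1)) ⊆ range q := Finset.range_subset_range.2 (by omega)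
      by_cases hall : ∀ t < q, (c t).1 < t1
      · refine (num2 r s (N - 1) hr (by omega) (r - (g + 1)) (g + 1) (by omega)).trans ?_
        refine le_trans (Finset.sum_le_sum ?_) (Finset.sum_le_sum_of_subset hsub)
        intro t ht
        rw [Finset.mem_range] at ht
        apply Nat.mul_le_mul_left
        simp only [hvf]
        rw [if_pos (hall t (by omega)), hc.card t (by omega)]
      · push Not at hall
        obtain ⟨ts, hts1, hts2⟩ := hall
        have hu := hc.last ts hts1
        have hut : t1 < u := by omega
        have huq : u ≤ q := hu.2.2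
        have hRall : ∀ t < q, ∀ j ∈ (c t).2, t1 < j ∧ j ≤ q := by
          intro t ht j hj
          have h1 := hc.sep t ht.le ts hts1.le j hj
          have h2 := hc.rng t ht.le j hj
          omega
        have hzu := hzcov u hut huq
        have hmono1 : ∀ a b, a ≤ b → b < q → (c a).1 ≤ (c b).1 := by
          intro a b hab hb
          induction b, hab using Nat.le_induction with
          | base => exact le_rfl
          | succ b hab ih =>
            have h1 := hc.step b (by omega)
            have h2 := ih (by omega)
            rcases h1 with h1 | h1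
            · omega
            · omega
        have hex : ∃ t, t < q ∧ t1 ≤ (c t).1 := ⟨ts, hts1, hts2⟩
        set t2 := Nat.find hex with ht2
        have ht2s := Nat.find_spec hex
        have ht2m : ∀ t < t2, t < q → (c t).1 < t1 := by
          intro t ht htq
          have := Nat.find_min hex ht
          push Not at this
          exact this htq
        have ht2b : ∀ t, t2 ≤ t → t < q → t1 ≤ (c t).1 := fun t h1 h2 =>
          ht2s.2.trans (hmono1 t2 t h1 h2)
        set T' : ℕ → Finset W := fun t => TT (c (min t (q - 1))) with hT'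
        have hT'chn : Chn T' := by
          refine ⟨?_, ?_, ?_⟩
          · simp only [hT', Nat.zero_min, hc.zero, hTT, hT.zero, Finset.image_empty,
              Finset.union_empty]
          · intro t
            simp only [hT']
            rcases Nat.lt_or_ge t (q - 1) with h | h
            · have e1 : min t (q - 1) = t := by omega
              have e2 : min (t + 1) (q - 1) = t + 1 := by omega
              rw [e1, e2]
              simp only [hTT]
              rcases hc.step t (by omega) with ⟨h1, h2⟩ | ⟨h1, j, h2⟩
              · rw [h1, h2]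
                exact Finset.union_subset_union_left (hT.mono _)
              · rw [h1, h2]
                exact Finset.union_subset_union_right (Finset.image_subset_image
                  (Finset.subset_insert _ _))
            · have e1 : min t (q - 1) = q - 1 := by omega
              have e2 : min (t + 1) (q - 1) = q - 1 := by omega
              rw [e1, e2]
          · intro t x hx y hy hnx hny
            simp only [hT'] at hx hy hnx hny
            rcases Nat.lt_or_ge t (q - 1) with h | h
            · have e1 : min t (q - 1) = t := by omega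
              have e2 : min (t + 1) (q - 1) = t + 1 := by omega
              rw [e2] at hx hy
              rw [e1] at hnx hny
              simp only [hTT, Finset.mem_union, not_or] at hx hy hnx hny
              rcases hc.step t (by omega) with ⟨h1, h2⟩ | ⟨h1, j, h2⟩
              · rw [h1, h2] at hx hy
                exact hT.one _ x (hx.resolve_right hnx.2) y (hy.resolve_right hny.2) hnx.1 hny.1
              · rw [h1, h2, Finset.image_insert, Finset.mem_insert] at hx hy
                have h3 := (hx.resolve_left hnx.1).resolve_right hnx.2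
                have h4 := (hy.resolve_left hny.1).resolve_right hny.2
                rw [h3, h4]
            · have e1 : min t (q - 1) = q - 1 := by omega
              have e2 : min (t + 1) (q - 1) = q - 1 := by omega
              rw [e2] at hx
              rw [e1] at hnx
              exact absurd hx hnx
        have hT'dis : ∀ t ≤ s - dm (z u), Disjoint (z u) (T' t) := by
          intro t _
          simp only [hT']
          have hm : min t (q - 1) < q := by omega
          have hl := hc.last _ hm
          exact hTTdis (c (min t (q - 1))).1 (c (min t (q - 1))).2 u hut huq hl.2.1 hl.1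
            (hRall _ hm)
        have hIH := IH (z u) T' (min t2 (q - 1)) hzu.2.1 hzu.1.dim hT'chn hT'dis (by
          rw [hzu.1.dim]; omega)
        rw [hzu.1.dim] at hIH
        refine hIH.trans ?_
        refine le_trans (Finset.sum_le_sum ?_) (Finset.sum_le_sum_of_subset hsub)
        intro t ht
        rw [Finset.mem_range] at ht
        apply Nat.mul_le_mul_left
        simp only [hvf]
        have htq : t < q := by omega
        have hmt : min t (q - 1) = t := by omega
        by_cases h2 : t < t2
        · rw [if_pos (by omega : t < min t2 (q - 1)), if_pos (ht2m t h2 htq), hc.card t htq.le]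
        · rw [if_neg (by omega : ¬ t < min t2 (q - 1)),
            if_neg (by have := ht2b t (by omega) htq; omega)]
          simp only [hT', hmt]
          exact le_rfl
    exact_mod_cast key

open Sal in
/-- the main claim -/
theorem main_claim {r : ℕ} (hr : r < s) (hs : s + 2 ≤ Module.finrank ℝ W) (n : ℕ) :
    ∀ (G : Finset W) (T : ℕ → Finset W) (t0 : ℕ), κ.CC G → dm G + n = r → Chn T →
      (∀ t ≤ s - dm G, Disjoint G (T t)) → t0 ≤ s + 1 - dm G →
      min ((s + 1).choose (r + 1)) ((Module.finrank ℝ W - 1).choose s) ≤
        ∑ t ∈ range (s + 1 - dm G), wt (dm G) t * (if t < t0 then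
          (Module.finrank ℝ W - 1 - dm G - t).choose (s - dm G) else κ.VV r G (T t)) := by
  induction n with
  | zero =>
    intro G T t0 hG hdim hT hdis ht0
    have hgr : dm G = r := by omega
    have hex : ∃ t, t0 ≤ t ∧ s + 1 - dm G ≤ (κ.WT G (T t)).card + t :=
      ⟨s + 1 - dm G, ht0, by omega⟩
    classical
    set t1 := Nat.find hex with ht1
    have ht1s := Nat.find_spec hex
    have ht1m : ∀ t < t1, t0 ≤ t → (κ.WT G (T t)).card + t < s + 1 - dm G := by
      intro t ht h0
      have := Nat.find_min hex ht
      push Not at this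
      exact this h0
    have ht1le : t1 ≤ s + 1 - dm G := Nat.find_min' hex ⟨ht0, by omega⟩
    have hfull : ∀ τ, t1 ≤ τ → τ ≤ s + 1 - dm G → s + 1 - dm G ≤ (κ.WT G (T τ)).card + τ := by
      intro τ h1 h2
      induction τ, h1 using Nat.le_induction with
      | base => exact ht1s.2
      | succ τ h1 ih =>
        rcases Nat.lt_or_ge (τ + 1) (s + 1 - dm G) with h3 | h3
        · have := WT_step (κ := κ) hG.1 hT τ (hdis (τ + 1) (by omega))
          have := ih (by omega)
          omega
        · omega
    have h1 := num1 r (s - r) (Module.finrank ℝ W - 1 - s) t1 (by omega)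
    have e1 : r + (s - r) + 1 = s + 1 := by omega
    have e2 : Module.finrank ℝ W - 1 - s + r + (s - r) = Module.finrank ℝ W - 1 := by omega
    have e3 : r + (s - r) = s := by omega
    have e4 : s - r + 1 = s + 1 - dm G := by omega
    rw [e1, e2, e3, e4] at h1
    refine h1.trans (Finset.sum_le_sum ?_)
    intro t ht
    rw [Finset.mem_range] at ht
    rw [hgr]
    apply Nat.mul_le_mul_left
    have e5 : Module.finrank ℝ W - 1 - s + (s - r) - t = Module.finrank ℝ W - 1 - r - t := by omega
    rw [e5]
    by_cases h2 : t < t0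
    · rw [if_pos h2, if_pos (lt_of_lt_of_le h2 ht1s.1)]
    · rw [if_neg h2]
      by_cases h3 : t < t1
      · rw [if_pos h3]
        have h4 := ht1m t h3 (by omega)
        have := V_bound (κ := κ) hr hs hG (by omega) (hdis t (by omega)) (hT.card t) (by omega)
        rwa [hgr] at this
      · rw [if_neg h3]
        have h4 := hfull t (by omega) (by omega)
        have h5 := WT_le_VV (κ := κ) (T := T t) hgr
        omega
  | succ n ih =>
    intro G T t0 hG hdim hT hdis ht0
    have hex : ∃ t, t0 ≤ t ∧ s + 1 - dm G ≤ (κ.WT G (T t)).card + t :=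
      ⟨s + 1 - dm G, ht0, by omega⟩
    classical
    set t1 := Nat.find hex with ht1
    have ht1s := Nat.find_spec hex
    have ht1m : ∀ t < t1, t0 ≤ t → (κ.WT G (T t)).card + t < s + 1 - dm G := by
      intro t ht h0
      have := Nat.find_min hex ht
      push Not at this
      exact this h0
    have ht1le : t1 ≤ s + 1 - dm G := Nat.find_min' hex ⟨ht0, by omega⟩
    have hfull : ∀ τ, t1 ≤ τ → τ ≤ s + 1 - dm G → s + 1 - dm G ≤ (κ.WT G (T τ)).card + τ := by
      intro τ h1 h2
      induction τ, h1 using Nat.le_induction with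
      | base => exact ht1s.2
      | succ τ h1 ih =>
        rcases Nat.lt_or_ge (τ + 1) (s + 1 - dm G) with h3 | h3
        · have := WT_step (κ := κ) hG.1 hT τ (hdis (τ + 1) (by omega))
          have := ih (by omega)
          omega
        · omega
    have h1 := full_step (κ := κ) hr hs hG (by omega) hT hdis ht1le hfull (by
      intro G' T' t0' hG' hd' hT' hdis' ht0'
      exact ih G' T' t0' hG' (by omega) hT' hdis' ht0')
    refine h1.trans (Finset.sum_le_sum ?_)
    intro t ht
    rw [Finset.mem_range] at ht
    apply Nat.mul_le_mul_left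
    by_cases h2 : t < t0
    · rw [if_pos h2, if_pos (lt_of_lt_of_le h2 ht1s.1)]
    · rw [if_neg h2]
      by_cases h3 : t < t1
      · rw [if_pos h3]
        have h4 := ht1m t h3 (by omega)
        exact V_bound (κ := κ) hr hs hG (by omega) (hdis t (by omega)) (hT.card t) (by omega)
      · rw [if_neg h3]

/-- the lower bound -/
theorem lower {r : ℕ} (hr : r < s) (hs : s + 2 ≤ Module.finrank ℝ W) (ha : ∃ F, κ.a F)
    (hb : ∃ F, κ.b F) :
    min ((s + 1).choose (r + 1)) ((Module.finrank ℝ W - 1).choose s) ≤
      P.cnt (fun F => (dm F = s + 1 ∧ ¬ κ.a F ∧ ¬ κ.b F) ∨ (dm F = r + 1 ∧ κ.CC F)) := by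
  obtain ⟨F, hF⟩ := ha
  obtain ⟨F', hF'⟩ := hb
  have hG : κ.CC P.bot := ⟨bot_cl, ⟨F, hF, bot_le (κ.ha F hF).1⟩, ⟨F', hF', bot_le (κ.hb F' hF').1⟩⟩
  have h1 := main_claim (κ := κ) hr hs r P.bot (fun _ => ∅) 0 hG (by rw [dm_bot]; omega)
    ⟨rfl, fun _ => Finset.Subset.refl _, fun t x hx => by simp at hx⟩
    (fun t _ => Finset.disjoint_empty_right _) (Nat.zero_le _)
  rw [dm_bot] at h1
  refine h1.trans ?_
  rw [Finset.sum_eq_single 0]
  · simp only [Sal.wt_zero, one_mul, lt_irrefl, if_false]
    apply cnt_mono
    rintro F hF ⟨_, _, h⟩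
    exact h
  · intro t _ ht
    have : Sal.wt 0 t = 0 := by simp [Sal.wt, ht]
    rw [this, zero_mul]
  · intro h
    exfalso
    apply h
    rw [Finset.mem_range]
    omega

end Col
end CP
end Pool.Agent.Helper715
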