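import Pool.Agent.Helper715.Sal5
import Pool.Agent.Helper715.Fin

set_option autoImplicit false
set_option linter.unusedSectionVars false
set_option linter.unusedVariables false

namespace Pool.Agent.Helper715

open Finset

variable {E : Type*} [NormedAddCommGroup E] [InnerProductSpace ℝ E] [FiniteDimensional ℝ E]

/-- faces of dimension `k`, in the form used by the statement -/
def IsF (Q : Set E) (k : ℕ) (F : Set E) : Prop :=
  F.Nonempty ∧ IsExposed ℝ Q F ∧ Module.finrank ℝ (vectorSpan ℝ F) = k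

theorem span_top_of_finrank (S : Finset E) (hE : 1 ≤ Module.finrank ℝ E)
    (h : Module.finrank ℝ (vectorSpan ℝ (convexHull ℝ (S : Set E))) = Module.finrank ℝ E) :
    affineSpan ℝ (S : Set E) = ⊤ := by
  have hne : (S : Set E).Nonempty := by
    rw [Set.nonempty_iff_ne_empty]
    intro h0
    rw [h0, convexHull_empty, vectorSpan_empty, finrank_bot] at h
    omega
  rw [← direction_affineSpan, affineSpan_convexHull] at h
  have h1 : (affineSpan ℝ (S : Set E)).direction = ⊤ := Submodule.eq_top_of_finrank_eq h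
  rwa [AffineSubspace.direction_eq_top_iff_of_nonempty] at h1
  exact hne.affineSpan ℝ

section

variable {C : CP (WithLp 2 (E × ℝ))} {S : Finset E}
variable (hP : (C.V : Set (WithLp 2 (E × ℝ))) = hm '' (S : Set E))
include hP

theorem IsF.dm {k : ℕ} {F : Set E} (h : IsF (convexHull ℝ (S : Set E)) k F) :
    dm (toA C F) = k + 1 := by
  rw [dm_toA hP h.2.1 h.1, direction_affineSpan, h.2.2]

theorem IsF.cl {k : ℕ} {F : Set E} (h : IsF (convexHull ℝ (S : Set E)) k F) :
    C.Cl (toA C F) := toA_cl hP h.2.1 h.1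

theorem isF_toF {k : ℕ} {A : Finset (WithLp 2 (E × ℝ))} (hA : C.Cl A) (hd : Pool.Agent.Helper715.dm A = k + 1) :
    IsF (convexHull ℝ (S : Set E)) k (toF C S A) := by
  have h1 := toF_nonempty hP hA (by omega)
  have h2 := toF_exposed hP A
  refine ⟨h1, h2, ?_⟩
  have h3 := dm_toA hP h2 h1
  rw [toA_toF hP hA, direction_affineSpan] at h3
  omega

theorem finite_faces (k : ℕ) : {F : Set E | IsF (convexHull ℝ (S : Set E)) k F}.Finite := by
  classical
  apply Set.Finite.subset (((C.V.powerset).image (toF C S)).finite_toSet)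
  intro F hF
  rw [Finset.mem_coe, Finset.mem_image]
  exact ⟨toA C F, Finset.mem_powerset.2 (IsF.cl hP hF).sub, toF_toA hP hF.2.1 hF.1⟩

theorem faces_ge (k : ℕ) :
    (Module.finrank ℝ E + 1).choose (k + 1) ≤ {F : Set E | IsF (convexHull ℝ (S : Set E)) k F}.ncard := by
  classical
  have h1 := CP.cnt_between (P := C) CP.bot_cl CP.top_cl (CP.bot_le CP.top_cl) (k + 1)
  rw [CP.dm_top, CP.dm_bot, finrank_hm, Nat.sub_zero] at h1
  refine h1.trans ?_
  rw [Set.ncard_eq_toFinset_card _ (finite_faces hP k)]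
  apply CP.cnt_le_of_inj _ (toF C S)
  · rintro A hA ⟨_, _, hd⟩
    rw [Set.Finite.mem_toFinset]
    exact isF_toF hP hA (by omega)
  · intro A B hA _ hB _ h
    rw [← toA_toF hP hA, ← toA_toF hP hB, h]

theorem conn_faces {r s : ℕ} (hr : r < s) (hs : s < Module.finrank ℝ E)
    (X : Finset (Set E))
    (hX : X.card < min ((s + 1).choose (r + 1)) ((Module.finrank ℝ E).choose s))
    (A B : Set E) (hA : IsF (convexHull ℝ (S : Set E)) s A)
    (hB : IsF (convexHull ℝ (S : Set E)) s B) (hAX : A ∉ X) (hBX : B ∉ X) :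
    (SimpleGraph.fromRel (fun F G : Set E => F ∉ X ∧ G ∉ X ∧ IsF (convexHull ℝ (S : Set E)) r F ∧
      IsF (convexHull ℝ (S : Set E)) s G ∧ F ⊆ G)).Reachable A B := by
  classical
  set Gr := SimpleGraph.fromRel (fun F G : Set E => F ∉ X ∧ G ∉ X ∧
    IsF (convexHull ℝ (S : Set E)) r F ∧ IsF (convexHull ℝ (S : Set E)) s G ∧ F ⊆ G) with hGr
  by_contra hcon
  let κ : CP.Col C s :=
    { a := fun c => ∃ F, IsF (convexHull ℝ (S : Set E)) s F ∧ F ∉ X ∧ c = toA C F ∧
        Gr.Reachable A F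
      b := fun c => ∃ F, IsF (convexHull ℝ (S : Set E)) s F ∧ F ∉ X ∧ c = toA C F ∧
        ¬ Gr.Reachable A F
      ha := by
        rintro c ⟨F, h1, _, rfl, _⟩
        exact ⟨IsF.cl hP h1, IsF.dm hP h1⟩
      hb := by
        rintro c ⟨F, h1, _, rfl, _⟩
        exact ⟨IsF.cl hP h1, IsF.dm hP h1⟩
      hab := by
        rintro c ⟨F, h1, _, rfl, h2⟩ ⟨F', h1', _, h3, h2'⟩
        have : F = F' := by
          rw [← toF_toA hP h1.2.1 h1.1, ← toF_toA hP h1'.2.1 h1'.1, h3]
        exact h2' (this ▸ h2) }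
  have h1 := CP.Col.lower (κ := κ) hr (by rw [finrank_hm]; omega)
    ⟨toA C A, A, hA, hAX, rfl, SimpleGraph.Reachable.refl _⟩ ⟨toA C B, B, hB, hBX, rfl, hcon⟩
  rw [finrank_hm, Nat.add_sub_cancel] at h1
  have h2 : C.cnt (fun F => (dm F = s + 1 ∧ ¬ κ.a F ∧ ¬ κ.b F) ∨ (dm F = r + 1 ∧ κ.CC F)) ≤
      X.card := by
    apply CP.cnt_le_of_inj _ (toF C S)
    · intro c hcl hc
      by_contra hnX
      have hback : c = toA C (toF C S c) := (toA_toF hP hcl).symm
      rcases hc with ⟨hd, hna, hnb⟩ | ⟨hd, hCC⟩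
      · have hF := isF_toF hP hcl hd
        by_cases hreach : Gr.Reachable A (toF C S c)
        · exact hna ⟨_, hF, hnX, hback, hreach⟩
        · exact hnb ⟨_, hF, hnX, hback, hreach⟩
      · have hF := isF_toF hP hcl hd
        obtain ⟨_, ⟨c1, ⟨F1, g1, g2, rfl, g3⟩, g4⟩, ⟨c2, ⟨F2, k1, k2, rfl, k3⟩, k4⟩⟩ := hCC
        have s1 : toF C S c ⊆ F1 := by
          rw [← sub_iff hP hF.2.1 hF.1 g1.2.1 g1.1, ← hback]; exact g4
        have s2 : toF C S c ⊆ F2 := by
          rw [← sub_iff hP hF.2.1 hF.1 k1.2.1 k1.1, ← hback]; exact k4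
        have n1 : toF C S c ≠ F1 := by
          intro h
          have e1 := hF.2.2
          have e2 := g1.2.2
          rw [h, e2] at e1
          omega
        have n2 : toF C S c ≠ F2 := by
          intro h
          have e1 := hF.2.2
          have e2 := k1.2.2
          rw [h, e2] at e1
          omega
        have a1 : Gr.Adj F1 (toF C S c) := by
          rw [hGr, SimpleGraph.fromRel_adj]
          exact ⟨n1.symm, Or.inr ⟨hnX, g2, hF, g1, s1⟩⟩
        have a2 : Gr.Adj (toF C S c) F2 := by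
          rw [hGr, SimpleGraph.fromRel_adj]
          exact ⟨n2, Or.inl ⟨hnX, k2, hF, k1, s2⟩⟩
        exact k3 ((g3.trans a1.reachable).trans a2.reachable)
    · intro c c' hc _ hc' _ h
      rw [← toA_toF hP hc, ← toA_toF hP hc', h]
  omega

end

end Pool.Agent.Helper715
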