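import Pool.Agent.Helper715.Sal6

set_option autoImplicit false
set_option linter.unusedSectionVars false
set_option linter.unusedVariables false

namespace Pool.Agent.Helper715

open Finset

theorem face_of_func {E : Type*} [NormedAddCommGroup E] [InnerProductSpace ℝ E]
    [FiniteDimensional ℝ E] (S0 T : Finset E) (l : StrongDual ℝ E) (M : ℝ) (hT : T.Nonempty)
    (hTS : T ⊆ S0) (h1 : ∀ v ∈ S0, l v ≤ M) (h2 : ∀ v ∈ S0, l v = M ↔ v ∈ T) :
    IsExposed ℝ (convexHull ℝ (S0 : Set E)) (convexHull ℝ (T : Set E)) := by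
  set F : Set E := {x | x ∈ convexHull ℝ (S0 : Set E) ∧ ∀ y ∈ convexHull ℝ (S0 : Set E), l y ≤ l x}
    with hF
  have hexp : IsExposed ℝ (convexHull ℝ (S0 : Set E)) F := fun _ => ⟨l, rfl⟩
  have hM : ∀ y ∈ convexHull ℝ (S0 : Set E), l y ≤ M := by
    have hc : Convex ℝ {y : E | l y ≤ M} := convex_halfSpace_le l.isLinear M
    exact convexHull_min (fun v hv => h1 v hv) hc
  have hST : (S0 : Set E) ∩ F = (T : Set E) := by
    ext v
    constructor
    · rintro ⟨hv, hvF⟩
      rw [Finset.mem_coe] at hv ⊢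
      rw [← h2 v hv]
      obtain ⟨t, ht⟩ := hT
      have h3 := hvF.2 t (subset_convexHull ℝ _ (Finset.mem_coe.2 (hTS ht)))
      rw [(h2 t (hTS ht)).2 ht] at h3
      exact le_antisymm (h1 v hv) h3
    · intro hv
      rw [Finset.mem_coe] at hv
      refine ⟨Finset.mem_coe.2 (hTS hv), subset_convexHull ℝ _ (Finset.mem_coe.2 (hTS hv)),
        fun y hy => ?_⟩
      rw [(h2 v (hTS hv)).2 hv]
      exact hM y hy
  have h4 := exposed_eq_hull hexp
  rw [hST] at h4
  rw [← h4]
  exact hexp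

section ex

variable {d : ℕ}

/-- the standard basis -/
noncomputable def ee (i : Fin d) : EuclideanSpace ℝ (Fin d) := EuclideanSpace.single i 1

/-- functional with given values on the basis -/
noncomputable def fL (w : Fin d → ℝ) : StrongDual ℝ (EuclideanSpace ℝ (Fin d)) :=
  ∑ i, w i • (EuclideanSpace.proj i : EuclideanSpace ℝ (Fin d) →L[ℝ] ℝ)

theorem fL_ee (w : Fin d → ℝ) (j : Fin d) : fL w (ee j) = w j := by
  simp [fL, ee]

theorem fL_two (w : Fin d → ℝ) (j : Fin d) : fL w ((2 : ℝ) • ee j) = 2 * w j := by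
  rw [map_smul, fL_ee, smul_eq_mul]

open scoped Classical in
/-- vertices of the truncated simplex -/
noncomputable def SS (d : ℕ) : Finset (EuclideanSpace ℝ (Fin d)) :=
  (Finset.univ.image ee) ∪ (Finset.univ.image (fun i => (2 : ℝ) • ee i))

theorem mem_SS {v : EuclideanSpace ℝ (Fin d)} :
    v ∈ SS d ↔ (∃ i, v = ee i) ∨ (∃ i, v = (2 : ℝ) • ee i) := by
  classical
  rw [SS, Finset.mem_union, Finset.mem_image, Finset.mem_image]
  constructor
  · rintro (⟨i, _, rfl⟩ | ⟨i, _, rfl⟩)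
    · exact Or.inl ⟨i, rfl⟩
    · exact Or.inr ⟨i, rfl⟩
  · rintro (⟨i, rfl⟩ | ⟨i, rfl⟩)
    · exact Or.inl ⟨i, Finset.mem_univ _, rfl⟩
    · exact Or.inr ⟨i, Finset.mem_univ _, rfl⟩

theorem ee_li : LinearIndependent ℝ (ee : Fin d → EuclideanSpace ℝ (Fin d)) := by
  rw [Fintype.linearIndependent_iff]
  intro g hg i
  have h1 := congrArg (fL (fun j => if j = i then (1 : ℝ) else 0)) hg
  rw [map_sum, map_zero] at h1
  simp only [map_smul, fL_ee, smul_eq_mul, mul_ite, mul_one, mul_zero, Finset.sum_ite_eq',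
    Finset.mem_univ, if_true] at h1
  exact h1

theorem ee_inj : Function.Injective (ee : Fin d → EuclideanSpace ℝ (Fin d)) := ee_li.injective

theorem two_li : LinearIndependent ℝ (fun i : Fin d => (2 : ℝ) • (ee i : EuclideanSpace ℝ (Fin d))) := by
  rw [Fintype.linearIndependent_iff]
  intro g hg i
  have h1 := congrArg (fL (fun j => if j = i then (1 : ℝ) else 0)) hg
  rw [map_sum, map_zero] at h1
  simp only [map_smul, fL_ee, smul_eq_mul, mul_ite, mul_one, mul_zero, Finset.sum_ite_eq',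
    Finset.mem_univ, if_true] at h1
  linarith

theorem vs_hull (A : Set (EuclideanSpace ℝ (Fin d))) :
    vectorSpan ℝ (convexHull ℝ A) = vectorSpan ℝ A := by
  rw [← direction_affineSpan, affineSpan_convexHull, direction_affineSpan]

open scoped Classical in
/-- bottom faces -/
noncomputable def bf (I : Finset (Fin d)) : Finset (EuclideanSpace ℝ (Fin d)) := I.image ee

open scoped Classical in
/-- top faces -/
noncomputable def tf (I : Finset (Fin d)) : Finset (EuclideanSpace ℝ (Fin d)) :=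
  I.image (fun i => (2 : ℝ) • ee i)

theorem mem_bf {I : Finset (Fin d)} {v : EuclideanSpace ℝ (Fin d)} :
    v ∈ bf I ↔ ∃ i ∈ I, ee i = v := by
  classical
  rw [bf, Finset.mem_image]

theorem mem_tf {I : Finset (Fin d)} {v : EuclideanSpace ℝ (Fin d)} :
    v ∈ tf I ↔ ∃ i ∈ I, (2 : ℝ) • ee i = v := by
  classical
  rw [tf, Finset.mem_image]

theorem finrank_bf {I : Finset (Fin d)} {k : ℕ} (hI : I.card = k + 1) :
    Module.finrank ℝ (vectorSpan ℝ (convexHull ℝ (bf I : Set (EuclideanSpace ℝ (Fin d))))) = k := by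
  classical
  rw [vs_hull]
  have h := (ee_li (d := d)).affineIndependent.finrank_vectorSpan_image_finset hI
  exact h

theorem finrank_tf {I : Finset (Fin d)} {k : ℕ} (hI : I.card = k + 1) :
    Module.finrank ℝ (vectorSpan ℝ (convexHull ℝ (tf I : Set (EuclideanSpace ℝ (Fin d))))) = k := by
  classical
  rw [vs_hull]
  have h := (two_li (d := d)).affineIndependent.finrank_vectorSpan_image_finset hI
  exact h

theorem bf_exposed {I : Finset (Fin d)} (hI : I.Nonempty) :
    IsExposed ℝ (convexHull ℝ (SS d : Set (EuclideanSpace ℝ (Fin d))))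
      (convexHull ℝ (bf I : Set (EuclideanSpace ℝ (Fin d)))) := by
  classical
  obtain ⟨i0, hi0⟩ := hI
  refine face_of_func (SS d) (bf I) (fL (fun i => if i ∈ I then (-1 : ℝ) else -2)) (-1)
    ⟨ee i0, mem_bf.2 ⟨i0, hi0, rfl⟩⟩ ?_ ?_ ?_
  · intro v hv
    obtain ⟨i, _, rfl⟩ := mem_bf.1 hv
    exact mem_SS.2 (Or.inl ⟨i, rfl⟩)
  · intro v hv
    rcases mem_SS.1 hv with ⟨i, rfl⟩ | ⟨i, rfl⟩
    · rw [fL_ee]; split_ifs <;> norm_num
    · rw [fL_two]; split_ifs <;> norm_num
  · intro v hv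
    rcases mem_SS.1 hv with ⟨i, rfl⟩ | ⟨i, rfl⟩
    · rw [fL_ee, mem_bf]
      by_cases h : i ∈ I
      · simp only [h, if_true, true_iff]
        exact ⟨i, h, rfl⟩
      · simp only [h, if_false]
        constructor
        · intro h'; norm_num at h'
        · rintro ⟨j, hj, hji⟩
          exact absurd (ee_inj hji ▸ hj) h
    · rw [fL_two, mem_bf]
      constructor
      · intro h'
        exfalso
        split_ifs at h' <;> norm_num at h'
      · rintro ⟨j, hj, hji⟩
        exfalso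
        have := congrArg (fL (fun _ => (1 : ℝ))) hji
        rw [fL_ee, fL_two] at this
        norm_num at this

theorem tf_exposed {I : Finset (Fin d)} (hI : I.Nonempty) :
    IsExposed ℝ (convexHull ℝ (SS d : Set (EuclideanSpace ℝ (Fin d))))
      (convexHull ℝ (tf I : Set (EuclideanSpace ℝ (Fin d)))) := by
  classical
  obtain ⟨i0, hi0⟩ := hI
  refine face_of_func (SS d) (tf I) (fL (fun i => if i ∈ I then (1 : ℝ) else -2)) 2
    ⟨(2 : ℝ) • ee i0, mem_tf.2 ⟨i0, hi0, rfl⟩⟩ ?_ ?_ ?_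
  · intro v hv
    obtain ⟨i, _, rfl⟩ := mem_tf.1 hv
    exact mem_SS.2 (Or.inr ⟨i, rfl⟩)
  · intro v hv
    rcases mem_SS.1 hv with ⟨i, rfl⟩ | ⟨i, rfl⟩
    · rw [fL_ee]; split_ifs <;> norm_num
    · rw [fL_two]; split_ifs <;> norm_num
  · intro v hv
    rcases mem_SS.1 hv with ⟨i, rfl⟩ | ⟨i, rfl⟩
    · rw [fL_ee, mem_tf]
      constructor
      · intro h'
        exfalso
        split_ifs at h' <;> norm_num at h'
      · rintro ⟨j, hj, hji⟩
        exfalso
        have := congrArg (fL (fun _ => (1 : ℝ))) hji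
        rw [fL_ee, fL_two] at this
        norm_num at this
    · rw [fL_two, mem_tf]
      by_cases h : i ∈ I
      · simp only [h, if_true, mul_one, true_iff]
        exact ⟨i, h, rfl⟩
      · simp only [h, if_false]
        constructor
        · intro h'; norm_num at h'
        · rintro ⟨j, hj, hji⟩
          exact absurd (two_li.injective hji ▸ hj) h

theorem sum_bf {I : Finset (Fin d)} {x : EuclideanSpace ℝ (Fin d)}
    (hx : x ∈ convexHull ℝ (bf I : Set (EuclideanSpace ℝ (Fin d)))) :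
    fL (fun _ => (1 : ℝ)) x = 1 := by
  have hc : Convex ℝ {y : EuclideanSpace ℝ (Fin d) | fL (fun _ => (1 : ℝ)) y = 1} :=
    convex_hyperplane (fL (fun _ => (1 : ℝ))).isLinear 1
  refine convexHull_min ?_ hc hx
  intro v hv
  obtain ⟨i, _, rfl⟩ := mem_bf.1 (Finset.mem_coe.1 hv)
  exact fL_ee _ _

theorem sum_tf {I : Finset (Fin d)} {x : EuclideanSpace ℝ (Fin d)}
    (hx : x ∈ convexHull ℝ (tf I : Set (EuclideanSpace ℝ (Fin d)))) :
    fL (fun _ => (1 : ℝ)) x = 2 := by
  have hc : Convex ℝ {y : EuclideanSpace ℝ (Fin d) | fL (fun _ => (1 : ℝ)) y = 2} :=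
    convex_hyperplane (fL (fun _ => (1 : ℝ))).isLinear 2
  refine convexHull_min ?_ hc hx
  intro v hv
  obtain ⟨i, _, rfl⟩ := mem_tf.1 (Finset.mem_coe.1 hv)
  change fL (fun _ => (1 : ℝ)) ((2 : ℝ) • ee i) = 2
  rw [fL_two]; norm_num

theorem isF_bf {I : Finset (Fin d)} {k : ℕ} (hI : I.card = k + 1) :
    IsF (convexHull ℝ (SS d : Set (EuclideanSpace ℝ (Fin d)))) k
      (convexHull ℝ (bf I : Set (EuclideanSpace ℝ (Fin d)))) := by
  have hne : I.Nonempty := Finset.card_pos.1 (by omega)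
  obtain ⟨i, hi⟩ := id hne
  exact ⟨⟨ee i, subset_convexHull ℝ _ (Finset.mem_coe.2 (mem_bf.2 ⟨i, hi, rfl⟩))⟩,
    bf_exposed hne, finrank_bf hI⟩

theorem isF_tf {I : Finset (Fin d)} {k : ℕ} (hI : I.card = k + 1) :
    IsF (convexHull ℝ (SS d : Set (EuclideanSpace ℝ (Fin d)))) k
      (convexHull ℝ (tf I : Set (EuclideanSpace ℝ (Fin d)))) := by
  have hne : I.Nonempty := Finset.card_pos.1 (by omega)
  obtain ⟨i, hi⟩ := id hne
  exact ⟨⟨(2 : ℝ) • ee i, subset_convexHull ℝ _ (Finset.mem_coe.2 (mem_tf.2 ⟨i, hi, rfl⟩))⟩,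
    tf_exposed hne, finrank_tf hI⟩

/-- faces inside of a bottom face -/
theorem sub_bf {I : Finset (Fin d)} {k : ℕ} {F : Set (EuclideanSpace ℝ (Fin d))}
    (hF : IsF (convexHull ℝ (SS d : Set (EuclideanSpace ℝ (Fin d)))) k F)
    (hFI : F ⊆ convexHull ℝ (bf I : Set (EuclideanSpace ℝ (Fin d)))) :
    ∃ J ⊆ I, J.card = k + 1 ∧ F = convexHull ℝ (bf J : Set (EuclideanSpace ℝ (Fin d))) := by
  classical
  set J := I.filter (fun i => ee i ∈ F) with hJ
  have h1 : (SS d : Set (EuclideanSpace ℝ (Fin d))) ∩ F = (bf J : Set (EuclideanSpace ℝ (Fin d))) := by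
    ext v
    constructor
    · rintro ⟨hv, hvF⟩
      rw [Finset.mem_coe] at hv ⊢
      rw [mem_bf]
      have hvI := hFI hvF
      rcases mem_SS.1 hv with ⟨i, rfl⟩ | ⟨i, rfl⟩
      · refine ⟨i, ?_, rfl⟩
        rw [hJ, Finset.mem_filter]
        refine ⟨?_, hvF⟩
        by_contra hiI
        have hc : Convex ℝ {y : EuclideanSpace ℝ (Fin d) |
            fL (fun j => if j = i then (1 : ℝ) else 0) y = 0} :=
          convex_hyperplane (fL (fun j => if j = i then (1 : ℝ) else 0)).isLinear 0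
        have h2 := convexHull_min (fun w hw => by
          obtain ⟨j, hj, rfl⟩ := mem_bf.1 (Finset.mem_coe.1 hw)
          change fL (fun j => if j = i then (1 : ℝ) else 0) (ee j) = 0
          rw [fL_ee, if_neg]
          rintro rfl
          exact hiI hj) hc hvI
        change fL (fun j => if j = i then (1 : ℝ) else 0) (ee i) = 0 at h2
        rw [fL_ee, if_pos rfl] at h2
        norm_num at h2
      · exfalso
        have := sum_bf hvI
        rw [fL_two] at this
        norm_num at this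
    · intro hv
      obtain ⟨i, hi, rfl⟩ := mem_bf.1 (Finset.mem_coe.1 hv)
      rw [hJ, Finset.mem_filter] at hi
      exact ⟨Finset.mem_coe.2 (mem_SS.2 (Or.inl ⟨i, rfl⟩)), hi.2⟩
  have h2 := exposed_eq_hull hF.2.1
  rw [h1] at h2
  have hne : J.Nonempty := by
    rw [Finset.nonempty_iff_ne_empty]
    intro h0
    have h3 := hF.1
    rw [h2, h0] at h3
    simp [bf] at h3
  refine ⟨J, Finset.filter_subset _ _, ?_, h2⟩
  have hc := Finset.card_pos.2 hne
  have h4 := finrank_bf (I := J) (k := J.card - 1) (by omega)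
  rw [← h2, hF.2.2] at h4
  omega

theorem finrank_both {J : Finset (Fin d)} (hJ : J.Nonempty) :
    Module.finrank ℝ (vectorSpan ℝ (convexHull ℝ
      ((bf J : Set (EuclideanSpace ℝ (Fin d))) ∪ (tf J : Set (EuclideanSpace ℝ (Fin d)))))) = J.card := by
  classical
  rw [vs_hull]
  have h1 : vectorSpan ℝ ((bf J : Set (EuclideanSpace ℝ (Fin d))) ∪ (tf J : Set (EuclideanSpace ℝ (Fin d))))
      = Submodule.span ℝ (bf J : Set (EuclideanSpace ℝ (Fin d))) := by
    apply le_antisymm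
    · rw [vectorSpan, Submodule.span_le]
      rintro _ ⟨a, ha, b, hb, rfl⟩
      have key : ∀ a ∈ ((bf J : Set (EuclideanSpace ℝ (Fin d))) ∪ (tf J : Set (EuclideanSpace ℝ (Fin d)))),
          a ∈ Submodule.span ℝ (bf J : Set (EuclideanSpace ℝ (Fin d))) := by
        rintro a (ha | ha)
        · exact Submodule.subset_span ha
        · obtain ⟨i, hi, rfl⟩ := mem_tf.1 (Finset.mem_coe.1 ha)
          exact Submodule.smul_mem _ _ (Submodule.subset_span (Finset.mem_coe.2 (mem_bf.2 ⟨i, hi, rfl⟩)))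
      exact Submodule.sub_mem _ (key a ha) (key b hb)
    · rw [Submodule.span_le]
      intro v hv
      obtain ⟨i, hi, rfl⟩ := mem_bf.1 (Finset.mem_coe.1 hv)
      have h2 := vsub_mem_vectorSpan ℝ (s := ((bf J : Set (EuclideanSpace ℝ (Fin d))) ∪
        (tf J : Set (EuclideanSpace ℝ (Fin d))))) (p₁ := (2 : ℝ) • ee i) (p₂ := ee i)
        (Or.inr (Finset.mem_coe.2 (mem_tf.2 ⟨i, hi, rfl⟩)))
        (Or.inl (Finset.mem_coe.2 (mem_bf.2 ⟨i, hi, rfl⟩)))
      have h3 : (2 : ℝ) • ee i -ᵥ ee i = (ee i : EuclideanSpace ℝ (Fin d)) := by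
        rw [vsub_eq_sub, two_smul, add_sub_cancel_right]
      rwa [h3] at h2
  rw [h1]
  have h2 : LinearIndependent ℝ (fun x : (bf J : Finset (EuclideanSpace ℝ (Fin d))) => (x : EuclideanSpace ℝ (Fin d))) := by
    have h3 : LinearIndepOn ℝ id (Set.range (ee : Fin d → EuclideanSpace ℝ (Fin d))) :=
      (ee_li (d := d)).linearIndepOn_id
    have h5 : (bf J : Set (EuclideanSpace ℝ (Fin d))) ⊆
        Set.range (ee : Fin d → EuclideanSpace ℝ (Fin d)) := by
      intro v hv
      obtain ⟨i, _, hi⟩ := mem_bf.1 (Finset.mem_coe.1 hv)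
      exact ⟨i, hi⟩
    have h4 : LinearIndepOn ℝ id (bf J : Set (EuclideanSpace ℝ (Fin d))) := h3.mono h5
    exact h4
  have h5 : Module.finrank ℝ (Submodule.span ℝ ((bf J : Finset (EuclideanSpace ℝ (Fin d))) : Set (EuclideanSpace ℝ (Fin d)))) = (bf J).card :=
    finrank_span_finset_eq_card h2
  rw [h5, bf, Finset.card_image_of_injective _ ee_inj]

/-- faces meeting both the bottom and the top -/
theorem both {k : ℕ} {F : Set (EuclideanSpace ℝ (Fin d))}
    (hF : IsF (convexHull ℝ (SS d : Set (EuclideanSpace ℝ (Fin d)))) k F)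
    {i j : Fin d} (hi : ee i ∈ F) (hj : (2 : ℝ) • ee j ∈ F) :
    ∃ J : Finset (Fin d), J.card = k ∧ F = convexHull ℝ
      ((bf J : Set (EuclideanSpace ℝ (Fin d))) ∪ (tf J : Set (EuclideanSpace ℝ (Fin d)))) := by
  classical
  obtain ⟨l, hl⟩ := hF.2.1 hF.1
  have hiF := hi
  have hjF := hj
  rw [hl] at hiF hjF
  have hmem : ∀ v ∈ SS d, v ∈ convexHull ℝ (SS d : Set (EuclideanSpace ℝ (Fin d))) := fun v hv =>
    subset_convexHull ℝ _ (Finset.mem_coe.2 hv)
  have m1 : ∀ i : Fin d, ee i ∈ SS d := fun i => mem_SS.2 (Or.inl ⟨i, rfl⟩)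
  have m2 : ∀ i : Fin d, (2 : ℝ) • ee i ∈ SS d := fun i => mem_SS.2 (Or.inr ⟨i, rfl⟩)
  have t2 : ∀ i : Fin d, l ((2 : ℝ) • ee i) = 2 * l (ee i) := fun i => by
    rw [map_smul, smul_eq_mul]
  have a1 := hiF.2 _ (hmem _ (m2 i))
  have a2 := hiF.2 _ (hmem _ (m2 j))
  have a3 := hjF.2 _ (hmem _ (m1 i))
  have a4 := hjF.2 _ (hmem _ (m1 j))
  rw [t2] at a1 a2 a3 a4
  have z0 : l (ee i) = 0 := by linarith
  have hmax : ∀ y ∈ convexHull ℝ (SS d : Set (EuclideanSpace ℝ (Fin d))), l y ≤ 0 := fun y hy => by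
    have := hiF.2 y hy
    linarith
  have hchar : ∀ v ∈ SS d, v ∈ F ↔ l v = 0 := by
    intro v hv
    rw [hl]
    constructor
    · rintro ⟨_, h⟩
      have h1 := h _ hiF.1
      have h2 := hmax v (hmem v hv)
      linarith
    · intro h
      refine ⟨hmem v hv, fun y hy => ?_⟩
      rw [h]; exact hmax y hy
  set J := Finset.univ.filter (fun i => l (ee i : EuclideanSpace ℝ (Fin d)) = 0) with hJ
  have h1 : (SS d : Set (EuclideanSpace ℝ (Fin d))) ∩ F =
      (bf J : Set (EuclideanSpace ℝ (Fin d))) ∪ (tf J : Set (EuclideanSpace ℝ (Fin d))) := by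
    ext v
    constructor
    · rintro ⟨hv, hvF⟩
      rw [Finset.mem_coe] at hv
      rw [hchar v hv] at hvF
      rcases mem_SS.1 hv with ⟨k, rfl⟩ | ⟨k, rfl⟩
      · left
        rw [Finset.mem_coe, mem_bf]
        exact ⟨k, by rw [hJ, Finset.mem_filter]; exact ⟨Finset.mem_univ _, hvF⟩, rfl⟩
      · right
        rw [Finset.mem_coe, mem_tf]
        refine ⟨k, ?_, rfl⟩
        rw [hJ, Finset.mem_filter]
        rw [t2] at hvF
        exact ⟨Finset.mem_univ _, by linarith⟩
    · rintro (hv | hv)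
      · obtain ⟨k, hk, rfl⟩ := mem_bf.1 (Finset.mem_coe.1 hv)
        rw [hJ, Finset.mem_filter] at hk
        exact ⟨Finset.mem_coe.2 (m1 k), (hchar _ (m1 k)).2 hk.2⟩
      · obtain ⟨k, hk, rfl⟩ := mem_tf.1 (Finset.mem_coe.1 hv)
        rw [hJ, Finset.mem_filter] at hk
        exact ⟨Finset.mem_coe.2 (m2 k), (hchar _ (m2 k)).2 (by rw [t2, hk.2, mul_zero])⟩
  have h2 := exposed_eq_hull hF.2.1
  rw [h1] at h2
  have hne : J.Nonempty := ⟨i, by rw [hJ, Finset.mem_filter]; exact ⟨Finset.mem_univ _, z0⟩⟩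
  refine ⟨J, ?_, h2⟩
  rw [← finrank_both hne, ← h2, hF.2.2]

theorem vs_SS : Module.finrank ℝ (vectorSpan ℝ (convexHull ℝ
    (SS d : Set (EuclideanSpace ℝ (Fin d))))) = d := by
  rcases Nat.eq_zero_or_pos d with h | h
  · subst h
    have h1 := Submodule.finrank_le (vectorSpan ℝ (convexHull ℝ
      (SS 0 : Set (EuclideanSpace ℝ (Fin 0)))))
    rw [finrank_euclideanSpace_fin] at h1
    omega
  · have h1 := finrank_both (d := d) (J := Finset.univ) ⟨⟨0, h⟩, Finset.mem_univ _⟩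
    have h2 : (bf (Finset.univ : Finset (Fin d)) : Set (EuclideanSpace ℝ (Fin d))) ∪
        (tf (Finset.univ : Finset (Fin d)) : Set (EuclideanSpace ℝ (Fin d))) = (SS d : Set _) := by
      ext v
      rw [Set.mem_union, Finset.mem_coe, Finset.mem_coe, Finset.mem_coe, mem_SS, mem_bf, mem_tf]
      constructor
      · rintro (⟨i, _, h⟩ | ⟨i, _, h⟩)
        · exact Or.inl ⟨i, h.symm⟩
        · exact Or.inr ⟨i, h.symm⟩
      · rintro (⟨i, h⟩ | ⟨i, h⟩)
        · exact Or.inl ⟨i, Finset.mem_univ _, h.symm⟩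
        · exact Or.inr ⟨i, Finset.mem_univ _, h.symm⟩
    rw [h2] at h1
    rw [h1, Finset.card_univ, Fintype.card_fin]

end ex

end Pool.Agent.Helper715
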