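import Pool.Agent.Helper715.Sal7

set_option autoImplicit false
set_option linter.unusedSectionVars false
set_option linter.unusedVariables false

namespace Pool.Agent.Helper715

open Finset

theorem reach_inv {α : Type*} {r : α → α → Prop} (Inv : α → Prop)
    (hstep : ∀ x y, (SimpleGraph.fromRel r).Adj x y → Inv x → Inv y) {a b : α}
    (h : (SimpleGraph.fromRel r).Reachable a b) (ha : Inv a) : Inv b := by
  rw [SimpleGraph.reachable_iff_reflTransGen] at h
  induction h with
  | refl => exact ha
  | tail _ h1 ih => exact hstep _ _ h1 ih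

theorem upper (d r s : ℕ) (hr : r < s) (hs : s < d) :
    ∃ X : Finset (Set (EuclideanSpace ℝ (Fin d))),
      X.card ≤ min ((s + 1).choose (r + 1)) (d.choose s) ∧
      ∃ A B : Set (EuclideanSpace ℝ (Fin d)),
        IsF (convexHull ℝ (SS d : Set (EuclideanSpace ℝ (Fin d)))) s A ∧
        IsF (convexHull ℝ (SS d : Set (EuclideanSpace ℝ (Fin d)))) s B ∧ A ∉ X ∧ B ∉ X ∧
        ¬ (SimpleGraph.fromRel (fun F G : Set (EuclideanSpace ℝ (Fin d)) => F ∉ X ∧ G ∉ X ∧
          IsF (convexHull ℝ (SS d : Set (EuclideanSpace ℝ (Fin d)))) r F ∧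
          IsF (convexHull ℝ (SS d : Set (EuclideanSpace ℝ (Fin d)))) s G ∧ F ⊆ G)).Reachable A B := by
  classical
  obtain ⟨I, _, hI⟩ := Finset.exists_subset_card_eq (s := (Finset.univ : Finset (Fin d)))
    (n := s + 1) (by rw [Finset.card_univ, Fintype.card_fin]; omega)
  obtain ⟨i0, hi0⟩ : I.Nonempty := Finset.card_pos.1 (by omega)
  set A : Set (EuclideanSpace ℝ (Fin d)) := convexHull ℝ (bf I : Set (EuclideanSpace ℝ (Fin d))) with hA
  set B : Set (EuclideanSpace ℝ (Fin d)) := convexHull ℝ (tf I : Set (EuclideanSpace ℝ (Fin d))) with hB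
  have hAF := isF_bf hI
  have hBF := isF_tf hI
  rw [← hA] at hAF
  rw [← hB] at hBF
  have hBt : ∀ x ∈ B, fL (fun _ => (1 : ℝ)) x = 2 := fun x hx => sum_tf hx
  have hAb : ∀ x ∈ A, fL (fun _ => (1 : ℝ)) x = 1 := fun x hx => sum_bf hx
  have hBA : B ≠ A := by
    intro h
    obtain ⟨x, hx⟩ := hBF.1
    have h1 := hBt x hx
    rw [h] at hx
    have h2 := hAb x hx
    rw [h1] at h2
    norm_num at h2
  rcases le_total ((s + 1).choose (r + 1)) (d.choose s) with hmin | hmin
  · rw [min_eq_left hmin]
    refine ⟨(I.powersetCard (r + 1)).image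
      (fun J => convexHull ℝ (bf J : Set (EuclideanSpace ℝ (Fin d)))), ?_, A, B, hAF, hBF, ?_, ?_, ?_⟩
    · refine Finset.card_image_le.trans ?_
      rw [Finset.card_powersetCard, hI]
    · intro hcon
      rw [Finset.mem_image] at hcon
      obtain ⟨J, hJ, hJA⟩ := hcon
      rw [Finset.mem_powersetCard] at hJ
      have h1 := finrank_bf hJ.2
      rw [hJA, hAF.2.2] at h1
      omega
    · intro hcon
      rw [Finset.mem_image] at hcon
      obtain ⟨J, hJ, hJA⟩ := hcon
      rw [Finset.mem_powersetCard] at hJ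
      have h1 := finrank_bf hJ.2
      rw [hJA, hBF.2.2] at h1
      omega
    · intro hreach
      apply hBA
      refine reach_inv (fun x => x = A) ?_ hreach rfl
      rintro x y hxy rfl
      exfalso
      rw [SimpleGraph.fromRel_adj] at hxy
      rcases hxy.2 with ⟨_, _, h1, _⟩ | ⟨h0, _, h1, _, h2⟩
      · have e1 := h1.2.2
        have e2 := hAF.2.2
        rw [hA] at e2
        rw [e2] at e1
        omega
      · apply h0
        obtain ⟨J, hJ, hJc, hJe⟩ := sub_bf h1 h2
        rw [Finset.mem_image]
        exact ⟨J, Finset.mem_powersetCard.2 ⟨hJ, hJc⟩, hJe.symm⟩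
  · rw [min_eq_right hmin]
    refine ⟨((Finset.univ : Finset (Fin d)).powersetCard s).image
      (fun J => convexHull ℝ ((bf J : Set (EuclideanSpace ℝ (Fin d))) ∪
        (tf J : Set (EuclideanSpace ℝ (Fin d))))), ?_, A, B, hAF, hBF, ?_, ?_, ?_⟩
    · refine Finset.card_image_le.trans ?_
      rw [Finset.card_powersetCard, Finset.card_univ, Fintype.card_fin]
    · intro hcon
      rw [Finset.mem_image] at hcon
      obtain ⟨J, hJ, hJA⟩ := hcon
      rw [Finset.mem_powersetCard] at hJ
      obtain ⟨j, hj⟩ : J.Nonempty := Finset.card_pos.1 (by omega)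
      have h1 : (2 : ℝ) • ee j ∈ A := by
        rw [← hJA]
        exact subset_convexHull ℝ _ (Or.inr (Finset.mem_coe.2 (mem_tf.2 ⟨j, hj, rfl⟩)))
      have h2 := hAb _ h1
      rw [fL_two] at h2
      norm_num at h2
    · intro hcon
      rw [Finset.mem_image] at hcon
      obtain ⟨J, hJ, hJB⟩ := hcon
      rw [Finset.mem_powersetCard] at hJ
      obtain ⟨j, hj⟩ : J.Nonempty := Finset.card_pos.1 (by omega)
      have h1 : ee j ∈ B := by
        rw [← hJB]
        exact subset_convexHull ℝ _ (Or.inl (Finset.mem_coe.2 (mem_bf.2 ⟨j, hj, rfl⟩)))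
      have h2 := hBt _ h1
      rw [fL_ee] at h2
      norm_num at h2
    · intro hreach
      have hinv := reach_inv (fun F : Set (EuclideanSpace ℝ (Fin d)) =>
        ∀ x ∈ F, fL (fun _ => (1 : ℝ)) x = 1) ?_ hreach hAb
      · obtain ⟨x, hx⟩ := hBF.1
        have h1 := hinv x hx
        rw [hBt x hx] at h1
        norm_num at h1
      · intro x y hxy hx
        rw [SimpleGraph.fromRel_adj] at hxy
        rcases hxy.2 with ⟨_, h0, h1, h2, h3⟩ | ⟨_, _, h1, _, h3⟩
        · -- `x ⊆ y`, `y` an `s`-face not deleted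
          obtain ⟨p, hp⟩ := h1.1
          have hpy := h3 hp
          have hhull := exposed_eq_hull h2.2.1
          -- a bottom vertex in `y`
          have hbot : ∃ i : Fin d, ee i ∈ y := by
            by_contra hcon
            push Not at hcon
            have h4 : y ⊆ {q : EuclideanSpace ℝ (Fin d) | fL (fun _ => (1 : ℝ)) q = 2} := by
              rw [hhull]
              refine convexHull_min ?_ (convex_hyperplane (fL (fun _ => (1 : ℝ))).isLinear 2)
              rintro v ⟨hv, hvy⟩
              rcases mem_SS.1 (Finset.mem_coe.1 hv) with ⟨i, rfl⟩ | ⟨i, rfl⟩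
              · exact absurd hvy (hcon i)
              · change fL (fun _ => (1 : ℝ)) ((2 : ℝ) • ee i) = 2
                rw [fL_two]; norm_num
            have h5 := h4 hpy
            have h6 := hx p hp
            change fL (fun _ => (1 : ℝ)) p = 2 at h5
            rw [h6] at h5
            norm_num at h5
          obtain ⟨i, hi⟩ := hbot
          by_cases htop : ∃ j : Fin d, (2 : ℝ) • ee j ∈ y
          · obtain ⟨j, hj⟩ := htop
            exfalso
            apply h0
            obtain ⟨J, hJc, hJe⟩ := both h2 hi hj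
            rw [Finset.mem_image]
            exact ⟨J, Finset.mem_powersetCard.2 ⟨Finset.subset_univ _, hJc⟩, hJe.symm⟩
          · push Not at htop
            have h4 : y ⊆ {q : EuclideanSpace ℝ (Fin d) | fL (fun _ => (1 : ℝ)) q = 1} := by
              rw [hhull]
              refine convexHull_min ?_ (convex_hyperplane (fL (fun _ => (1 : ℝ))).isLinear 1)
              rintro v ⟨hv, hvy⟩
              rcases mem_SS.1 (Finset.mem_coe.1 hv) with ⟨i, rfl⟩ | ⟨i, rfl⟩
              · exact fL_ee _ _
              · exact absurd hvy (htop i)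
            exact fun q hq => h4 hq
        · exact fun q hq => hx q (h3 hq)

end Pool.Agent.Helper715
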